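import Mathlib
import Pool.Agent.H24.HF.Defs
import Pool.Agent.H24.HF.Na
import Pool.Agent.H14.GP.Vc
import Pool.Agent.H14.GP.Vd

/-!
# MP_103a5c_AH, block W (general Wick theorem), part a: the chain rule and one step of integration by parts

The proofs are those of `H24/HF/Na`, `H24/HF/Nb` for arbitrary families of nonnegative test functions.
-/

open MeasureTheory Set Filter Topology
open scoped Real ContDiff ComplexConjugate

namespace Pool.Agent.H24.AH

open Pool.Agent Pool.Agent.H6 Pool.Agent.H14.GP Pool.Agent.H24.HF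

/-- a finite family of nonnegative continuous test functions; `G j` is supported in `[a, ℓ j]` -/
structure Fam (M : ℕ) (ℓ : ℕ → ℝ) (G : ℕ → ℝ → ℝ) : Prop where
  cont : ∀ j, Continuous (G j)
  nonneg : ∀ j x, 0 ≤ G j x
  low : ∃ a, 0 < a ∧ ∀ j x, x ≤ a → G j x = 0
  high : ∀ j x, ℓ j ≤ x → G j x = 0
  lpos : ∀ j, 0 ≤ ℓ j
  lone : ∀ j, ℓ j ≤ 1
  out : ∀ j, M ≤ j → ∀ x, G j x = 0

/-- weighted degree at most `D` with real weights -/
def WDegR (ℓ : ℕ → ℝ) (D : ℝ) (Q : QQ) : Prop := ∀ m ∈ Q.support, (m.sum fun j e => ℓ j * (e : ℝ)) ≤ D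



private theorem na_mul_coeff {X Y : DPoly} {S S' : Finset ℕ} (hS : X.coeff.support ⊆ S)
    (hS' : Y.coeff.support ⊆ S') (k : ℕ) :
    (X * Y).coeff k = ∑ m ∈ S, ∑ n ∈ S', if m * n = k then X.coeff m * Y.coeff n else 0 := by
  rw [MonoidAlgebra.coeff_mul]
  have h1 : ∀ m, (Y.coeff.sum fun n b => if m * n = k then X.coeff m * b else 0)
      = ∑ n ∈ S', if m * n = k then X.coeff m * Y.coeff n else 0 := by
    intro m
    apply Finset.sum_subset hS'
    intro n _ hn
    have : Y.coeff n = 0 := Finsupp.notMem_support_iff.1 hn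
    simp only [this, mul_zero, ite_self]
  have h2 : (X.coeff.sum fun m a => Y.coeff.sum fun n b => if m * n = k then a * b else 0)
      = ∑ m ∈ S, (Y.coeff.sum fun n b => if m * n = k then X.coeff m * b else 0) := by
    apply Finset.sum_subset hS
    intro m _ hm
    have : X.coeff m = 0 := Finsupp.notMem_support_iff.1 hm
    simp only [this, zero_mul, ite_self]
    exact Finset.sum_const_zero
  rw [h2]
  exact Finset.sum_congr rfl fun m _ => h1 m

private theorem na_mul_zero {X Y : DPoly} (hX : X.coeff 0 = 0) (hY : Y.coeff 0 = 0) : (X * Y).coeff 0 = 0 := by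
  rw [na_mul_coeff (Finset.Subset.refl _) (Finset.Subset.refl _)]
  apply Finset.sum_eq_zero
  intro m _
  apply Finset.sum_eq_zero
  intro n _
  split_ifs with h
  · rcases Nat.mul_eq_zero.1 h with h | h
    · rw [h, hX, zero_mul]
    · rw [h, hY, mul_zero]
  · rfl

private theorem na_coeff (p : ℕ) (X : DPoly) (n : ℕ) :
    (Np p X).coeff n = (padicValNat p n : ℝ) * X.coeff n := by
  unfold Np
  rw [MonoidAlgebra.coeff_sum, Finsupp.finsetSum_apply]
  simp only [MonoidAlgebra.coeff_single, Finsupp.single_apply]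
  rw [Finset.sum_ite_eq']
  split_ifs with h
  · rfl
  · rw [Finsupp.notMem_support_iff.1 h, mul_zero]

private theorem na_ext {X Y : DPoly} (h : ∀ n, X.coeff n = Y.coeff n) : X = Y :=
  MonoidAlgebra.coeff_injective (Finsupp.ext h)

private theorem na_add (p : ℕ) (X Y : DPoly) : Np p (X + Y) = Np p X + Np p Y := by
  apply na_ext
  intro n
  rw [MonoidAlgebra.coeff_add, Finsupp.add_apply, na_coeff, na_coeff, na_coeff, MonoidAlgebra.coeff_add,
    Finsupp.add_apply]
  ring

private theorem na_mul {p : ℕ} (hp : p.Prime) {X Y : DPoly} (hX : X.coeff 0 = 0) (hY : Y.coeff 0 = 0) :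
    Np p (X * Y) = Np p X * Y + X * Np p Y := by
  have := Fact.mk hp
  have sX : (Np p X).coeff.support ⊆ X.coeff.support := by
    intro n hn
    rw [Finsupp.mem_support_iff] at hn ⊢
    intro h
    rw [na_coeff, h, mul_zero] at hn
    exact hn rfl
  have sY : (Np p Y).coeff.support ⊆ Y.coeff.support := by
    intro n hn
    rw [Finsupp.mem_support_iff] at hn ⊢
    intro h
    rw [na_coeff, h, mul_zero] at hn
    exact hn rfl
  apply na_ext
  intro k
  rw [na_coeff, MonoidAlgebra.coeff_add, Finsupp.add_apply,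
    na_mul_coeff (Finset.Subset.refl _) (Finset.Subset.refl _),
    na_mul_coeff sX (Finset.Subset.refl _), na_mul_coeff (Finset.Subset.refl _) sY,
    Finset.mul_sum, ← Finset.sum_add_distrib]
  apply Finset.sum_congr rfl
  intro m _
  rw [Finset.mul_sum, ← Finset.sum_add_distrib]
  apply Finset.sum_congr rfl
  intro n _
  rw [na_coeff, na_coeff]
  split_ifs with h
  · by_cases hm : m = 0
    · rw [hm, hX]; ring
    by_cases hn : n = 0
    · rw [hn, hY]; ring
    rw [← h, padicValNat.mul hm hn]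
    push_cast
    ring
  · ring

private theorem na_bb {M : ℕ} {ℓ : ℕ → ℝ} {G : ℕ → ℝ → ℝ} (hG : Fam M ℓ G) (i : ℕ) {T : ℝ} (hT : 1 < T) {p : ℕ}
    (hp : p.Prime) : Np p (bb (G i) T) = MonoidAlgebra.single p (xc (G i) T p) := by
  have := Fact.mk hp
  apply na_ext
  intro n
  rw [na_coeff, bb_coeff, MonoidAlgebra.coeff_single, Finsupp.single_apply]
  by_cases hpn : p = n
  · subst hpn
    rw [if_pos rfl, padicValNat_self]
    by_cases hpT : p ≤ ⌊T⌋₊
    · rw [if_pos ⟨hpT, hp⟩]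
      unfold xc
      push_cast
      ring
    · rw [if_neg (fun h => hpT h.1)]
      have h1 : G i (Real.log p / Real.log T) = 0 := by
        have hlog : 0 < Real.log T := Real.log_pos hT
        have hTp : T ≤ p := by
          have := Nat.lt_of_floor_lt (not_le.1 hpT)
          exact this.le
        have h3 : 1 ≤ Real.log p / Real.log T := by
          rw [le_div_iff₀ hlog, one_mul]
          exact Real.log_le_log (by linarith) hTp
        exact hG.high i _ ((hG.lone i).trans h3)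
      unfold xc
      rw [h1]
      ring
  · rw [if_neg hpn]
    by_cases hn : n ≤ ⌊T⌋₊ ∧ n.Prime
    · have : padicValNat p n = 0 := by
        apply padicValNat.eq_zero_of_not_dvd
        intro h
        exact hpn ((Nat.prime_dvd_prime_iff_eq hp hn.2).1 h)
      rw [this]
      simp
    · rw [if_neg hn, mul_zero]

private theorem na_chain {M : ℕ} {ℓ : ℕ → ℝ} {G : ℕ → ℝ → ℝ} (hG : Fam M ℓ G) {T : ℝ} (hT : 1 < T) (Q : QQ) {p : ℕ}
    (hp : p.Prime) :
    Np p (evQ G T Q)
      = ∑ i ∈ Finset.range M, MonoidAlgebra.single p (xc (G i) T p) * evQ G T (MvPolynomial.pderiv i Q) := by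
  induction Q using MvPolynomial.induction_on with
  | C a =>
    have h1 : evQ G T (MvPolynomial.C a) = (MonoidAlgebra.single (1 : ℕ) a : DPoly) := by
      unfold evQ
      rw [MvPolynomial.aeval_C]
      rfl
    rw [h1]
    have h2 : ∀ i ∈ Finset.range M, (MonoidAlgebra.single p (xc (G i) T p) * evQ G T (MvPolynomial.pderiv i (MvPolynomial.C a)) : DPoly) = 0 := by
      intro i _
      rw [MvPolynomial.pderiv_C, map_zero, mul_zero]
    rw [Finset.sum_eq_zero h2]
    apply na_ext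
    intro n
    rw [na_coeff, MonoidAlgebra.coeff_single, Finsupp.single_apply]
    split_ifs with h
    · rw [← h]
      simp
    · rw [mul_zero]
      rfl
  | add P Q hP hQ =>
    rw [map_add, na_add, hP, hQ, ← Finset.sum_add_distrib]
    apply Finset.sum_congr rfl
    intro i _
    rw [map_add, map_add, mul_add]
  | mul_X P j hP =>
    have h0 : evQ G T (MvPolynomial.X j) = H14.GP.bb (G j) T := by
      unfold evQ
      rw [MvPolynomial.aeval_X]
    have h1 := evQ_coeff_zero G T P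
    have h2 := bb_coeff_zero (G j) T
    rw [map_mul, h0, na_mul hp h1 h2, hP, na_bb hG j hT hp]
    have h3 : ∀ i ∈ Finset.range M, (MonoidAlgebra.single p (xc (G i) T p)
          * evQ G T (MvPolynomial.pderiv i (P * MvPolynomial.X j)) : DPoly)
        = MonoidAlgebra.single p (xc (G i) T p) * evQ G T (MvPolynomial.pderiv i P) * H14.GP.bb (G j) T
          + (if i = j then evQ G T P * MonoidAlgebra.single p (xc (G j) T p) else 0) := by
      intro i _
      rw [Derivation.leibniz, map_add, smul_eq_mul, smul_eq_mul, map_mul, map_mul, h0, MvPolynomial.pderiv_X]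
      by_cases hij : i = j
      · subst hij
        rw [if_pos rfl, Pi.single_eq_same, map_one]
        ring
      · rw [if_neg hij, Pi.single_eq_of_ne' hij, map_zero]
        ring
    rw [Finset.sum_congr rfl h3, Finset.sum_add_distrib, Finset.sum_mul, Finset.sum_ite_eq']
    congr 1
    by_cases hj : j ∈ Finset.range M
    · rw [if_pos hj]
    · rw [if_neg hj]
      have h4 : xc (G j) T p = 0 := by
        unfold xc
        rw [hG.out j (not_lt.1 (fun h => hj (Finset.mem_range.2 h))), zero_mul]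
      rw [h4, MonoidAlgebra.single_zero, mul_zero]

private theorem na_single_mul {p : ℕ} (hp : p.Prime) (c : ℝ) (Z : DPoly) (n : ℕ) :
    ((MonoidAlgebra.single p c : DPoly) * Z).coeff (p * n) = c * Z.coeff n := by
  have h1 : (MonoidAlgebra.single p c : DPoly).coeff.support ⊆ {p} := by
    rw [MonoidAlgebra.coeff_single]
    exact Finsupp.support_single_subset
  rw [na_mul_coeff h1 (Finset.Subset.refl _), Finset.sum_singleton, MonoidAlgebra.coeff_single,
    Finsupp.single_eq_same]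
  have h2 : ∀ k ∈ Z.coeff.support, (if p * k = p * n then c * Z.coeff k else 0)
      = if k = n then c * Z.coeff k else 0 := by
    intro k _
    by_cases h : k = n
    · rw [if_pos h, h, if_pos rfl]
    · rw [if_neg h, if_neg]
      intro h'
      exact h (Nat.eq_of_mul_eq_mul_left hp.pos h')
  rw [Finset.sum_congr rfl h2, Finset.sum_ite_eq']
  split_ifs with h
  · rfl
  · rw [Finsupp.notMem_support_iff.1 h, mul_zero]

theorem coeff_step {M : ℕ} {ℓ : ℕ → ℝ} {G : ℕ → ℝ → ℝ} (hG : Fam M ℓ G) {T : ℝ} (hT : 1 < T) (Q : QQ) {p : ℕ}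
    (hp : p.Prime) {n : ℕ} (hn : n ≠ 0) :
    ((padicValNat p n : ℝ) + 1) * (evQ G T Q).coeff (p * n)
      = ∑ i ∈ Finset.range M, xc (G i) T p * (evQ G T (MvPolynomial.pderiv i Q)).coeff n := by
  have := Fact.mk hp
  have h1 := congrArg (fun X : DPoly => X.coeff (p * n)) (na_chain hG hT Q hp)
  beta_reduce at h1
  rw [na_coeff, MonoidAlgebra.coeff_sum, Finsupp.finsetSum_apply, padicValNat.mul hp.ne_zero hn,
    padicValNat_self] at h1
  rw [Finset.sum_congr rfl (fun i _ => na_single_mul hp (xc (G i) T p) (evQ G T (MvPolynomial.pderiv i Q)) n)] at h1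
  rw [← h1]
  push_cast
  ring




private lemma Nb_mul_single (p : ℕ) (c : ℝ) (X Y : DPoly) :
    ip (MonoidAlgebra.single p c * X) Y = c * ∑ n ∈ X.coeff.support, X.coeff n * Y.coeff (p * n) := by
  have e : MonoidAlgebra.single p c * X = ∑ n ∈ X.coeff.support,
      (MonoidAlgebra.single (p * n) (c * X.coeff n) : DPoly) := by
    rw [MonoidAlgebra.mul_def, MonoidAlgebra.coeff_single, Finsupp.sum_single_index]
    · rfl
    · simp
  rw [e, ip_sum_left, Finset.mul_sum]
  refine Finset.sum_congr rfl fun n _ => ?_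
  rw [ip_single_left]
  ring

private lemma Nb_bbW (H : ℝ → ℝ) {W T : ℝ} (hW : 1 ≤ W) (hT : 1 < T) :
    bbW H W T = ∑ p ∈ (Finset.range (⌊T ^ W⌋₊ + 1)).filter Nat.Prime,
      (MonoidAlgebra.single p (xc H T p) : DPoly) := by
  unfold bbW H14.GP.bb
  refine Finset.sum_congr rfl fun p _ => ?_
  unfold xc
  have h0 := (Real.log_pos hT).ne'
  have hW0 : W ≠ 0 := by positivity
  have : W * (Real.log p / Real.log (T ^ W)) = Real.log p / Real.log T := by
    rw [Real.log_rpow (by linarith)]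
    field_simp
  dsimp only
  rw [this]

private lemma Nb_card {T a : ℝ} (hT : 1 < T) (ha : 0 < a) {n : ℕ} (hn : n ≠ 0) (hnT : (n : ℝ) ≤ T)
    (S : Finset ℕ) (hS : ∀ p ∈ S, p.Prime ∧ p ∣ n ∧ T ^ a < (p : ℝ)) : (S.card : ℝ) ≤ 1 / a := by
  have h1 : ∏ p ∈ S, p ∣ n :=
    Finset.prod_primes_dvd n (fun p hp => (hS p hp).1.prime) (fun p hp => (hS p hp).2.1)
  have h2 : ((∏ p ∈ S, p : ℕ) : ℝ) ≤ T := by
    refine le_trans ?_ hnT
    exact_mod_cast Nat.le_of_dvd (Nat.pos_of_ne_zero hn) h1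
  have h3 : (T ^ a) ^ S.card ≤ ∏ p ∈ S, (p : ℝ) := by
    rw [← Finset.prod_const]
    exact Finset.prod_le_prod (fun _ _ => by positivity) (fun p hp => (hS p hp).2.2.le)
  have h4 : T ^ (a * S.card) ≤ T ^ (1 : ℝ) := by
    rw [Real.rpow_mul (by linarith), Real.rpow_natCast, Real.rpow_one]
    push_cast at h2
    exact h3.trans h2
  have h5 := (Real.rpow_le_rpow_left_iff hT).1 h4
  rw [le_div_iff₀ ha]
  linarith

private lemma Nb_xz {M : ℕ} {ℓ : ℕ → ℝ} {G : ℕ → ℝ → ℝ} (hG : Fam M ℓ G) {T : ℝ} (hT : 1 < T) (i p : ℕ)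
    (hp : T < (p : ℝ)) : xc (G i) T p = 0 := by
  unfold xc
  have h3 : 1 < Real.log p / Real.log T := by
    rw [one_lt_div (Real.log_pos hT)]
    exact Real.log_lt_log (by linarith) hp
  rw [hG.high i _ ((hG.lone i).trans h3.le), zero_mul]

private lemma Nb_sq {p : ℕ} (hp : p.Prime) (G H : ℝ → ℝ) (T : ℝ) :
    G (Real.log p / Real.log T) * H (Real.log p / Real.log T) / p = xc H T p * xc G T p := by
  unfold xc
  have hp0 : (0 : ℝ) < p := by exact_mod_cast hp.pos
  have h : (p : ℝ) ^ (-(1 / 2) : ℝ) * (p : ℝ) ^ (-(1 / 2) : ℝ) = (p : ℝ)⁻¹ := by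
    rw [← Real.rpow_add hp0, ← Real.rpow_neg_one]
    norm_num
  rw [div_eq_mul_inv, ← h]
  ring

private lemma Nb_term {M : ℕ} {ℓ : ℕ → ℝ} {G : ℕ → ℝ → ℝ} (hG : Fam M ℓ G) {T : ℝ} (hT : 1 < T)
    (H : ℝ → ℝ) (Q : QQ) {X : DPoly} (hX0 : X.coeff 0 = 0) {p : ℕ} (hp : p.Prime) :
    xc H T p * ∑ n ∈ X.coeff.support, X.coeff n * (evQ G T Q).coeff (p * n) =
      ∑ i ∈ Finset.range M, ∑ n ∈ X.coeff.support,
        X.coeff n * (evQ G T (MvPolynomial.pderiv i Q)).coeff n *
          (xc H T p * xc (G i) T p * ((padicValNat p n : ℝ) + 1)⁻¹) := by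
  rw [Finset.sum_comm, Finset.mul_sum]
  refine Finset.sum_congr rfl fun n hn => ?_
  have hn0 : n ≠ 0 := by
    rintro rfl
    exact (Finsupp.mem_support_iff.1 hn) hX0
  have h1 := coeff_step hG hT Q hp hn0
  have h2 : ((padicValNat p n : ℝ) + 1) ≠ 0 := by positivity
  have h3 : (evQ G T Q).coeff (p * n) = ((padicValNat p n : ℝ) + 1)⁻¹ *
      ∑ i ∈ Finset.range M, xc (G i) T p * (evQ G T (MvPolynomial.pderiv i Q)).coeff n := by
    rw [← h1, ← mul_assoc, inv_mul_cancel₀ h2, one_mul]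
  rw [h3, Finset.mul_sum, Finset.mul_sum, Finset.mul_sum]
  refine Finset.sum_congr rfl fun i _ => ?_
  ring

private lemma Nb_err {T a : ℝ} (hT : 1 < T) (ha : 0 < a) {g : ℝ → ℝ} (hlow : ∀ x, x ≤ a → g x = 0)
    (H : ℝ → ℝ) {ε : ℝ} (hε0 : 0 ≤ ε) (hε : ∀ p : ℕ, p.Prime → |xc H T p * xc g T p| ≤ ε) {n : ℕ}
    (hn : n ≠ 0) (hnT : (n : ℝ) ≤ T) (P : Finset ℕ) (hP : ∀ p ∈ P, p.Prime) :
    |∑ p ∈ P, xc H T p * xc g T p * (((padicValNat p n : ℝ) + 1)⁻¹ - 1)| ≤ ε / a := by
  classical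
  obtain ⟨S, hS⟩ : ∃ S : Finset ℕ, S = P.filter (fun p => p ∣ n ∧ T ^ a < (p : ℝ)) := ⟨_, rfl⟩
  have h1 : ∑ p ∈ P, xc H T p * xc g T p * (((padicValNat p n : ℝ) + 1)⁻¹ - 1) =
      ∑ p ∈ S, xc H T p * xc g T p * (((padicValNat p n : ℝ) + 1)⁻¹ - 1) := by
    symm
    refine Finset.sum_subset (by rw [hS]; exact Finset.filter_subset _ _) ?_
    intro p hp hpS
    by_cases hd : p ∣ n
    · by_cases hb : T ^ a < (p : ℝ)
      · exfalso
        apply hpS
        rw [hS, Finset.mem_filter]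
        exact ⟨hp, hd, hb⟩
      · have hx : xc g T p = 0 := by
          unfold xc
          have hp0 : (0 : ℝ) < p := by exact_mod_cast (hP p hp).pos
          have h4 : Real.log p / Real.log T ≤ a := by
            rw [div_le_iff₀ (Real.log_pos hT), ← Real.log_rpow (by linarith)]
            exact Real.log_le_log hp0 (not_lt.1 hb)
          rw [hlow _ h4, zero_mul]
        rw [hx, mul_zero, zero_mul]
    · have hv : padicValNat p n = 0 := padicValNat.eq_zero_of_not_dvd hd
      rw [hv]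
      simp
  rw [h1]
  have hc : (S.card : ℝ) ≤ 1 / a := by
    refine Nb_card hT ha hn hnT S ?_
    intro p hp
    rw [hS, Finset.mem_filter] at hp
    exact ⟨hP p hp.1, hp.2.1, hp.2.2⟩
  have h2 : ∀ p ∈ S, |xc H T p * xc g T p * (((padicValNat p n : ℝ) + 1)⁻¹ - 1)| ≤ ε := by
    intro p hp
    rw [hS, Finset.mem_filter] at hp
    have h5 := hε p (hP p hp.1)
    rw [abs_mul]
    have h6 : |((padicValNat p n : ℝ) + 1)⁻¹ - 1| ≤ 1 := by
      have h7 : (0 : ℝ) < ((padicValNat p n : ℝ) + 1)⁻¹ := by positivity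
      have h8 : ((padicValNat p n : ℝ) + 1)⁻¹ ≤ 1 := by
        apply inv_le_one_of_one_le₀
        have : (0 : ℝ) ≤ (padicValNat p n : ℝ) := Nat.cast_nonneg _
        linarith
      rw [abs_le]
      constructor <;> linarith
    calc |xc H T p * xc g T p| * |((padicValNat p n : ℝ) + 1)⁻¹ - 1| ≤ ε * 1 :=
          mul_le_mul h5 h6 (abs_nonneg _) hε0
      _ = ε := mul_one ε
  calc |∑ p ∈ S, xc H T p * xc g T p * (((padicValNat p n : ℝ) + 1)⁻¹ - 1)|
      ≤ ∑ p ∈ S, |xc H T p * xc g T p * (((padicValNat p n : ℝ) + 1)⁻¹ - 1)| :=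
        Finset.abs_sum_le_sum_abs _ _
    _ ≤ S.card • ε := Finset.sum_le_card_nsmul _ _ _ h2
    _ = (S.card : ℝ) * ε := nsmul_eq_mul _ _
    _ ≤ (1 / a) * ε := mul_le_mul_of_nonneg_right hc hε0
    _ = ε / a := by ring

theorem ibp_step {M : ℕ} {ℓ : ℕ → ℝ} {G : ℕ → ℝ → ℝ} (hG : Fam M ℓ G) {a : ℝ} (ha : 0 < a) (hlow : ∀ j x, x ≤ a → G j x = 0)
    {T : ℝ} (hT : 1 < T) {W : ℝ} (hW : 1 ≤ W) (H : ℝ → ℝ) (Q : QQ) {X X' : DPoly} (hX0 : X.coeff 0 = 0)
    (hXX : ∀ n, |X.coeff n| ≤ X'.coeff n)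
    (hpos : ∀ i n, 0 ≤ (evQ G T (MvPolynomial.pderiv i Q)).coeff n)
    (hS : ∀ i n, (evQ G T (MvPolynomial.pderiv i Q)).coeff n ≠ 0 → (n : ℝ) ≤ T)
    {ε : ℝ} (hε : ∀ i, ∀ p : ℕ, p.Prime → |xc H T p * xc (G i) T p| ≤ ε) :
    |ip (bbW H W T * X) (evQ G T Q)
      - ∑ i ∈ Finset.range M, (∑ p ∈ (Finset.range (⌊T⌋₊ + 1)).filter Nat.Prime,
          G i (Real.log p / Real.log T) * H (Real.log p / Real.log T) / p) * ip X (evQ G T (MvPolynomial.pderiv i Q))|
      ≤ ε / a * ∑ i ∈ Finset.range M, ip X' (evQ G T (MvPolynomial.pderiv i Q)) := by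
  classical
  have hε0 : 0 ≤ ε := (abs_nonneg _).trans (hε 0 2 Nat.prime_two)
  obtain ⟨Y, hY⟩ : ∃ Y : ℕ → ℕ → ℝ, Y = fun i n => (evQ G T (MvPolynomial.pderiv i Q)).coeff n :=
    ⟨_, rfl⟩
  have hYe : ∀ i n, (evQ G T (MvPolynomial.pderiv i Q)).coeff n = Y i n := fun i n => by rw [hY]
  obtain ⟨P, hP⟩ : ∃ P, P = (Finset.range (⌊T⌋₊ + 1)).filter Nat.Prime := ⟨_, rfl⟩
  have hPp : ∀ p ∈ P, p.Prime := fun p hp => by
    rw [hP, Finset.mem_filter] at hp
    exact hp.2
  have hL : ip (bbW H W T * X) (evQ G T Q) = ∑ i ∈ Finset.range M, ∑ n ∈ X.coeff.support,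
      X.coeff n * Y i n * ∑ p ∈ P, xc H T p * xc (G i) T p * ((padicValNat p n : ℝ) + 1)⁻¹ := by
    rw [Nb_bbW H hW hT, Finset.sum_mul, ip_sum_left]
    have h1 : ∀ p ∈ (Finset.range (⌊T ^ W⌋₊ + 1)).filter Nat.Prime,
        ip (MonoidAlgebra.single p (xc H T p) * X) (evQ G T Q) =
        ∑ i ∈ Finset.range M, ∑ n ∈ X.coeff.support,
        X.coeff n * Y i n * (xc H T p * xc (G i) T p * ((padicValNat p n : ℝ) + 1)⁻¹) := by
      intro p hp
      rw [Nb_mul_single, Nb_term hG hT H Q hX0 (Finset.mem_filter.1 hp).2]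
      simp only [hYe]
    rw [Finset.sum_congr rfl h1]
    have hsub : P ⊆ (Finset.range (⌊T ^ W⌋₊ + 1)).filter Nat.Prime := by
      rw [hP]
      intro p hp
      rw [Finset.mem_filter, Finset.mem_range] at hp ⊢
      refine ⟨?_, hp.2⟩
      have h2 : ⌊T⌋₊ ≤ ⌊T ^ W⌋₊ := Nat.floor_le_floor (by
        calc T = T ^ (1 : ℝ) := (Real.rpow_one T).symm
          _ ≤ T ^ W := Real.rpow_le_rpow_of_exponent_le hT.le hW)
      omega
    rw [← Finset.sum_subset hsub]
    · rw [Finset.sum_comm]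
      refine Finset.sum_congr rfl fun i _ => ?_
      rw [Finset.sum_comm]
      refine Finset.sum_congr rfl fun n _ => ?_
      rw [Finset.mul_sum]
    · intro p hp hpP
      have hTp : T < (p : ℝ) := by
        by_contra hc
        apply hpP
        rw [hP, Finset.mem_filter, Finset.mem_range]
        refine ⟨?_, (Finset.mem_filter.1 hp).2⟩
        have := Nat.le_floor (not_lt.1 hc)
        omega
      refine Finset.sum_eq_zero fun i _ => Finset.sum_eq_zero fun n _ => ?_
      rw [Nb_xz hG hT i p hTp]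
      ring
  have hR : ∑ i ∈ Finset.range M, (∑ p ∈ P,
      G i (Real.log p / Real.log T) * H (Real.log p / Real.log T) / p) *
        ip X (evQ G T (MvPolynomial.pderiv i Q)) =
      ∑ i ∈ Finset.range M, ∑ n ∈ X.coeff.support,
        X.coeff n * Y i n * ∑ p ∈ P, xc H T p * xc (G i) T p := by
    refine Finset.sum_congr rfl fun i _ => ?_
    rw [Finset.sum_congr rfl fun p hp => Nb_sq (hPp p hp) (G i) H T]
    unfold ip
    rw [Finset.mul_sum]
    refine Finset.sum_congr rfl fun n _ => ?_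
    rw [hYe]
    ring
  rw [← hP, hL, hR, ← Finset.sum_sub_distrib, Finset.mul_sum]
  refine (Finset.abs_sum_le_sum_abs _ _).trans ?_
  refine Finset.sum_le_sum fun i _ => ?_
  rw [← Finset.sum_sub_distrib]
  refine (Finset.abs_sum_le_sum_abs _ _).trans ?_
  have hX'n : ∀ n, 0 ≤ X'.coeff n := fun n => (abs_nonneg _).trans (hXX n)
  have hYn : ∀ n, 0 ≤ Y i n := fun n => by rw [← hYe]; exact hpos i n
  have hsub : X.coeff.support ⊆ X'.coeff.support := by
    intro n hn
    rw [Finsupp.mem_support_iff] at hn ⊢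
    intro h
    have := hXX n
    rw [h] at this
    exact hn (abs_nonpos_iff.1 this)
  have hstep : ∀ n ∈ X.coeff.support,
      |X.coeff n * Y i n * ∑ p ∈ P, xc H T p * xc (G i) T p * ((padicValNat p n : ℝ) + 1)⁻¹ -
        X.coeff n * Y i n * ∑ p ∈ P, xc H T p * xc (G i) T p| ≤ ε / a * (X'.coeff n * Y i n) := by
    intro n hn
    have hn0 : n ≠ 0 := by
      rintro rfl
      exact (Finsupp.mem_support_iff.1 hn) hX0
    by_cases hy : Y i n = 0
    · rw [hy]
      simp
    have hnT : (n : ℝ) ≤ T := hS i n (by rw [hYe]; exact hy)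
    have he := Nb_err hT ha (hlow i) H hε0 (hε i) hn0 hnT P hPp
    have e1 : X.coeff n * Y i n * ∑ p ∈ P, xc H T p * xc (G i) T p * ((padicValNat p n : ℝ) + 1)⁻¹ -
        X.coeff n * Y i n * ∑ p ∈ P, xc H T p * xc (G i) T p =
        X.coeff n * Y i n *
          ∑ p ∈ P, xc H T p * xc (G i) T p * (((padicValNat p n : ℝ) + 1)⁻¹ - 1) := by
      rw [← mul_sub, ← Finset.sum_sub_distrib]
      congr 1
      refine Finset.sum_congr rfl fun p _ => ?_
      ring
    rw [e1, abs_mul, abs_mul, abs_of_nonneg (hYn n)]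
    calc |X.coeff n| * Y i n * |∑ p ∈ P, xc H T p * xc (G i) T p * (((padicValNat p n : ℝ) + 1)⁻¹ - 1)|
        ≤ X'.coeff n * Y i n * (ε / a) :=
          mul_le_mul (mul_le_mul_of_nonneg_right (hXX n) (hYn n)) he (abs_nonneg _)
            (mul_nonneg (hX'n n) (hYn n))
      _ = ε / a * (X'.coeff n * Y i n) := by ring
  refine (Finset.sum_le_sum hstep).trans ?_
  rw [← Finset.mul_sum]
  refine mul_le_mul_of_nonneg_left ?_ (by positivity)
  unfold ip
  simp only [hYe]
  exact Finset.sum_le_sum_of_subset_of_nonneg hsub fun n _ _ => mul_nonneg (hX'n n) (hYn n)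


end Pool.Agent.H24.AH
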