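import Mathlib
import Pool.Agent.H24.HF.Defs
import Pool.Agent.H24.HF.Nc
import Pool.Agent.H24.AH.Wa
import Pool.Agent.H14.GP.Vb
import Pool.Agent.H14.GP.Vc
import Pool.Agent.H14.GP.Vd
import Pool.Agent.H14.GP.Vh

/-!
# MP_103a5c_AH, block W (general Wick theorem), part b: limits for families of nonnegative test functions

The proofs are those of `H24/HF/Nc`, `H24/HF/Nd`.
-/

open MeasureTheory Set Filter Topology
open scoped Real ContDiff ComplexConjugate

namespace Pool.Agent.H24.AH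

open Pool.Agent Pool.Agent.H6 Pool.Agent.H14.GP Pool.Agent.H24.HF

lemma Wb_nn_ev {M : ℕ} {ℓ : ℕ → ℝ} {G : ℕ → ℝ → ℝ} (hG : Fam M ℓ G) (T : ℝ) (m : ℕ →₀ ℕ) (n : ℕ) :
    0 ≤ (evQ G T (MvPolynomial.monomial m 1)).coeff n := by
  rw [Nc_ev]
  exact Nc_nn_prod _ _ (fun i _ => Nc_nn_pow (Nc_nn_bb (hG.nonneg i) T) _) n

lemma Wb_supp {M : ℕ} {ℓ : ℕ → ℝ} {G : ℕ → ℝ → ℝ} (hG : Fam M ℓ G) {T : ℝ} (hT : 1 < T)
    (m : ℕ →₀ ℕ) : SuppLe (T ^ (m.sum fun j e => ℓ j * (e : ℝ)))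
      (evQ G T (MvPolynomial.monomial m 1)) := by
  rw [Nc_ev]
  have h1 : ∀ i ∈ m.support, SuppLe ((T ^ (ℓ i)) ^ m i)
      (Pool.Agent.H14.GP.bb (G i) T ^ m i) := by
    intro i _
    exact (bb_supp (fun x hx => hG.high i x hx.le) hT).pow (m i)
  have h2 := SuppLe.prod m.support h1
  have h3 : ∏ i ∈ m.support, (T ^ (ℓ i)) ^ m i =
      T ^ (m.sum fun j e => ℓ j * (e : ℝ)) := by
    rw [Finsupp.sum, Real.rpow_sum_of_pos (by linarith)]
    refine Finset.prod_congr rfl fun i _ => ?_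
    rw [← Real.rpow_natCast, ← Real.rpow_mul (by linarith)]
  rwa [h3] at h2

lemma Wb_wt {ℓ : ℕ → ℝ} (hℓ : ∀ j, 0 ≤ ℓ j) {m' m : ℕ →₀ ℕ} (h : m' ≤ m) :
    (m'.sum fun j e => ℓ j * (e : ℝ)) ≤ m.sum fun j e => ℓ j * (e : ℝ) := by
  rw [Finsupp.sum_of_support_subset m' (Finsupp.support_mono h) _ (by simp), Finsupp.sum]
  exact Finset.sum_le_sum fun i _ => mul_le_mul_of_nonneg_left (by exact_mod_cast h i) (hℓ i)

lemma Wb_lin {ℓ : ℕ → ℝ} {D : ℝ} {φ : QQ →ₗ[ℝ] ℝ} {G : ℕ → ℝ → ℝ} {X : ℝ → DPoly}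
    (h : ∀ m : ℕ →₀ ℕ, (m.sum fun j e => ℓ j * (e : ℝ)) ≤ D →
      Tendsto (fun T => ip (X T) (evQ G T (MvPolynomial.monomial m 1))) atTop
        (𝓝 (φ (MvPolynomial.monomial m 1))))
    {Q : QQ} (hQ : WDegR ℓ D Q) : Tendsto (fun T => ip (X T) (evQ G T Q)) atTop (𝓝 (φ Q)) := by
  have e : Q = ∑ m ∈ Q.support, Q.coeff m • MvPolynomial.monomial m (1 : ℝ) := by
    conv_lhs => rw [Q.as_sum]
    refine Finset.sum_congr rfl fun m _ => ?_
    rw [MvPolynomial.smul_monomial, smul_eq_mul, mul_one]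
  have h1 : ∀ T, ip (X T) (evQ G T Q) =
      ∑ m ∈ Q.support, Q.coeff m * ip (X T) (evQ G T (MvPolynomial.monomial m 1)) := by
    intro T
    conv_lhs => rw [e, map_sum]
    rw [ip_comm, ip_sum_left]
    refine Finset.sum_congr rfl fun m _ => ?_
    rw [map_smul, ip_smul_left, ip_comm]
  have h2 : φ Q = ∑ m ∈ Q.support, Q.coeff m * φ (MvPolynomial.monomial m 1) := by
    conv_lhs => rw [e, map_sum]
    refine Finset.sum_congr rfl fun m _ => ?_
    rw [map_smul, smul_eq_mul]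
  rw [h2]
  simp only [h1]
  exact tendsto_finset_sum _ fun m hm => (h m (hQ m hm)).const_mul _

lemma Wb_bd1 {G : ℝ → ℝ} (hc : Continuous G) {a b : ℝ} (hlow : ∀ x, x ≤ a → G x = 0) (hhigh : ∀ x, b ≤ x → G x = 0) :
    ∃ C : ℝ, 0 ≤ C ∧ ∀ x, |G x| ≤ C := by
  have hcs : HasCompactSupport G := by
    refine HasCompactSupport.intro (isCompact_Icc (a := a) (b := b)) fun x hx => ?_
    rw [Set.mem_Icc, not_and_or, not_le, not_le] at hx
    rcases hx with hx | hx
    · exact hlow x hx.le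
    · exact hhigh x hx.le
  obtain ⟨C, hC⟩ := hc.bounded_above_of_compact_support hcs
  exact ⟨C, (norm_nonneg _).trans (hC 0), fun x => by
    rw [← Real.norm_eq_abs]
    exact hC x⟩

lemma Wb_bdG {M : ℕ} {ℓ : ℕ → ℝ} {G : ℕ → ℝ → ℝ} (hG : Fam M ℓ G) :
    ∃ B' : ℝ, 0 ≤ B' ∧ ∀ i x, |G i x| ≤ B' := by
  obtain ⟨a, ha, hlow⟩ := hG.low
  have h1 : ∀ i, ∃ C : ℝ, 0 ≤ C ∧ ∀ x, |G i x| ≤ C := fun i => Wb_bd1 (hG.cont i) (hlow i) (hG.high i)
  choose C hC0 hC using h1
  have h2 : 0 ≤ ∑ i ∈ Finset.range M, C i := Finset.sum_nonneg fun i _ => hC0 i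
  refine ⟨∑ i ∈ Finset.range M, C i, h2, fun i x => ?_⟩
  by_cases hi : i < M
  · exact (hC i x).trans (Finset.single_le_sum (fun j _ => hC0 j) (Finset.mem_range.2 hi))
  · rw [hG.out i (not_lt.1 hi) x, abs_zero]
    exact h2

lemma Wb_main {M : ℕ} {ℓ : ℕ → ℝ} {G : ℕ → ℝ → ℝ} (hG : Fam M ℓ G) {W : ℝ} (hW : 1 ≤ W) {B : ℝ}
    {D : ℝ} (hD : D < 1) (N : ℕ) : ∀ Hs : List (ℝ → ℝ), Hs.length = N →
    (∀ H ∈ Hs, Continuous H) → (∀ H ∈ Hs, ∀ x, |H x| ≤ B) →
    ∀ m : ℕ →₀ ℕ, (m.sum fun j e => ℓ j * (e : ℝ)) ≤ D →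
      Tendsto (fun T => ip ((Hs.map fun H => bbW H W T).prod)
        (evQ G T (MvPolynomial.monomial m 1))) atTop
        (𝓝 (Nc_phi M (Hs.map (kp G)) (MvPolynomial.monomial m 1))) := by
  induction N with
  | zero =>
    intro Hs hlen _ _ m _
    rw [List.length_eq_zero_iff] at hlen
    subst hlen
    simp only [List.map_nil, List.prod_nil, Nc_nil G M]
    exact tendsto_const_nhds
  | succ N ih =>
    intro Hs hlen hc hb m hm
    rcases Hs with _ | ⟨H, l⟩
    · simp at hlen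
    rw [List.length_cons, Nat.succ_inj] at hlen
    have hcH : Continuous H := hc H List.mem_cons_self
    have hbH : ∀ x, |H x| ≤ B := hb H List.mem_cons_self
    have hcl : ∀ H' ∈ l, Continuous H' := fun H' h => hc H' (List.mem_cons_of_mem _ h)
    have hbl : ∀ H' ∈ l, ∀ x, |H' x| ≤ B := fun H' h => hb H' (List.mem_cons_of_mem _ h)
    have ih1 := ih l hlen hcl hbl
    have ih2 := ih (l.map fun H' x => |H' x|) (by rw [List.length_map, hlen])
      (by
        intro H' h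
        obtain ⟨H₁, h1, rfl⟩ := List.mem_map.1 h
        exact (hcl H₁ h1).abs)
      (by
        intro H' h
        obtain ⟨H₁, h1, rfl⟩ := List.mem_map.1 h
        intro x
        rw [abs_abs]
        exact hbl H₁ h1 x)
    obtain ⟨a, ha, hlow⟩ := hG.low
    obtain ⟨B', hB'0, hB'⟩ := Wb_bdG hG
    have hpd : ∀ i, MvPolynomial.pderiv i (MvPolynomial.monomial m (1 : ℝ)) =
        MvPolynomial.monomial (m - Finsupp.single i 1) (m i : ℝ) := by
      intro i
      rw [MvPolynomial.pderiv_monomial, one_mul]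
    have hwt : ∀ i, ((m - Finsupp.single i 1).sum fun j e => ℓ j * (e : ℝ)) ≤ D := fun i =>
      (Wb_wt hG.lpos tsub_le_self).trans hm
    have hWD : ∀ i, WDegR ℓ D (MvPolynomial.pderiv i (MvPolynomial.monomial m (1 : ℝ))) := by
      intro i m' hm'
      rw [hpd] at hm'
      have h1 := MvPolynomial.support_monomial_subset hm'
      rw [Finset.mem_singleton] at h1
      rw [h1]
      exact hwt i
    have hX : ∀ i, Tendsto (fun T => ip ((l.map fun H => bbW H W T).prod)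
        (evQ G T (MvPolynomial.pderiv i (MvPolynomial.monomial m 1)))) atTop
        (𝓝 (Nc_phi M (l.map (kp G)) (MvPolynomial.pderiv i (MvPolynomial.monomial m 1)))) :=
      fun i => Wb_lin ih1 (hWD i)
    have hX' : ∀ i, Tendsto (fun T => ip (((l.map fun H' x => |H' x|).map
        fun H => bbW H W T).prod)
        (evQ G T (MvPolynomial.pderiv i (MvPolynomial.monomial m 1)))) atTop
        (𝓝 (Nc_phi M ((l.map fun H' x => |H' x|).map (kp G))
          (MvPolynomial.pderiv i (MvPolynomial.monomial m 1)))) :=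
      fun i => Wb_lin ih2 (hWD i)
    have hk : ∀ i, Tendsto (fun T : ℝ => ∑ p ∈ (Finset.range (⌊T⌋₊ + 1)).filter Nat.Prime,
        G i (Real.log p / Real.log T) * H (Real.log p / Real.log T) / p) atTop
        (𝓝 (kp G H i)) := by
      intro i
      refine mertens_primes (g := fun x => G i x * H x) ((hG.cont i).mul hcH) ha
        le_rfl (fun x hx => ?_) (fun x hx => ?_)
      · rw [hlow i x hx, zero_mul]
      · rw [hG.high i x ((hG.lone i).trans hx), zero_mul]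
    have hg := tendsto_finset_sum (Finset.range M) fun i (_ : i ∈ Finset.range M) =>
      (hk i).mul (hX i)
    have hr : Tendsto (fun T : ℝ => B * B' * T ^ (-a) / a * ∑ i ∈ Finset.range M,
        ip (((l.map fun H' x => |H' x|).map fun H => bbW H W T).prod)
          (evQ G T (MvPolynomial.pderiv i (MvPolynomial.monomial m 1)))) atTop (𝓝 0) := by
      have h1 : Tendsto (fun T : ℝ => B * B' * T ^ (-a) / a) atTop (𝓝 0) := by
        have h2 := ((tendsto_rpow_neg_atTop ha).const_mul (B * B')).div_const a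
        rwa [mul_zero, zero_div] at h2
      have h3 := h1.mul (tendsto_finset_sum (Finset.range M)
        fun i (_ : i ∈ Finset.range M) => hX' i)
      rwa [zero_mul] at h3
    have hdiff : Tendsto (fun T : ℝ => ip (((H :: l).map fun H => bbW H W T).prod)
        (evQ G T (MvPolynomial.monomial m 1)) - ∑ i ∈ Finset.range M,
          (∑ p ∈ (Finset.range (⌊T⌋₊ + 1)).filter Nat.Prime,
            G i (Real.log p / Real.log T) * H (Real.log p / Real.log T) / p) *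
          ip ((l.map fun H => bbW H W T).prod)
            (evQ G T (MvPolynomial.pderiv i (MvPolynomial.monomial m 1)))) atTop (𝓝 0) := by
      refine squeeze_zero_norm' ?_ hr
      filter_upwards [eventually_gt_atTop 1] with T hT
      rw [List.map_cons, List.prod_cons, Real.norm_eq_abs]
      refine ibp_step hG ha hlow hT hW H _ (Nc_zero_list W T l) (Nc_abs_list W T l) ?_ ?_
        (fun i p hp => Nc_eps hlow hbH hB' hT i p hp)
      · intro i n
        rw [hpd, Nc_ev_c, MonoidAlgebra.coeff_smul, Finsupp.smul_apply, smul_eq_mul]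
        exact mul_nonneg (Nat.cast_nonneg _) (Wb_nn_ev hG T _ n)
      · intro i n hn
        rw [hpd, Nc_ev_c, MonoidAlgebra.coeff_smul, Finsupp.smul_apply, smul_eq_mul] at hn
        have h1 := (Wb_supp hG hT _ n (right_ne_zero_of_mul hn)).2
        refine h1.trans ?_
        calc T ^ ((m - Finsupp.single i 1).sum fun j e => ℓ j * (e : ℝ))
            ≤ T ^ (1 : ℝ) := Real.rpow_le_rpow_of_exponent_le hT.le ((hwt i).trans hD.le)
          _ = T := Real.rpow_one T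
    have hfin := hdiff.add hg
    rw [List.map_cons, Nc_phi_cons]
    simp only [sub_add_cancel, zero_add] at hfin
    exact hfin

theorem lim_ipF {M : ℕ} {ℓ : ℕ → ℝ} {G : ℕ → ℝ → ℝ} (hG : Fam M ℓ G) {W : ℝ} (hW : 1 ≤ W) {Hs : List (ℝ → ℝ)}
    (hH : ∀ H ∈ Hs, Continuous H) {B : ℝ} (hB : ∀ H ∈ Hs, ∀ x, |H x| ≤ B) {D : ℝ} (hD : D < 1) {Q : QQ}
    (hQ : WDegR ℓ D Q) :
    Tendsto (fun T => ip ((Hs.map fun H => bbW H W T).prod) (evQ G T Q)) atTop
      (𝓝 (MvPolynomial.constantCoeff (DL M (Hs.map (kp G)) Q))) := by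
  have h := Wb_lin (φ := Nc_phi M (Hs.map (kp G)))
    (Wb_main hG hW hD Hs.length Hs rfl hH hB) hQ
  exact h

/-- a finitely generated list product of long prime sums has bounded support and `ℓ¹` norm -/
theorem Wb_list {B : ℝ} (Hs : List (ℝ → ℝ)) (hB : ∀ H ∈ Hs, ∀ x, |H x| ≤ B) {T W : ℝ} (hT : 1 ≤ T) (hW : 0 ≤ W) :
    (∃ N, SuppLe N ((Hs.map fun H => bbW H W T).prod)) ∧
      l1 ((Hs.map fun H => bbW H W T).prod) ≤ (2 * (|B| + 1)) ^ Hs.length * T ^ (W * Hs.length) := by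
  have hT0 : 0 < T := by linarith
  induction Hs with
  | nil =>
    refine ⟨⟨1, ?_⟩, ?_⟩
    · rw [List.map_nil, List.prod_nil]
      exact suppLe_one
    · rw [List.map_nil, List.prod_nil, l1_one]
      simp
  | cons H l ih =>
    obtain ⟨⟨N, hN⟩, hl⟩ := ih (fun H' h' => hB H' (List.mem_cons_of_mem _ h'))
    have hTW : 1 ≤ T ^ W := Real.one_le_rpow hT hW
    have hTW0 : 0 ≤ T ^ W := by linarith
    rw [List.map_cons, List.prod_cons]
    refine ⟨⟨T ^ W * N, SuppLe.mul ?_ hN⟩, ?_⟩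
    · intro n hn
      unfold bbW at hn
      rw [bb_coeff] at hn
      by_cases h : n ≤ ⌊T ^ W⌋₊ ∧ n.Prime
      · exact ⟨h.2.one_lt.le, (Nat.le_floor_iff hTW0).1 h.1⟩
      · rw [if_neg h] at hn
        exact absurd rfl hn
    · have h1 : l1 (bbW H W T) ≤ 2 * (|B| + 1) * T ^ W := by
        unfold bbW
        have h2 : ∀ x, |(fun x => H (W * x)) x| ≤ |B| + 1 := fun x => by
          have h3 := hB H List.mem_cons_self (W * x)
          have h4 := le_abs_self B
          show |H (W * x)| ≤ |B| + 1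
          linarith
        have h3 := bb_l1 h2 hTW0
        have h4 := abs_nonneg B
        nlinarith
      refine (l1_mul_le _ _).trans ((mul_le_mul h1 hl (l1_nonneg _) (by positivity)).trans (le_of_eq ?_))
      have h2 : W * ((l.length + 1 : ℕ) : ℝ) = W + W * l.length := by
        push_cast
        ring
      rw [List.length_cons, pow_succ, h2, Real.rpow_add hT0]
      ring

private theorem Wb_evQ (G : ℕ → ℝ → ℝ) (T : ℝ) (Q : QQ) :
    evQ G T Q = ∑ m ∈ Q.support, Q.coeff m • ∏ j ∈ m.support, H14.GP.bb (G j) T ^ m j := by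
  unfold evQ
  rw [MvPolynomial.aeval_def, MvPolynomial.eval₂_eq]
  refine Finset.sum_congr rfl fun m _ => ?_
  rw [Algebra.smul_def]

theorem Wb_suppQ {M : ℕ} {ℓ : ℕ → ℝ} {G : ℕ → ℝ → ℝ} (hG : Fam M ℓ G) {D : ℝ} {Q : QQ}
    (hQ : WDegR ℓ D Q) {T : ℝ} (hT : 1 < T) : SuppLe (T ^ D) (evQ G T Q) := by
  have hT0 : 0 < T := by linarith
  have h1 : ∀ m ∈ Q.support, SuppLe (T ^ D) (∏ j ∈ m.support, H14.GP.bb (G j) T ^ m j) := by
    intro m hm
    have h2 := Wb_supp hG hT m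
    rw [Nc_ev] at h2
    exact h2.mono (Real.rpow_le_rpow_of_exponent_le hT.le (hQ m hm))
  intro n hn
  rw [Wb_evQ, MonoidAlgebra.coeff_sum, Finset.sum_apply'] at hn
  obtain ⟨m, hm, hm'⟩ := Finset.exists_ne_zero_of_sum_ne_zero hn
  refine h1 m hm n ?_
  rw [MonoidAlgebra.coeff_smul, Finsupp.smul_apply] at hm'
  exact right_ne_zero_of_mul hm'

private theorem Wb_l1_smul (c : ℝ) (X : DPoly) : l1 (c • X) ≤ |c| * l1 X := by
  have h1 : c • X = MonoidAlgebra.single 1 c * X := by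
    rw [Algebra.smul_def]
    rfl
  rw [h1, ← l1_single 1 c]
  exact l1_mul_le _ _

theorem Wb_l1 {M : ℕ} {ℓ : ℕ → ℝ} {G : ℕ → ℝ → ℝ} (hG : Fam M ℓ G) (Q : QQ) :
    ∃ (C : ℝ) (E : ℕ), 0 ≤ C ∧ ∀ T : ℝ, 1 ≤ T → l1 (evQ G T Q) ≤ C * T ^ E := by
  obtain ⟨B, hB0, hB⟩ := Wb_bdG hG
  refine ⟨∑ m ∈ Q.support, |Q.coeff m| * ∏ j ∈ m.support, (2 * B) ^ m j,
    ∑ m ∈ Q.support, ∑ j ∈ m.support, m j,
    Finset.sum_nonneg fun m _ => mul_nonneg (abs_nonneg _) (Finset.prod_nonneg fun j _ =>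
      pow_nonneg (mul_nonneg zero_le_two hB0) _), fun T hT => ?_⟩
  have hT0 : 0 < T := by linarith
  rw [Wb_evQ]
  refine (l1_sum_le _ _).trans ?_
  rw [Finset.sum_mul]
  refine Finset.sum_le_sum fun m hm => ?_
  refine (Wb_l1_smul _ _).trans ?_
  rw [mul_assoc]
  refine mul_le_mul_of_nonneg_left ?_ (abs_nonneg _)
  refine (l1_prod_le _ _).trans ?_
  have h1 : ∀ j ∈ m.support, l1 (H14.GP.bb (G j) T ^ m j) ≤ (2 * B) ^ m j * T ^ m j := by
    intro j _
    refine (l1_pow_le _ _).trans ?_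
    rw [← mul_pow]
    refine pow_le_pow_left₀ (l1_nonneg _) ?_ _
    refine (bb_l1 (hB j) hT0.le).trans ?_
    have := mul_le_mul_of_nonneg_left hT hB0
    linarith
  refine (Finset.prod_le_prod (fun j _ => l1_nonneg _) h1).trans ?_
  have h2 : ∏ j ∈ m.support, T ^ m j = T ^ ∑ j ∈ m.support, m j := Finset.prod_pow_eq_pow_sum _ _ _
  rw [Finset.prod_mul_distrib, h2]
  refine mul_le_mul_of_nonneg_left ?_ (Finset.prod_nonneg fun j _ =>
    pow_nonneg (mul_nonneg zero_le_two hB0) _)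
  exact pow_le_pow_right₀ hT (Finset.single_le_sum (f := fun m : ℕ →₀ ℕ => ∑ j ∈ m.support, m j)
    (fun _ _ => Nat.zero_le _) hm)

theorem transferF {v : ℝ → ℝ} (hv : Wgt v) {M : ℕ} {ℓ : ℕ → ℝ} {G : ℕ → ℝ → ℝ} (hG : Fam M ℓ G) {W : ℝ} (hW : 1 ≤ W)
    {Hs : List (ℝ → ℝ)} (hH : ∀ H ∈ Hs, Continuous H) {B : ℝ} (hB : ∀ H ∈ Hs, ∀ x, |H x| ≤ B) {D : ℝ}
    (hD : D < 1) {Q : QQ} (hQ : WDegR ℓ D Q) :
    Tendsto (fun T => EC v T (fun t => (Hs.map fun H => ev t (bbW H W T)).prod * conj (ev t (evQ G T Q)))) atTop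
      (𝓝 ((((∫ x, v x) * MvPolynomial.constantCoeff (DL M (Hs.map (kp G)) Q) : ℝ)) : ℂ)) := by
  have hlim := lim_ipF hG hW hH hB hD hQ
  obtain ⟨C₁, E, hC₁, h1⟩ := Wb_l1 hG Q
  obtain ⟨K, hK⟩ := exists_nat_ge (W * Hs.length + E + 1)
  have hδ : 0 < 1 - D := by linarith
  obtain ⟨C, hC, hmv⟩ := mv hv hδ K
  have hsub : (1 : ℝ) - (1 - D) = D := by ring
  rw [hsub] at hmv
  -- the difference tends to zero
  have hdiff : Tendsto (fun T => EC v T (fun t => (Hs.map fun H => ev t (bbW H W T)).prod *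
      conj (ev t (evQ G T Q))) - (((∫ x, v x) * ip ((Hs.map fun H => bbW H W T).prod) (evQ G T Q) : ℝ) : ℂ))
      atTop (𝓝 0) := by
    refine squeeze_zero_norm' (a := fun T : ℝ => C * (2 * (|B| + 1)) ^ Hs.length * C₁ * T⁻¹) ?_ ?_
    · filter_upwards [eventually_gt_atTop 1] with T hT
      have hT0 : 0 < T := by linarith
      obtain ⟨⟨N, hN⟩, hl⟩ := Wb_list Hs hB hT.le (zero_le_one.trans hW)
      have h2 := hmv T hT.le ((Hs.map fun H => bbW H W T).prod) (evQ G T Q) hN.coeff_zero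
        (Wb_suppQ hG hQ hT)
      have h3 : (fun t => (Hs.map fun H => ev t (bbW H W T)).prod * conj (ev t (evQ G T Q))) =
          fun t => ev t ((Hs.map fun H => bbW H W T).prod) * conj (ev t (evQ G T Q)) := by
        funext t
        rw [map_list_prod, List.map_map]
        rfl
      rw [h3]
      refine h2.trans ?_
      have h4 : C * T ^ (-(K : ℝ)) * l1 ((Hs.map fun H => bbW H W T).prod) * l1 (evQ G T Q) ≤
          C * T ^ (-(K : ℝ)) * ((2 * (|B| + 1)) ^ Hs.length * T ^ (W * Hs.length)) * (C₁ * T ^ E) := by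
        refine mul_le_mul (mul_le_mul_of_nonneg_left hl (by positivity)) (h1 T hT.le) (l1_nonneg _) ?_
        positivity
      refine h4.trans ?_
      have h5 : T ^ (-(K : ℝ)) * T ^ (W * Hs.length) * T ^ E ≤ T⁻¹ := by
        rw [← Real.rpow_natCast T E, ← Real.rpow_add hT0, ← Real.rpow_add hT0, ← Real.rpow_neg_one]
        exact Real.rpow_le_rpow_of_exponent_le hT.le (by linarith)
      have h6 : C * T ^ (-(K : ℝ)) * ((2 * (|B| + 1)) ^ Hs.length * T ^ (W * Hs.length)) * (C₁ * T ^ E) =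
          C * (2 * (|B| + 1)) ^ Hs.length * C₁ * (T ^ (-(K : ℝ)) * T ^ (W * Hs.length) * T ^ E) := by ring
      rw [h6]
      exact mul_le_mul_of_nonneg_left h5 (by positivity)
    · have h2 := tendsto_inv_atTop_zero (𝕜 := ℝ)
      have h3 := h2.const_mul (C * (2 * (|B| + 1)) ^ Hs.length * C₁)
      rwa [mul_zero] at h3
  have hmain : Tendsto (fun T => (((∫ x, v x) * ip ((Hs.map fun H => bbW H W T).prod) (evQ G T Q) : ℝ) : ℂ))
      atTop (𝓝 ((((∫ x, v x) * MvPolynomial.constantCoeff (DL M (Hs.map (kp G)) Q) : ℝ)) : ℂ)) :=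
    (Complex.continuous_ofReal.tendsto _).comp (hlim.const_mul _)
  have hsum := hdiff.add hmain
  rw [zero_add] at hsum
  refine hsum.congr fun T => ?_
  ring

end Pool.Agent.H24.AH
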