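import Mathlib
import Pool.Agent.H24.HF.Defs
import Pool.Agent.H24.AH.Wb

/-!
# MP_103a5c_AH, block W (general Wick theorem), part c: the complex Wick theorem

`BB H W T t = ∑_{p ≤ T^W} H(log p/log T) p^{-1/2-it}` for a complex test function `H`. For continuous bounded `H ∈ Hs`
(any length `W`) and `G_i`, `i ∈ S`, continuous, zero near `0` and for `x ≥ ℓ_i`, `∑_{i ∈ S} ℓ_i < 1`:
`E_T[∏_{H ∈ Hs} BB H · conj ∏_{i ∈ S} BB G_i] → (∫v) permC G Hs S`, the sum over all bijections of the products of
`ipc H G_i = ∫_0^∞ H conj(G_i) dx/x`.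
-/

open MeasureTheory Set Filter Topology
open scoped Real ContDiff ComplexConjugate

namespace Pool.Agent.H24.AH

open Pool.Agent Pool.Agent.H6 Pool.Agent.H14.GP Pool.Agent.H24.HF

/-- prime sum with a complex test function -/
noncomputable def BB (H : ℝ → ℂ) (W T t : ℝ) : ℂ :=
  ev t (bbW (fun x => (H x).re) W T) + Complex.I * ev t (bbW (fun x => (H x).im) W T)

/-- `∫_0^∞ H conj(G) dx/x` -/
noncomputable def ipc (H G : ℝ → ℂ) : ℂ := ∫ x in Ioi (0 : ℝ), H x * conj (G x) / (x : ℂ)

/-- sum over the bijections between the list and the finite set -/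
noncomputable def permC (G : ℕ → ℝ → ℂ) : List (ℝ → ℂ) → Finset ℕ → ℂ
  | [], S => if S = ∅ then 1 else 0
  | H :: l, S => ∑ i ∈ S, ipc H (G i) * permC G l (S.erase i)

/-- short test function: continuous, zero on `(-∞, a]` and on `[ℓ, ∞)` -/
structure Sh (ℓ : ℝ) (G : ℝ → ℂ) : Prop where
  cont : Continuous G
  low : ∃ a, 0 < a ∧ ∀ x, x ≤ a → G x = 0
  high : ∀ x, ℓ ≤ x → G x = 0

/-! ### linearity of `BB` -/

lemma bbW_eq (H : ℝ → ℝ) (W T : ℝ) : bbW H W T = ∑ p ∈ (Finset.range (⌊T ^ W⌋₊ + 1)).filter Nat.Prime,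
    MonoidAlgebra.single p (H (W * (Real.log p / Real.log (T ^ W))) * (p : ℝ) ^ (-(1 / 2) : ℝ)) := rfl

lemma bbW_lin (a b : ℝ) (H K : ℝ → ℝ) (W T : ℝ) :
    bbW (fun x => a * H x + b * K x) W T = a • bbW H W T + b • bbW K W T := by
  rw [bbW_eq, bbW_eq, bbW_eq, Finset.smul_sum, Finset.smul_sum, ← Finset.sum_add_distrib]
  refine Finset.sum_congr rfl fun p _ => ?_
  rw [MonoidAlgebra.smul_single, MonoidAlgebra.smul_single, ← MonoidAlgebra.single_add]
  congr 1
  simp only [smul_eq_mul]
  ring

lemma continuous_BB (H : ℝ → ℂ) (W T : ℝ) : Continuous (fun t => BB H W T t) := by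
  unfold BB
  exact (continuous_ev _).add (continuous_const.mul (continuous_ev _))

lemma BB_add (H K : ℝ → ℂ) (W T t : ℝ) : BB (fun x => H x + K x) W T t = BB H W T t + BB K W T t := by
  unfold BB
  have h1 : bbW (fun x => (H x + K x).re) W T = bbW (fun x => (H x).re) W T + bbW (fun x => (K x).re) W T := by
    have := bbW_lin 1 1 (fun x => (H x).re) (fun x => (K x).re) W T
    simpa using this
  have h2 : bbW (fun x => (H x + K x).im) W T = bbW (fun x => (H x).im) W T + bbW (fun x => (K x).im) W T := by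
    have := bbW_lin 1 1 (fun x => (H x).im) (fun x => (K x).im) W T
    simpa using this
  rw [h1, h2, map_add, map_add]
  ring

lemma BB_smul (c : ℂ) (H : ℝ → ℂ) (W T t : ℝ) : BB (fun x => c * H x) W T t = c * BB H W T t := by
  unfold BB
  have h1 : bbW (fun x => (c * H x).re) W T = c.re • bbW (fun x => (H x).re) W T + (-c.im) • bbW (fun x => (H x).im) W T := by
    rw [← bbW_lin]
    congr 1
    funext x
    rw [Complex.mul_re]
    ring
  have h2 : bbW (fun x => (c * H x).im) W T = c.im • bbW (fun x => (H x).re) W T + c.re • bbW (fun x => (H x).im) W T := by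
    rw [← bbW_lin]
    congr 1
    funext x
    rw [Complex.mul_im]
    ring
  rw [h1, h2, map_add, map_add, map_smul, map_smul, map_smul, map_smul, Complex.real_smul, Complex.real_smul,
    Complex.real_smul, Complex.real_smul]
  have hc : c = c.re + c.im * Complex.I := (Complex.re_add_im c).symm
  conv_rhs => rw [hc]
  push_cast
  linear_combination (-(c.im : ℂ)) * (ev t (bbW (fun x => (H x).im) W T)) * Complex.I_mul_I

lemma BB_ofReal (H : ℝ → ℝ) (W T t : ℝ) : BB (fun x => (H x : ℂ)) W T t = ev t (bbW H W T) := by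
  unfold BB
  have h : bbW (fun x => ((H x : ℂ)).im) W T = 0 := by
    have := bbW_lin 0 0 H H W T
    simp only [zero_mul, add_zero, zero_smul] at this
    simpa using this
  rw [h, map_zero, mul_zero, add_zero]
  simp only [Complex.ofReal_re]

/-! ### the functional `permC` -/

lemma permC_congr {G G' : ℕ → ℝ → ℂ} (l : List (ℝ → ℂ)) : ∀ S : Finset ℕ, (∀ i ∈ S, G i = G' i) →
    permC G l S = permC G' l S := by
  induction l with
  | nil => intro S _; rfl
  | cons H l ih =>
    intro S h
    unfold permC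
    refine Finset.sum_congr rfl fun i hi => ?_
    rw [h i hi, ih (S.erase i) fun j hj => h j (Finset.mem_of_mem_erase hj)]

lemma permC_lin_right {G : ℕ → ℝ → ℂ} {i₀ : ℕ} {c d : ℂ} {g g' : ℝ → ℂ}
    (l : List (ℝ → ℂ)) (hl : ∀ H ∈ l, ipc H (fun x => c * g x + d * g' x) = conj c * ipc H g + conj d * ipc H g') :
    ∀ S : Finset ℕ, i₀ ∈ S → permC (Function.update G i₀ (fun x => c * g x + d * g' x)) l S =
      conj c * permC (Function.update G i₀ g) l S + conj d * permC (Function.update G i₀ g') l S := by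
  induction l with
  | nil =>
    intro S hS
    have h : S ≠ ∅ := Finset.ne_empty_of_mem hS
    unfold permC
    rw [if_neg h, mul_zero, mul_zero, add_zero]
  | cons H l ih =>
    intro S hS
    unfold permC
    rw [Finset.mul_sum, Finset.mul_sum, ← Finset.sum_add_distrib]
    refine Finset.sum_congr rfl fun i hi => ?_
    by_cases h : i = i₀
    · subst h
      rw [Function.update_self, Function.update_self, Function.update_self, hl H List.mem_cons_self]
      have e : ∀ f : ℝ → ℂ, permC (Function.update G i f) l (S.erase i) = permC G l (S.erase i) := fun f =>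
        permC_congr l _ fun j hj => Function.update_of_ne (Finset.ne_of_mem_erase hj) _ _
      rw [e, e, e]
      ring
    · rw [Function.update_of_ne h, Function.update_of_ne h, Function.update_of_ne h,
        ih (fun K hK => hl K (List.mem_cons_of_mem _ hK)) _ (Finset.mem_erase.2 ⟨Ne.symm h, hS⟩)]
      ring

lemma permC_lin_left {G : ℕ → ℝ → ℂ} {c d : ℂ} {H K : ℝ → ℂ} (l' : List (ℝ → ℂ)) (l : List (ℝ → ℂ)) :
    ∀ S : Finset ℕ, (∀ i ∈ S, ipc (fun x => c * H x + d * K x) (G i) = c * ipc H (G i) + d * ipc K (G i)) →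
    permC G (l' ++ (fun x => c * H x + d * K x) :: l) S =
      c * permC G (l' ++ H :: l) S + d * permC G (l' ++ K :: l) S := by
  induction l' with
  | nil =>
    intro S hS
    rw [List.nil_append, List.nil_append, List.nil_append]
    unfold permC
    rw [Finset.mul_sum, Finset.mul_sum, ← Finset.sum_add_distrib]
    refine Finset.sum_congr rfl fun i hi => ?_
    rw [hS i hi]
    ring
  | cons L l' ih =>
    intro S hS
    rw [List.cons_append, List.cons_append, List.cons_append]
    unfold permC
    rw [Finset.mul_sum, Finset.mul_sum, ← Finset.sum_add_distrib]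
    refine Finset.sum_congr rfl fun i hi => ?_
    rw [ih (S.erase i) fun j hj => hS j (Finset.mem_of_mem_erase hj)]
    ring

/-! ### integrability and linearity of `ipc` -/

lemma ipc_int {ℓ : ℝ} {H G : ℝ → ℂ} (hH : Continuous H) (hG : Sh ℓ G) :
    IntegrableOn (fun x => H x * conj (G x) / (x : ℂ)) (Ioi (0 : ℝ)) := by
  obtain ⟨a, ha, hlow⟩ := hG.low
  have hsub : ∀ x, x ∉ Icc a ℓ → H x * conj (G x) / (x : ℂ) = 0 := by
    intro x hx
    have : G x = 0 := by
      rw [Set.mem_Icc, not_and_or, not_le, not_le] at hx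
      rcases hx with hx | hx
      · exact hlow x hx.le
      · exact hG.high x hx.le
    rw [this, map_zero, mul_zero, zero_div]
  have hcont : ContinuousOn (fun x => H x * conj (G x) / (x : ℂ)) (Icc a ℓ) := by
    refine ContinuousOn.div ?_ Complex.continuous_ofReal.continuousOn fun x hx => ?_
    · exact (hH.mul (Complex.continuous_conj.comp hG.cont)).continuousOn
    · have : x ≠ 0 := (lt_of_lt_of_le ha hx.1).ne'
      exact_mod_cast this
  have h1 : IntegrableOn (fun x => H x * conj (G x) / (x : ℂ)) (Icc a ℓ) := hcont.integrableOn_Icc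
  have h2 : Integrable (fun x => H x * conj (G x) / (x : ℂ)) := by
    rw [← integrable_indicator_iff measurableSet_Icc] at h1
    refine h1.congr (ae_of_all _ fun x => ?_)
    by_cases hx : x ∈ Icc a ℓ
    · rw [indicator_of_mem hx]
    · rw [indicator_of_notMem hx]
      exact (hsub x hx).symm
  exact h2.integrableOn

lemma ipc_left {ℓ : ℝ} {c d : ℂ} {H K G : ℝ → ℂ} (hH : Continuous H) (hK : Continuous K) (hG : Sh ℓ G) :
    ipc (fun x => c * H x + d * K x) G = c * ipc H G + d * ipc K G := by
  unfold ipc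
  rw [← integral_const_mul, ← integral_const_mul, ← integral_add ((ipc_int hH hG).const_mul c)
    ((ipc_int hK hG).const_mul d)]
  refine integral_congr_ae (ae_of_all _ fun x => ?_)
  show (c * H x + d * K x) * conj (G x) / (x : ℂ) = c * (H x * conj (G x) / (x : ℂ)) + d * (K x * conj (G x) / (x : ℂ))
  ring

lemma ipc_right {ℓ : ℝ} {c d : ℂ} {H g g' : ℝ → ℂ} (hH : Continuous H) (hg : Sh ℓ g) (hg' : Sh ℓ g') :
    ipc H (fun x => c * g x + d * g' x) = conj c * ipc H g + conj d * ipc H g' := by
  unfold ipc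
  rw [← integral_const_mul, ← integral_const_mul, ← integral_add ((ipc_int hH hg).const_mul _)
    ((ipc_int hH hg').const_mul _)]
  refine integral_congr_ae (ae_of_all _ fun x => ?_)
  show H x * conj (c * g x + d * g' x) / (x : ℂ) = conj c * (H x * conj (g x) / (x : ℂ)) + conj d * (H x * conj (g' x) / (x : ℂ))
  rw [map_add, map_mul, map_mul]
  ring

lemma ipc_real (H G : ℝ → ℝ) : ipc (fun x => (H x : ℂ)) (fun x => (G x : ℂ)) = ((∫ x in Ioi (0 : ℝ), G x * H x / x : ℝ) : ℂ) := by
  unfold ipc
  rw [← integral_complex_ofReal]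
  refine integral_congr_ae (ae_of_all _ fun x => ?_)
  show (H x : ℂ) * conj (G x : ℂ) / (x : ℂ) = ((G x * H x / x : ℝ) : ℂ)
  rw [Complex.conj_ofReal]
  push_cast
  ring

end Pool.Agent.H24.AH
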