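import Mathlib
import Pool.Agent.H24.HF.Defs
import Pool.Agent.H24.HF.Ne
import Pool.Agent.H24.AH.Wc

/-!
# MP_103a5c_AH, block W (general Wick theorem), part d: `wick`
-/

open MeasureTheory Set Filter Topology
open scoped Real ContDiff ComplexConjugate

namespace Pool.Agent.H24.AH

open Pool.Agent Pool.Agent.H6 Pool.Agent.H14.GP Pool.Agent.H24.HF

/-- real version of `permC` -/
noncomputable def permR : List (ℕ → ℝ) → Finset ℕ → ℝ
  | [], S => if S = ∅ then 1 else 0
  | κ :: l, S => ∑ i ∈ S, κ i * permR l (S.erase i)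

lemma pderiv_prodX (S : Finset ℕ) (i : ℕ) : MvPolynomial.pderiv i (∏ j ∈ S, (MvPolynomial.X j : QQ)) =
    if i ∈ S then ∏ j ∈ S.erase i, (MvPolynomial.X j : QQ) else 0 := by
  classical
  induction S using Finset.induction_on with
  | empty => simp
  | insert k S hk ih =>
    rw [Finset.prod_insert hk, Derivation.leibniz, ih, MvPolynomial.pderiv_X]
    by_cases hik : i = k
    · subst hik
      rw [if_neg hk, if_pos (Finset.mem_insert_self _ _), Finset.erase_insert hk, Pi.single_eq_same, smul_zero,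
        smul_eq_mul, mul_one, zero_add]
    · rw [Pi.single_eq_of_ne' hik, smul_zero, add_zero]
      by_cases hiS : i ∈ S
      · rw [if_pos hiS, if_pos (Finset.mem_insert_of_mem hiS), Finset.erase_insert_of_ne (Ne.symm hik),
          Finset.prod_insert (fun h => hk (Finset.mem_of_mem_erase h)), smul_eq_mul]
      · rw [if_neg hiS, if_neg (fun h => (Finset.mem_insert.1 h).elim hik hiS), smul_zero]

lemma DL_prodX {M : ℕ} (l : List (ℕ → ℝ)) : ∀ S : Finset ℕ, (∀ i ∈ S, i < M) →
    MvPolynomial.constantCoeff (DL M l (∏ j ∈ S, (MvPolynomial.X j : QQ))) = permR l S := by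
  classical
  induction l with
  | nil =>
    intro S _
    unfold DL permR
    rw [map_prod]
    by_cases h : S = ∅
    · rw [if_pos h, h, Finset.prod_empty]
    · rw [if_neg h]
      obtain ⟨i, hi⟩ := Finset.nonempty_iff_ne_empty.2 h
      exact Finset.prod_eq_zero hi (MvPolynomial.constantCoeff_X _ _)
  | cons κ l ih =>
    intro S hS
    have h := Nc_phi_cons M κ l (∏ j ∈ S, (MvPolynomial.X j : QQ))
    change MvPolynomial.constantCoeff (DL M (κ :: l) _) = _ at h
    rw [h]
    unfold permR
    have h1 : ∀ i ∈ Finset.range M, κ i * Nc_phi M l (MvPolynomial.pderiv i (∏ j ∈ S, (MvPolynomial.X j : QQ))) =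
        if i ∈ S then κ i * permR l (S.erase i) else 0 := by
      intro i _
      rw [pderiv_prodX]
      by_cases hi : i ∈ S
      · rw [if_pos hi, if_pos hi]
        congr 1
        exact ih (S.erase i) fun j hj => hS j (Finset.mem_of_mem_erase hj)
      · rw [if_neg hi, if_neg hi, map_zero, mul_zero]
    rw [Finset.sum_congr rfl h1, ← Finset.sum_filter]
    refine Finset.sum_congr ?_ fun _ _ => rfl
    ext i
    rw [Finset.mem_filter, Finset.mem_range]
    exact ⟨fun h => h.2, fun h => ⟨hS i h, h⟩⟩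

/-- the real case: all functions real, the short ones nonnegative -/
theorem wick_real {v : ℝ → ℝ} (hv : Wgt v) {W : ℝ} (hW : 1 ≤ W) {Hs : List (ℝ → ℝ)}
    (hH : ∀ H ∈ Hs, Continuous H ∧ ∃ B, ∀ x, |H x| ≤ B) {S : Finset ℕ} {g : ℕ → ℝ → ℝ} {ℓ : ℕ → ℝ}
    (hg : ∀ i ∈ S, Sh (ℓ i) (fun x => (g i x : ℂ))) (hpos : ∀ i ∈ S, ∀ x, 0 ≤ g i x)
    (hℓ0 : ∀ i ∈ S, 0 ≤ ℓ i) (hℓ : ∑ i ∈ S, ℓ i < 1) :
    Tendsto (fun T => EC v T (fun t => (Hs.map fun H => BB (fun x => (H x : ℂ)) W T t).prod *
      conj (∏ i ∈ S, BB (fun x => (g i x : ℂ)) W T t))) atTop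
      (𝓝 (((∫ x, v x : ℝ) : ℂ) * permC (fun i x => (g i x : ℂ)) (Hs.map fun H x => (H x : ℂ)) S)) := by
  classical
  obtain ⟨M, hM⟩ : ∃ M, ∀ i ∈ S, i < M := ⟨S.sup id + 1, fun i hi => Nat.lt_succ_of_le (Finset.le_sup (f := id) hi)⟩
  -- extend by zero
  obtain ⟨G, hGdef⟩ : ∃ G : ℕ → ℝ → ℝ, G = fun i => if i ∈ S then g i else fun _ => 0 := ⟨_, rfl⟩
  obtain ⟨m, hmdef⟩ : ∃ m : ℕ → ℝ, m = fun i => if i ∈ S then ℓ i else 0 := ⟨_, rfl⟩
  have hGS : ∀ i ∈ S, G i = g i := fun i hi => by rw [hGdef]; exact if_pos hi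
  have hGn : ∀ i, i ∉ S → G i = fun _ => 0 := fun i hi => by rw [hGdef]; exact if_neg hi
  have hmS : ∀ i ∈ S, m i = ℓ i := fun i hi => by rw [hmdef]; exact if_pos hi
  have hmn : ∀ i, i ∉ S → m i = 0 := fun i hi => by rw [hmdef]; exact if_neg hi
  have hre : ∀ i ∈ S, g i = fun x => ((g i x : ℂ)).re := fun i _ => by funext x; rw [Complex.ofReal_re]
  have hlow : ∃ a, 0 < a ∧ ∀ j x, x ≤ a → G j x = 0 := by
    have h1 : ∀ i ∈ S, ∃ a, 0 < a ∧ ∀ x, x ≤ a → g i x = 0 := by
      intro i hi
      obtain ⟨a, ha, h⟩ := (hg i hi).low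
      exact ⟨a, ha, fun x hx => by exact_mod_cast h x hx⟩
    choose! a ha h using h1
    by_cases hS : S.Nonempty
    · refine ⟨S.inf' hS a, (Finset.lt_inf'_iff hS).2 fun i hi => ha i hi, fun j x hx => ?_⟩
      by_cases hj : j ∈ S
      · rw [hGS j hj]
        exact h j hj x (hx.trans (Finset.inf'_le _ hj))
      · rw [hGn j hj]
    · refine ⟨1, one_pos, fun j x _ => ?_⟩
      rw [hGn j (fun hj => hS ⟨j, hj⟩)]
  have hF : Fam M m G := by
    refine ⟨fun j => ?_, fun j x => ?_, hlow, fun j x hx => ?_, fun j => ?_, fun j => ?_, fun j hj x => ?_⟩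
    · by_cases hj : j ∈ S
      · rw [hGS j hj, hre j hj]
        exact Complex.continuous_re.comp (hg j hj).cont
      · rw [hGn j hj]
        exact continuous_const
    · by_cases hj : j ∈ S
      · rw [hGS j hj]
        exact hpos j hj x
      · rw [hGn j hj]
    · by_cases hj : j ∈ S
      · rw [hmS j hj] at hx
        rw [hGS j hj]
        exact_mod_cast (hg j hj).high x hx
      · rw [hGn j hj]
    · by_cases hj : j ∈ S
      · rw [hmS j hj]
        exact hℓ0 j hj
      · rw [hmn j hj]
    · by_cases hj : j ∈ S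
      · rw [hmS j hj]
        exact (Finset.single_le_sum (f := ℓ) hℓ0 hj).trans hℓ.le
      · rw [hmn j hj]
        exact zero_le_one
    · rw [hGn j fun h => absurd (hM j h) (not_lt.2 hj)]
  obtain ⟨B, hB⟩ : ∃ B, ∀ H ∈ Hs, ∀ x, |H x| ≤ B := by
    clear hF hlow
    induction Hs with
    | nil => exact ⟨0, fun H h => absurd h List.not_mem_nil⟩
    | cons K l ih =>
      obtain ⟨B, hB⟩ := ih fun H h => hH H (List.mem_cons_of_mem _ h)
      obtain ⟨B', hB'⟩ := (hH K List.mem_cons_self).2
      refine ⟨max B B', fun H h x => ?_⟩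
      rcases List.mem_cons.1 h with rfl | h
      · exact (hB' x).trans (le_max_right _ _)
      · exact (hB H h x).trans (le_max_left _ _)
  have hQ : WDegR m (∑ i ∈ S, ℓ i) (∏ j ∈ S, (MvPolynomial.X j : QQ)) := by
    intro d hd
    have h1 : (∏ j ∈ S, (MvPolynomial.X j : QQ)) = MvPolynomial.monomial (∑ j ∈ S, Finsupp.single j 1) 1 := by
      rw [MvPolynomial.monomial_sum_one]
      rfl
    rw [h1] at hd
    have h2 := MvPolynomial.support_monomial_subset hd
    rw [Finset.mem_singleton] at h2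
    rw [h2]
    have h3 : ∀ A : Finset ℕ, A ⊆ S → ((∑ j ∈ A, Finsupp.single j 1 : ℕ →₀ ℕ).sum fun j e => m j * (e : ℝ)) = ∑ j ∈ A, ℓ j := by
      intro A
      induction A using Finset.induction_on with
      | empty => intro _; simp
      | insert k A hk ih =>
        intro hA
        rw [Finset.sum_insert hk, Finset.sum_insert hk, Finsupp.sum_add_index' (by simp) (by intro i a b; push_cast; ring),
          ih ((Finset.subset_insert _ _).trans hA), Finsupp.sum_single_index (by simp), Nat.cast_one, mul_one,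
          hmS k (hA (Finset.mem_insert_self _ _))]
    exact (h3 S (Finset.Subset.refl _)).le
  have key := transferF hv hF hW (fun H h => (hH H h).1) hB hℓ hQ
  rw [DL_prodX _ S hM] at key
  have e1 : (((∫ x, v x) * permR (Hs.map (kp G)) S : ℝ) : ℂ) =
      ((∫ x, v x : ℝ) : ℂ) * permC (fun i x => (g i x : ℂ)) (Hs.map fun H x => (H x : ℂ)) S := by
    rw [Complex.ofReal_mul]
    congr 1
    have h1 : ∀ A : Finset ℕ, A ⊆ S → ((permR (Hs.map (kp G)) A : ℝ) : ℂ) =
        permC (fun i x => (g i x : ℂ)) (Hs.map fun H x => (H x : ℂ)) A := by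
      clear key hB hH
      induction Hs with
      | nil =>
        intro A _
        rw [List.map_nil, List.map_nil]
        unfold permR permC
        split_ifs <;> simp
      | cons H l ih =>
        intro A hA
        rw [List.map_cons, List.map_cons]
        unfold permR permC
        rw [Complex.ofReal_sum]
        refine Finset.sum_congr rfl fun i hi => ?_
        rw [Complex.ofReal_mul, ih _ ((Finset.erase_subset _ _).trans hA), ipc_real]
        congr 2
        unfold kp
        rw [hGS i (hA hi)]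
    exact h1 S (Finset.Subset.refl _)
  rw [e1] at key
  refine key.congr' ?_
  filter_upwards [eventually_gt_atTop 1] with T hT
  congr 1
  funext t
  congr 1
  · congr 1
    refine List.map_congr_left fun H _ => ?_
    rw [BB_ofReal]
  · congr 1
    unfold evQ
    rw [map_prod, map_prod]
    refine Finset.prod_congr rfl fun i hi => ?_
    rw [MvPolynomial.aeval_X, BB_ofReal, hGS i hi]
    congr 1
    -- `bb (g i) T = bbW (g i) W T`
    symm
    have hT0 : 0 < T := by linarith
    have hlT : 0 < Real.log T := Real.log_pos hT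
    have hW0 : 0 < W := by linarith
    unfold bbW H14.GP.bb
    have hle : ⌊T⌋₊ + 1 ≤ ⌊T ^ W⌋₊ + 1 := by
      have h1 : T ≤ T ^ W := by
        calc T = T ^ (1 : ℝ) := (Real.rpow_one T).symm
          _ ≤ T ^ W := Real.rpow_le_rpow_of_exponent_le hT.le hW
      have := Nat.floor_le_floor h1
      omega
    have hlog : ∀ p : ℕ, W * (Real.log p / Real.log (T ^ W)) = Real.log p / Real.log T := by
      intro p
      rw [Real.log_rpow hT0]
      field_simp
    simp only [hlog]
    symm
    refine Finset.sum_subset ?_ ?_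
    · intro p hp
      rw [Finset.mem_filter, Finset.mem_range] at hp ⊢
      exact ⟨lt_of_lt_of_le hp.1 hle, hp.2⟩
    · intro p hp hp'
      rw [Finset.mem_filter, Finset.mem_range] at hp hp'
      have hpT : T < p := by
        by_contra h
        apply hp'
        refine ⟨?_, hp.2⟩
        have := Nat.le_floor (not_lt.1 h)
        omega
      have h0 : g i (Real.log p / Real.log T) = 0 := by
        have h2 : 1 < Real.log p / Real.log T := by
          rw [lt_div_iff₀ hlT, one_mul]
          exact Real.log_lt_log hT0 hpT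
        have h3 : ℓ i ≤ 1 := (Finset.single_le_sum (f := ℓ) hℓ0 hi).trans hℓ.le
        exact_mod_cast (hg i hi).high _ (h3.trans h2.le)
      rw [h0, zero_mul]
      simp

end Pool.Agent.H24.AH
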