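import Mathlib
import Pool.Agent.H24.HF.Defs
import Pool.Agent.H24.AH.Wd

/-!
# MP_103a5c_AH, block W (general Wick theorem), part e: `wick`
-/

open MeasureTheory Set Filter Topology
open scoped Real ContDiff ComplexConjugate

namespace Pool.Agent.H24.AH

open Pool.Agent Pool.Agent.H6 Pool.Agent.H14.GP Pool.Agent.H24.HF

/-- the statement of the Wick theorem for given test functions -/
def Wk (v : ℝ → ℝ) (W : ℝ) (Hs : List (ℝ → ℂ)) (G : ℕ → ℝ → ℂ) (S : Finset ℕ) : Prop :=
  Tendsto (fun T => EC v T (fun t => (Hs.map fun H => BB H W T t).prod * conj (∏ i ∈ S, BB (G i) W T t))) atTop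
    (𝓝 (((∫ x, v x : ℝ) : ℂ) * permC G Hs S))

lemma continuous_prod_BB (Hs : List (ℝ → ℂ)) (W T : ℝ) : Continuous (fun t => (Hs.map fun H => BB H W T t).prod) := by
  induction Hs with
  | nil => simp only [List.map_nil, List.prod_nil]; exact continuous_const
  | cons H l ih => simp only [List.map_cons, List.prod_cons]; exact (continuous_BB H W T).mul ih

lemma Wk_cont (Hs : List (ℝ → ℂ)) (G : ℕ → ℝ → ℂ) (S : Finset ℕ) (W T : ℝ) :
    Continuous (fun t => (Hs.map fun H => BB H W T t).prod * conj (∏ i ∈ S, BB (G i) W T t)) :=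
  (continuous_prod_BB Hs W T).mul (Complex.continuous_conj.comp (continuous_finsetProd _ fun i _ => continuous_BB (G i) W T))

lemma EC_lin2 {v : ℝ → ℝ} (hv : Wgt v) {T : ℝ} (hT : 0 < T) (c d : ℂ) {f g : ℝ → ℂ} (hf : Continuous f) (hg : Continuous g) :
    EC v T (fun t => c * f t + d * g t) = c * EC v T f + d * EC v T g := by
  have h := Vb_EC_sum hv hT (Finset.univ : Finset (Fin 2)) ![c, d] ![f, g] (by
    intro i _
    fin_cases i
    · exact hf
    · exact hg)
  simpa [Fin.sum_univ_two] using h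

lemma Wk_left {v : ℝ → ℝ} (hv : Wgt v) {W : ℝ} {c d : ℂ} {H K : ℝ → ℂ} {l' l : List (ℝ → ℂ)} {G : ℕ → ℝ → ℂ}
    {S : Finset ℕ} {ℓ : ℕ → ℝ} (hG : ∀ i ∈ S, Sh (ℓ i) (G i)) (hH : Continuous H) (hK : Continuous K)
    (h1 : Wk v W (l' ++ H :: l) G S) (h2 : Wk v W (l' ++ K :: l) G S) :
    Wk v W (l' ++ (fun x => c * H x + d * K x) :: l) G S := by
  unfold Wk at *
  rw [permC_lin_left l' l S fun i hi => ipc_left hH hK (hG i hi)]
  have h3 := (h1.const_mul c).add (h2.const_mul d)
  have e : c * (((∫ x, v x : ℝ) : ℂ) * permC G (l' ++ H :: l) S) + d * (((∫ x, v x : ℝ) : ℂ) * permC G (l' ++ K :: l) S) =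
      ((∫ x, v x : ℝ) : ℂ) * (c * permC G (l' ++ H :: l) S + d * permC G (l' ++ K :: l) S) := by ring
  rw [e] at h3
  refine h3.congr' ?_
  filter_upwards [eventually_gt_atTop 0] with T hT
  rw [← EC_lin2 hv hT c d (Wk_cont _ _ _ _ _) (Wk_cont _ _ _ _ _)]
  congr 1
  funext t
  rw [List.map_append, List.map_append, List.map_append, List.prod_append, List.prod_append, List.prod_append,
    List.map_cons, List.map_cons, List.map_cons, List.prod_cons, List.prod_cons, List.prod_cons,
    BB_add (fun x => c * H x) (fun x => d * K x), BB_smul, BB_smul]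
  ring

lemma Wk_right {v : ℝ → ℝ} (hv : Wgt v) {W : ℝ} {c d : ℂ} {g g' : ℝ → ℂ} {Hs : List (ℝ → ℂ)} {G : ℕ → ℝ → ℂ}
    {S : Finset ℕ} {i₀ : ℕ} (hi₀ : i₀ ∈ S) {ℓ : ℝ} (hg : Sh ℓ g) (hg' : Sh ℓ g') (hH : ∀ H ∈ Hs, Continuous H)
    (h1 : Wk v W Hs (Function.update G i₀ g) S) (h2 : Wk v W Hs (Function.update G i₀ g') S) :
    Wk v W Hs (Function.update G i₀ (fun x => c * g x + d * g' x)) S := by
  unfold Wk at *
  rw [permC_lin_right Hs (fun H hHs => ipc_right (hH H hHs) hg hg') S hi₀]
  have h3 := (h1.const_mul (conj c)).add (h2.const_mul (conj d))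
  have e : conj c * (((∫ x, v x : ℝ) : ℂ) * permC (Function.update G i₀ g) Hs S) +
      conj d * (((∫ x, v x : ℝ) : ℂ) * permC (Function.update G i₀ g') Hs S) =
      ((∫ x, v x : ℝ) : ℂ) * (conj c * permC (Function.update G i₀ g) Hs S +
        conj d * permC (Function.update G i₀ g') Hs S) := by ring
  rw [e] at h3
  refine h3.congr' ?_
  filter_upwards [eventually_gt_atTop 0] with T hT
  rw [← EC_lin2 hv hT (conj c) (conj d) (Wk_cont _ _ _ _ _) (Wk_cont _ _ _ _ _)]
  congr 1
  funext t
  have e2 : ∀ f : ℝ → ℂ, (∏ i ∈ S, BB (Function.update G i₀ f i) W T t) = BB f W T t * ∏ i ∈ S.erase i₀, BB (G i) W T t := by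
    intro f
    rw [← Finset.mul_prod_erase S _ hi₀, Function.update_self]
    congr 1
    refine Finset.prod_congr rfl fun i hi => ?_
    rw [Function.update_of_ne (Finset.ne_of_mem_erase hi)]
  rw [e2, e2, e2, BB_add (fun x => c * g x) (fun x => d * g' x), BB_smul, BB_smul]
  simp only [map_add, map_mul]
  ring

/-- complex short functions as combinations of nonnegative ones -/
lemma Sh.real {ℓ : ℝ} {G : ℝ → ℂ} (hG : Sh ℓ G) (F : ℂ → ℝ) (hF : Continuous F) (h0 : F 0 = 0) :
    Sh ℓ (fun x => ((F (G x) : ℝ) : ℂ)) := by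
  obtain ⟨a, ha, hlow⟩ := hG.low
  refine ⟨Complex.continuous_ofReal.comp (hF.comp hG.cont), ⟨a, ha, fun x hx => ?_⟩, fun x hx => ?_⟩
  · rw [hlow x hx, h0, Complex.ofReal_zero]
  · rw [hG.high x hx, h0, Complex.ofReal_zero]

/-- long functions: complex from real -/
theorem wick_left {v : ℝ → ℝ} (hv : Wgt v) {W : ℝ} (hW : 1 ≤ W) {S : Finset ℕ} {g : ℕ → ℝ → ℝ} {ℓ : ℕ → ℝ}
    (hg : ∀ i ∈ S, Sh (ℓ i) (fun x => (g i x : ℂ))) (hpos : ∀ i ∈ S, ∀ x, 0 ≤ g i x)
    (hℓ0 : ∀ i ∈ S, 0 ≤ ℓ i) (hℓ : ∑ i ∈ S, ℓ i < 1) (Hs : List (ℝ → ℂ)) :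
    (∀ H ∈ Hs, Continuous H ∧ ∃ B : ℝ, ∀ x, ‖H x‖ ≤ B) →
    ∀ Rs : List (ℝ → ℝ), (∀ H ∈ Rs, Continuous H ∧ ∃ B, ∀ x, |H x| ≤ B) →
    Wk v W ((Rs.map fun H x => (H x : ℂ)) ++ Hs) (fun i x => (g i x : ℂ)) S := by
  induction Hs with
  | nil =>
    intro _ Rs hRs
    rw [List.append_nil]
    have h := wick_real hv hW hRs hg hpos hℓ0 hℓ
    unfold Wk
    refine h.congr fun T => ?_
    congr 1
    funext t
    rw [List.map_map]
    rfl
  | cons H l ih =>
    intro hH Rs hRs
    obtain ⟨hHc, B, hB⟩ := hH H List.mem_cons_self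
    have ih' := ih fun K hK => hH K (List.mem_cons_of_mem _ hK)
    have hre : Continuous (fun x => (H x).re) ∧ ∃ B, ∀ x, |(H x).re| ≤ B :=
      ⟨Complex.continuous_re.comp hHc, B, fun x => (Complex.abs_re_le_norm _).trans (hB x)⟩
    have him : Continuous (fun x => (H x).im) ∧ ∃ B, ∀ x, |(H x).im| ≤ B :=
      ⟨Complex.continuous_im.comp hHc, B, fun x => (Complex.abs_im_le_norm _).trans (hB x)⟩
    have h1 := ih' (Rs ++ [fun x => (H x).re]) (by
      intro K hK
      rcases List.mem_append.1 hK with h | h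
      · exact hRs K h
      · rw [List.mem_singleton] at h
        rw [h]
        exact hre)
    have h2 := ih' (Rs ++ [fun x => (H x).im]) (by
      intro K hK
      rcases List.mem_append.1 hK with h | h
      · exact hRs K h
      · rw [List.mem_singleton] at h
        rw [h]
        exact him)
    rw [List.map_append, List.map_singleton, List.append_assoc, List.singleton_append] at h1 h2
    have h3 := Wk_left hv (c := 1) (d := Complex.I) (H := fun x => ((H x).re : ℂ)) (K := fun x => ((H x).im : ℂ))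
      hg (Complex.continuous_ofReal.comp hre.1) (Complex.continuous_ofReal.comp him.1) h1 h2
    have e : (fun x => (1 : ℂ) * ((H x).re : ℂ) + Complex.I * ((H x).im : ℂ)) = H := by
      funext x
      rw [one_mul, mul_comm]
      exact Complex.re_add_im (H x)
    rw [e] at h3
    exact h3

/-- **Wick theorem** -/
theorem wick {v : ℝ → ℝ} (hv : Wgt v) {W : ℝ} (hW : 1 ≤ W) {Hs : List (ℝ → ℂ)}
    (hH : ∀ H ∈ Hs, Continuous H ∧ ∃ B : ℝ, ∀ x, ‖H x‖ ≤ B) {S : Finset ℕ} {ℓ : ℕ → ℝ} (hℓ0 : ∀ i ∈ S, 0 ≤ ℓ i)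
    (hℓ : ∑ i ∈ S, ℓ i < 1) {G : ℕ → ℝ → ℂ} (hG : ∀ i ∈ S, Sh (ℓ i) (G i)) : Wk v W Hs G S := by
  classical
  have main : ∀ S' : Finset ℕ, S' ⊆ S → ∀ G : ℕ → ℝ → ℂ, (∀ i ∈ S, Sh (ℓ i) (G i)) →
      (∀ i ∈ S, i ∉ S' → ∃ g : ℝ → ℝ, (∀ x, 0 ≤ g x) ∧ G i = fun x => (g x : ℂ)) → Wk v W Hs G S := by
    intro S'
    induction S' using Finset.induction_on with
    | empty =>
      intro _ G hG hr
      choose! g hg using fun i (hi : i ∈ S) => hr i hi (Finset.notMem_empty i)
      have e : ∀ i ∈ S, G i = (fun i x => (g i x : ℂ)) i := fun i hi => (hg i hi).2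
      have h := wick_left hv hW (S := S) (g := g) (ℓ := ℓ) (fun i hi => by
        have := hG i hi
        rw [e i hi] at this
        exact this) (fun i hi => (hg i hi).1) hℓ0 hℓ Hs hH [] (by simp)
      rw [List.map_nil, List.nil_append] at h
      unfold Wk at *
      rw [permC_congr Hs S e]
      refine h.congr fun T => ?_
      congr 1
      funext t
      congr 2
      exact Finset.prod_congr rfl fun i hi => by rw [e i hi]
    | insert k S' hk ih =>
      intro hS' G hG hr
      have hkS : k ∈ S := hS' (Finset.mem_insert_self _ _)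
      have ihS := ih ((Finset.subset_insert _ _).trans hS')
      have hsh := hG k hkS
      have hupd : ∀ F : ℂ → ℝ, Continuous F → F 0 = 0 → (∀ z, 0 ≤ F z) →
          Wk v W Hs (Function.update G k (fun x => ((F (G k x) : ℝ) : ℂ))) S := by
        intro F hF h0 hnn
        refine ihS _ (fun i hi => ?_) (fun i hi hi' => ?_)
        · by_cases hik : i = k
          · subst hik
            rw [Function.update_self]
            exact hsh.real F hF h0
          · rw [Function.update_of_ne hik]
            exact hG i hi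
        · by_cases hik : i = k
          · subst hik
            rw [Function.update_self]
            exact ⟨fun x => F (G i x), fun x => hnn _, rfl⟩
          · rw [Function.update_of_ne hik]
            exact hr i hi fun h => (Finset.mem_insert.1 h).elim hik hi'
      have c1 : Continuous (fun z : ℂ => max z.re 0) := Complex.continuous_re.max continuous_const
      have c2 : Continuous (fun z : ℂ => max (-z.re) 0) := Complex.continuous_re.neg.max continuous_const
      have c3 : Continuous (fun z : ℂ => max z.im 0) := Complex.continuous_im.max continuous_const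
      have c4 : Continuous (fun z : ℂ => max (-z.im) 0) := Complex.continuous_im.neg.max continuous_const
      have h1 := hupd (fun z => max z.re 0) c1 (by simp) (fun z => le_max_right _ _)
      have h2 := hupd (fun z => max (-z.re) 0) c2 (by simp) (fun z => le_max_right _ _)
      have h3 := hupd (fun z => max z.im 0) c3 (by simp) (fun z => le_max_right _ _)
      have h4 := hupd (fun z => max (-z.im) 0) c4 (by simp) (fun z => le_max_right _ _)
      have hc : ∀ H ∈ Hs, Continuous H := fun H h => (hH H h).1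
      have h5 := Wk_right hv hkS (c := 1) (d := -1) (hsh.real _ c1 (by simp)) (hsh.real _ c2 (by simp)) hc h1 h2
      have h6 := Wk_right hv hkS (c := 1) (d := -1) (hsh.real _ c3 (by simp)) (hsh.real _ c4 (by simp)) hc h3 h4
      have hre : (fun x => (1 : ℂ) * ((max (G k x).re 0 : ℝ) : ℂ) + (-1) * ((max (-(G k x).re) 0 : ℝ) : ℂ)) =
          fun x => (((G k x).re : ℝ) : ℂ) := by
        funext x
        rw [one_mul, neg_one_mul, ← sub_eq_add_neg, ← Complex.ofReal_sub]
        congr 1
        rcases le_total 0 (G k x).re with h | h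
        · rw [max_eq_left h, max_eq_right (by linarith), sub_zero]
        · rw [max_eq_right h, max_eq_left (by linarith)]
          ring
      have him : (fun x => (1 : ℂ) * ((max (G k x).im 0 : ℝ) : ℂ) + (-1) * ((max (-(G k x).im) 0 : ℝ) : ℂ)) =
          fun x => (((G k x).im : ℝ) : ℂ) := by
        funext x
        rw [one_mul, neg_one_mul, ← sub_eq_add_neg, ← Complex.ofReal_sub]
        congr 1
        rcases le_total 0 (G k x).im with h | h
        · rw [max_eq_left h, max_eq_right (by linarith), sub_zero]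
        · rw [max_eq_right h, max_eq_left (by linarith)]
          ring
      rw [hre] at h5
      rw [him] at h6
      have h7 := Wk_right hv hkS (c := 1) (d := Complex.I) (hsh.real _ Complex.continuous_re (by simp))
        (hsh.real _ Complex.continuous_im (by simp)) hc h5 h6
      have e : (fun x => (1 : ℂ) * (((G k x).re : ℝ) : ℂ) + Complex.I * (((G k x).im : ℝ) : ℂ)) = G k := by
        funext x
        rw [one_mul, mul_comm]
        exact Complex.re_add_im (G k x)
      rw [e, Function.update_eq_self] at h7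
      exact h7
  exact main S (Finset.Subset.refl _) G hG fun i hi hi' => absurd hi hi'

end Pool.Agent.H24.AH
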