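import Mathlib
import Pool.Agent.H24.HF.Defs
import Pool.Agent.H14.GP.Gb
import Pool.Agent.H24.AH.We

/-!
# MP_103a5c_AH, block W (general Wick theorem), part f: `wick_hm`

`h_m(B) = cf (-1) (BB B_j)_m` (coefficients of `exp(-∑ BB(B_j) x^j)`). For long functions `A_j` and a polynomial `R`:
`E_T[R(BB A) conj h_m(B)] → (∫v) coeff_m R(-κ_A)`, `κ_A = ∑_{j ≥ 1} ipc A (B j) x^j`.
-/

open MeasureTheory Set Filter Topology
open scoped Real ContDiff ComplexConjugate

namespace Pool.Agent.H24.AH

open Pool.Agent Pool.Agent.H6 Pool.Agent.H14.GP Pool.Agent.H24.HF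

/-- every derivation acts on `cf` by the chain rule -/
theorem der_cf_gen {𝒜 : Type*} [CommRing 𝒜] [Algebra ℝ 𝒜] (D : Derivation ℝ 𝒜 𝒜) (c : ℝ) (y : ℕ → 𝒜) (n : ℕ) :
    D (cf c y n) = c • ∑ j ∈ Finset.range n, D (y (j + 1)) * cf c y (n - (j + 1)) := by
  induction n using Nat.strong_induction_on with
  | _ n ih =>
    rcases n with _ | m
    · rw [cf_zero, Finset.sum_range_zero, smul_zero]
      exact D.map_one_eq_zero
    · have hm : ((m : ℝ) + 1) ≠ 0 := by positivity
      have key : ((m : ℝ) + 1) • D (cf c y (m + 1)) =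
          ((m : ℝ) + 1) • (c • ∑ j ∈ Finset.range (m + 1), D (y (j + 1)) * cf c y (m + 1 - (j + 1))) := by
        rw [← D.map_smul, newton, D.map_smul, map_sum, smul_comm]
        congr 1
        have h1 : ∀ j ∈ Finset.range (m + 1), D (((j : ℝ) + 1) • (y (j + 1) * cf c y (m - j))) =
            ((j : ℝ) + 1) • (D (y (j + 1)) * cf c y (m - j)) +
            ∑ i ∈ Finset.range (m + 1), (if i + 1 ≤ m - j then
              ((j : ℝ) + 1) • (c • (D (y (i + 1)) * (y (j + 1) * cf c y (m - j - (i + 1))))) else 0) := by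
          intro j hj
          rw [Finset.mem_range] at hj
          rw [D.map_smul, D.leibniz, ih (m - j) (by omega), smul_add, add_comm, smul_eq_mul, smul_eq_mul]
          congr 1
          · rw [mul_comm]
          · rw [← Finset.sum_filter]
            have e : (Finset.range (m + 1)).filter (fun i => i + 1 ≤ m - j) = Finset.range (m - j) := by
              ext i
              simp only [Finset.mem_filter, Finset.mem_range]
              omega
            rw [e, mul_smul_comm, Finset.mul_sum, Finset.smul_sum, Finset.smul_sum]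
            refine Finset.sum_congr rfl fun i _ => ?_
            congr 2
            ring
        rw [Finset.sum_congr rfl h1, Finset.sum_add_distrib, Finset.sum_comm, ← Finset.sum_add_distrib, Finset.smul_sum]
        refine Finset.sum_congr rfl fun i hi => ?_
        rw [Finset.mem_range] at hi
        have e1 : m + 1 - (i + 1) = m - i := by omega
        rw [e1]
        -- the inner sum is `(m - i) D(y_{i+1}) h_{m-i}`
        have h2 : (∑ j ∈ Finset.range (m + 1), (if i + 1 ≤ m - j then
              ((j : ℝ) + 1) • (c • (D (y (i + 1)) * (y (j + 1) * cf c y (m - j - (i + 1))))) else 0)) =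
            ((m : ℝ) - i) • (D (y (i + 1)) * cf c y (m - i)) := by
          rw [← Finset.sum_filter]
          have e : (Finset.range (m + 1)).filter (fun j => i + 1 ≤ m - j) = Finset.range (m - i) := by
            ext j
            simp only [Finset.mem_filter, Finset.mem_range]
            omega
          rw [e]
          rcases Nat.eq_zero_or_pos (m - i) with h0 | h0
          · rw [h0, Finset.sum_range_zero]
            have : (m : ℝ) = i := by
              have : m = i := by omega
              exact_mod_cast this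
            rw [this, sub_self, zero_smul]
          · obtain ⟨q, hq⟩ : ∃ q, m - i = q + 1 := ⟨m - i - 1, by omega⟩
            have e3 : (m : ℝ) - i = (q : ℝ) + 1 := by
              have : m = q + 1 + i := by omega
              rw [this]
              push_cast
              ring
            rw [hq, e3, ← mul_smul_comm, newton, mul_smul_comm, Finset.mul_sum, Finset.smul_sum]
            refine Finset.sum_congr rfl fun j hj => ?_
            rw [Finset.mem_range] at hj
            have e4 : m - j - (i + 1) = q - j := by omega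
            rw [e4, mul_smul_comm, smul_comm]
        rw [h2, ← add_smul]
        congr 1
        ring
      have h2 := congrArg (fun z => ((m : ℝ) + 1)⁻¹ • z) key
      simp only [smul_smul, inv_mul_cancel₀ hm, one_smul] at h2
      rw [h2]
      congr 1
      rw [← mul_assoc, inv_mul_cancel₀ hm, one_mul]

/-- polynomials in the conjugate variables, complex coefficients -/
abbrev QC := MvPolynomial ℕ ℂ

/-- the derivation with `X_j ↦ κ_j` -/
noncomputable def DD (κ : ℕ → ℂ) : Derivation ℂ QC QC := MvPolynomial.mkDerivation ℂ fun j => MvPolynomial.C (κ j)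

/-- iterated derivations -/
noncomputable def DDL : List (ℕ → ℂ) → QC → QC
  | [], Q => Q
  | κ :: l, Q => DDL l (DD κ Q)

lemma DD_X (κ : ℕ → ℂ) (j : ℕ) : DD κ (MvPolynomial.X j) = MvPolynomial.C (κ j) := MvPolynomial.mkDerivation_X _ _ _

lemma DDL_add (l : List (ℕ → ℂ)) : ∀ P Q : QC, DDL l (P + Q) = DDL l P + DDL l Q := by
  induction l with
  | nil => intro P Q; rfl
  | cons κ l ih => intro P Q; show DDL l (DD κ (P + Q)) = DDL l (DD κ P) + DDL l (DD κ Q); rw [map_add, ih]

lemma DDL_smul (l : List (ℕ → ℂ)) : ∀ (c : ℂ) (Q : QC), DDL l (c • Q) = c • DDL l Q := by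
  induction l with
  | nil => intro c Q; rfl
  | cons κ l ih => intro c Q; show DDL l (DD κ (c • Q)) = c • DDL l (DD κ Q); rw [Derivation.map_smul, ih]

/-- the functional, as a linear map -/
noncomputable def phiC (l : List (ℕ → ℂ)) : QC →ₗ[ℂ] ℂ where
  toFun Q := MvPolynomial.constantCoeff (DDL l Q)
  map_add' P Q := by rw [DDL_add, map_add]
  map_smul' c Q := by rw [DDL_smul, MvPolynomial.constantCoeff_smul, RingHom.id_apply]

lemma phiC_cons (κ : ℕ → ℂ) (l : List (ℕ → ℂ)) (Q : QC) : phiC (κ :: l) Q = phiC l (DD κ Q) := rfl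

lemma DD_prod (κ : ℕ → ℂ) (f : ℕ → ℕ) (S : Finset ℕ) : DD κ (∏ i ∈ S, (MvPolynomial.X (f i) : QC)) =
    ∑ i ∈ S, κ (f i) • ∏ j ∈ S.erase i, (MvPolynomial.X (f j) : QC) := by
  classical
  induction S using Finset.induction_on with
  | empty => rw [Finset.prod_empty, Finset.sum_empty]; exact (DD κ).map_one_eq_zero
  | insert k S hk ih =>
    rw [Finset.prod_insert hk, Derivation.leibniz, ih, DD_X, Finset.sum_insert hk, Finset.erase_insert hk, add_comm]
    congr 1
    · rw [smul_eq_mul, mul_comm, MvPolynomial.smul_eq_C_mul]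
    · rw [smul_eq_mul, Finset.mul_sum]
      refine Finset.sum_congr rfl fun i hi => ?_
      have hik : k ≠ i := fun h => hk (h ▸ hi)
      rw [Finset.erase_insert_of_ne hik, Finset.prod_insert fun h => hk (Finset.mem_of_mem_erase h), mul_smul_comm]

/-- the short side as a polynomial -/
lemma permC_eq (B : ℕ → ℝ → ℂ) (f : ℕ → ℕ) (l : List (ℝ → ℂ)) : ∀ S : Finset ℕ,
    permC (fun i => B (f i)) l S = phiC (l.map fun H j => ipc H (B j)) (∏ i ∈ S, (MvPolynomial.X (f i) : QC)) := by
  classical
  induction l with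
  | nil =>
    intro S
    unfold permC
    show _ = MvPolynomial.constantCoeff (∏ i ∈ S, (MvPolynomial.X (f i) : QC))
    rw [map_prod]
    by_cases h : S = ∅
    · rw [if_pos h, h, Finset.prod_empty]
    · rw [if_neg h]
      obtain ⟨i, hi⟩ := Finset.nonempty_iff_ne_empty.2 h
      exact (Finset.prod_eq_zero hi (MvPolynomial.constantCoeff_X _ _)).symm
  | cons H l ih =>
    intro S
    unfold permC
    rw [List.map_cons, phiC_cons, DD_prod, map_sum]
    refine Finset.sum_congr rfl fun i _ => ?_
    rw [map_smul, smul_eq_mul, ih]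

/-- real weights: every monomial of `Q` has weighted degree at most `D` -/
def WDegC (ℓ : ℕ → ℝ) (D : ℝ) (Q : QC) : Prop := ∀ m ∈ Q.support, (m.sum fun j e => ℓ j * (e : ℝ)) ≤ D

/-- evaluation at the conjugate prime sums -/
noncomputable def evc (B : ℕ → ℝ → ℂ) (W T t : ℝ) : QC →ₐ[ℂ] ℂ := MvPolynomial.aeval fun j => conj (BB (B j) W T t)

lemma continuous_evc (B : ℕ → ℝ → ℂ) (W T : ℝ) (Q : QC) : Continuous fun t => evc B W T t Q := by
  induction Q using MvPolynomial.induction_on with
  | C a =>
    have : (fun t => evc B W T t (MvPolynomial.C a)) = fun _ => a := by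
      funext t
      unfold evc
      rw [MvPolynomial.aeval_C]
      rfl
    rw [this]
    exact continuous_const
  | add P Q hP hQ => simp only [map_add]; exact hP.add hQ
  | mul_X P i hP =>
    simp only [map_mul]
    refine hP.mul ?_
    unfold evc
    simp only [MvPolynomial.aeval_X]
    exact Complex.continuous_conj.comp (continuous_BB _ _ _)

lemma sum_toMultiset (ℓ : ℕ → ℝ) (m : ℕ →₀ ℕ) : ((Finsupp.toMultiset m).map ℓ).sum = m.sum fun j e => ℓ j * (e : ℝ) := by
  classical
  induction m using Finsupp.induction with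
  | zero => simp
  | single_add a b g ha hb ih =>
    rw [map_add, Multiset.map_add, Multiset.sum_add, ih,
      Finsupp.sum_add_index' (by simp) (by intro i a b; push_cast; ring), Finsupp.toMultiset_single,
      Finsupp.sum_single_index (by simp), Multiset.map_nsmul, Multiset.map_singleton, Multiset.sum_nsmul,
      Multiset.sum_singleton, nsmul_eq_mul, mul_comm]

/-- every monomial is a product over a finite set with a labelling -/
lemma exists_label (m : ℕ →₀ ℕ) : ∃ (S : Finset ℕ) (f : ℕ → ℕ), (∏ i ∈ S, (MvPolynomial.X (f i) : QC)) = MvPolynomial.monomial m 1 ∧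
    ∀ ℓ : ℕ → ℝ, ∑ i ∈ S, ℓ (f i) = m.sum fun j e => ℓ j * (e : ℝ) := by
  classical
  have hlist : ∀ L : List ℕ, ∃ (S : Finset ℕ) (f : ℕ → ℕ), (∀ i ∈ S, i < L.length) ∧
      (∏ i ∈ S, (MvPolynomial.X (f i) : QC)) = (L.map fun j => (MvPolynomial.X j : QC)).prod ∧
      ∀ ℓ : ℕ → ℝ, ∑ i ∈ S, ℓ (f i) = (L.map ℓ).sum := by
    intro L
    induction L with
    | nil => exact ⟨∅, id, by simp, by simp, by simp⟩
    | cons a L ih =>
      obtain ⟨S, f, h0, h1, h2⟩ := ih
      have hn : L.length ∉ S := fun h => absurd (h0 _ h) (lt_irrefl _)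
      have hf : ∀ i ∈ S, Function.update f L.length a i = f i := fun i hi =>
        Function.update_of_ne (fun h => hn (by rw [← h]; exact hi)) _ _
      refine ⟨insert L.length S, Function.update f L.length a, ?_, ?_, fun ℓ => ?_⟩
      · intro i hi
        rw [List.length_cons]
        rcases Finset.mem_insert.1 hi with h | h
        · omega
        · have := h0 i h
          omega
      · rw [Finset.prod_insert hn, Function.update_self, List.map_cons, List.prod_cons, ← h1]
        congr 1
        exact Finset.prod_congr rfl fun i hi => by rw [hf i hi]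
      · rw [Finset.sum_insert hn, Function.update_self, List.map_cons, List.sum_cons, ← h2]
        congr 1
        exact Finset.sum_congr rfl fun i hi => by rw [hf i hi]
  obtain ⟨S, f, -, h1, h2⟩ := hlist (Finsupp.toMultiset m).toList
  refine ⟨S, f, ?_, fun ℓ => ?_⟩
  · rw [h1, ← Multiset.prod_coe, ← Multiset.map_coe, Multiset.coe_toList, Finsupp.toMultiset_map, Finsupp.prod_toMultiset,
      Finsupp.prod_mapDomain_index (fun b => pow_zero b) (fun b m₁ m₂ => pow_add b m₁ m₂)]
    rw [MvPolynomial.monomial_eq, map_one, one_mul]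
  · rw [h2, ← Multiset.sum_coe, ← Multiset.map_coe, Multiset.coe_toList]
    exact sum_toMultiset ℓ m

/-- **Wick theorem, polynomial short side** -/
theorem wickQ {v : ℝ → ℝ} (hv : Wgt v) {W : ℝ} (hW : 1 ≤ W) {Hs : List (ℝ → ℂ)}
    (hH : ∀ H ∈ Hs, Continuous H ∧ ∃ B : ℝ, ∀ x, ‖H x‖ ≤ B) {B : ℕ → ℝ → ℂ} {ℓ : ℕ → ℝ} (hℓ : ∀ j, 0 ≤ ℓ j)
    (hB : ∀ j, Sh (ℓ j) (B j)) {D : ℝ} (hD : D < 1) {Q : QC} (hQ : WDegC ℓ D Q) :
    Tendsto (fun T => EC v T (fun t => (Hs.map fun H => BB H W T t).prod * evc B W T t Q)) atTop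
      (𝓝 (((∫ x, v x : ℝ) : ℂ) * phiC (Hs.map fun H j => ipc H (B j)) Q)) := by
  classical
  have hmono : ∀ m ∈ Q.support, Tendsto (fun T => EC v T (fun t => (Hs.map fun H => BB H W T t).prod *
      evc B W T t (MvPolynomial.monomial m 1))) atTop
      (𝓝 (((∫ x, v x : ℝ) : ℂ) * phiC (Hs.map fun H j => ipc H (B j)) (MvPolynomial.monomial m 1))) := by
    intro m hm
    obtain ⟨S, f, h1, h2⟩ := exists_label m
    have h3 := wick hv hW hH (S := S) (ℓ := fun i => ℓ (f i)) (fun i _ => hℓ _) (by
      rw [h2]
      exact lt_of_le_of_lt (hQ m hm) hD) (G := fun i => B (f i)) (fun i _ => hB _)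
    unfold Wk at h3
    rw [permC_eq, h1] at h3
    refine h3.congr fun T => ?_
    congr 1
    funext t
    congr 1
    rw [← h1, map_prod, map_prod]
    refine Finset.prod_congr rfl fun i _ => ?_
    unfold evc
    rw [MvPolynomial.aeval_X]
  have e : Q = ∑ m ∈ Q.support, Q.coeff m • MvPolynomial.monomial m (1 : ℂ) := by
    conv_lhs => rw [Q.as_sum]
    refine Finset.sum_congr rfl fun m _ => ?_
    rw [MvPolynomial.smul_monomial, smul_eq_mul, mul_one]
  have hlim : Tendsto (fun T => ∑ m ∈ Q.support, Q.coeff m * EC v T (fun t => (Hs.map fun H => BB H W T t).prod *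
      evc B W T t (MvPolynomial.monomial m 1))) atTop
      (𝓝 (∑ m ∈ Q.support, Q.coeff m * (((∫ x, v x : ℝ) : ℂ) * phiC (Hs.map fun H j => ipc H (B j)) (MvPolynomial.monomial m 1)))) :=
    tendsto_finsetSum _ fun m hm => (hmono m hm).const_mul _
  have e2 : (∑ m ∈ Q.support, Q.coeff m * (((∫ x, v x : ℝ) : ℂ) * phiC (Hs.map fun H j => ipc H (B j)) (MvPolynomial.monomial m 1))) =
      ((∫ x, v x : ℝ) : ℂ) * phiC (Hs.map fun H j => ipc H (B j)) Q := by
    conv_rhs => rw [e, map_sum, Finset.mul_sum]
    refine Finset.sum_congr rfl fun m _ => ?_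
    rw [map_smul, smul_eq_mul]
    ring
  rw [e2] at hlim
  refine hlim.congr' ?_
  filter_upwards [eventually_gt_atTop 0] with T hT
  rw [← Vb_EC_sum hv hT Q.support (fun m => Q.coeff m) (fun m t => (Hs.map fun H => BB H W T t).prod *
      evc B W T t (MvPolynomial.monomial m 1)) (fun m _ => (continuous_prod_BB Hs W T).mul (continuous_evc B W T _))]
  congr 1
  funext t
  conv_rhs => rw [e]
  rw [map_sum, Finset.mul_sum]
  refine Finset.sum_congr rfl fun m _ => ?_
  rw [map_smul, smul_eq_mul]
  ring

end Pool.Agent.H24.AH
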