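import Mathlib
import Pool.Agent.H24.HF.Defs
import Pool.Agent.H14.GP.Gb
import Pool.Agent.H24.AH.Wf

/-!
# MP_103a5c_AH, block W (general Wick theorem), part g: `wick_hm`

`h_m(B) = cf (-1) (BB B_j)_m` (coefficients of `exp(-∑ BB(B_j) x^j)`), cells `B_j` supported in `[a, ρ j]`, `ρ m < 1`.
For continuous bounded `A_j` (any length `W`) and a polynomial `R`:
`E_T[R(BB A) conj h_m(B)] → (∫v) coeff_m R(-κ_A)`, `κ_A = ∑_j ipc A (B j) x^j`.
-/

open MeasureTheory Set Filter Topology
open scoped Real ContDiff ComplexConjugate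

namespace Pool.Agent.H24.AH

open Pool.Agent Pool.Agent.H6 Pool.Agent.H14.GP Pool.Agent.H24.HF

/-! ### degree of `cf (-1) X m` -/

lemma WDegC.mono {ℓ : ℕ → ℝ} {D D' : ℝ} {Q : QC} (h : WDegC ℓ D Q) (hD : D ≤ D') : WDegC ℓ D' Q :=
  fun m hm => (h m hm).trans hD

lemma WDegC.smulR {ℓ : ℕ → ℝ} {D : ℝ} {Q : QC} (h : WDegC ℓ D Q) (c : ℝ) : WDegC ℓ D (c • Q) :=
  fun m hm => h m (MvPolynomial.support_smul hm)

lemma WDegC.sum {ℓ : ℕ → ℝ} {D : ℝ} {ι : Type*} (s : Finset ι) {Q : ι → QC} (h : ∀ i ∈ s, WDegC ℓ D (Q i)) :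
    WDegC ℓ D (∑ i ∈ s, Q i) := by
  classical
  intro m hm
  have := MvPolynomial.support_sum hm
  rw [Finset.mem_biUnion] at this
  obtain ⟨i, hi, hm'⟩ := this
  exact h i hi m hm'

lemma WDegC.X_mul {ℓ : ℕ → ℝ} {D : ℝ} {Q : QC} (h : WDegC ℓ D Q) (j : ℕ) : WDegC ℓ (ℓ j + D) (MvPolynomial.X j * Q) := by
  classical
  intro m hm
  rw [MvPolynomial.support_X_mul, Finset.mem_map] at hm
  obtain ⟨m', hm', rfl⟩ := hm
  simp only [addLeftEmbedding_apply]
  rw [Finsupp.sum_add_index' (by intro i; push_cast; ring) (by intro i a b; push_cast; ring),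
    Finsupp.sum_single_index (by push_cast; ring)]
  have := h m' hm'
  push_cast
  linarith

lemma WDegC_cf {ρ : ℝ} (m : ℕ) : WDegC (fun j => ρ * j) (ρ * m) (cf (-1) (fun j => (MvPolynomial.X j : QC)) m) := by
  induction m using Nat.strong_induction_on with
  | _ n ih =>
    rcases n with _ | n
    · rw [cf_zero]
      intro m hm
      have : m = 0 := by
        rw [MvPolynomial.mem_support_iff, MvPolynomial.coeff_one] at hm
        by_contra h
        exact hm (if_neg (Ne.symm h))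
      rw [this, Finsupp.sum_zero_index]
      push_cast
      rw [mul_zero]
    · rw [cf_succ]
      refine WDegC.smulR (WDegC.sum _ fun j hj => ?_) _
      rw [Finset.mem_range] at hj
      have h1 := ((ih (n - j) (by omega)).X_mul (j + 1)).smulR ((j : ℝ) + 1)
      refine h1.mono (le_of_eq ?_)
      have : ((n - j : ℕ) : ℝ) = (n : ℝ) - j := Nat.cast_sub (by omega)
      push_cast
      rw [this]
      ring

/-! ### the functional on `cf (-1) X m` -/

/-- the generating series of `cf (-1) X` -/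
noncomputable def Hser : PowerSeries QC := PowerSeries.mk fun k => cf (-1) (fun j => (MvPolynomial.X j : QC)) k

/-- coefficients in `QC` -/
noncomputable def mC : PowerSeries ℂ →+* PowerSeries QC := PowerSeries.map (MvPolynomial.C : ℂ →+* QC)

lemma coeff_mC (P : PowerSeries ℂ) (n : ℕ) : PowerSeries.coeff n (mC P) = MvPolynomial.C (PowerSeries.coeff n P) := by
  unfold mC
  rw [PowerSeries.coeff_map]

lemma DD_Hser (κ : ℕ → ℂ) (h0 : κ 0 = 0) (k : ℕ) :
    DD κ (PowerSeries.coeff k Hser) = PowerSeries.coeff k (mC (-(PowerSeries.mk κ)) * Hser) := by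
  unfold Hser
  rw [PowerSeries.coeff_mk]
  have h1 := der_cf_gen ((DD κ).restrictScalars ℝ) (-1) (fun j => (MvPolynomial.X j : QC)) k
  have h2 : ((DD κ).restrictScalars ℝ) (cf (-1) (fun j => (MvPolynomial.X j : QC)) k) = DD κ (cf (-1) (fun j => (MvPolynomial.X j : QC)) k) := rfl
  rw [← h2, h1, PowerSeries.coeff_mul, Finset.Nat.antidiagonal_eq_map, Finset.sum_map, Finset.sum_range_succ']
  simp only [Function.Embedding.coeFn_mk, coeff_mC, PowerSeries.coeff_mk, map_neg, h0, map_zero, neg_zero, zero_mul, add_zero]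
  rw [neg_smul, one_smul, ← Finset.sum_neg_distrib]
  refine Finset.sum_congr rfl fun j _ => ?_
  have h3 : ((DD κ).restrictScalars ℝ) (MvPolynomial.X (j + 1) : QC) = MvPolynomial.C (κ (j + 1)) := DD_X κ (j + 1)
  rw [h3, neg_mul]

lemma DD_coeff (κ : ℕ → ℂ) (h0 : κ 0 = 0) (P : PowerSeries ℂ) (m : ℕ) :
    DD κ (PowerSeries.coeff m (mC P * Hser)) = PowerSeries.coeff m (mC (-(PowerSeries.mk κ) * P) * Hser) := by
  have h1 : mC (-(PowerSeries.mk κ) * P) * Hser = mC P * (mC (-(PowerSeries.mk κ)) * Hser) := by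
    rw [map_mul]
    ring
  rw [h1, PowerSeries.coeff_mul, PowerSeries.coeff_mul, map_sum]
  refine Finset.sum_congr rfl fun p _ => ?_
  rw [coeff_mC, ← DD_Hser κ h0, ← MvPolynomial.smul_eq_C_mul, Derivation.map_smul, MvPolynomial.smul_eq_C_mul]

lemma DDL_coeff (l : List (ℕ → ℂ)) : (∀ κ ∈ l, κ 0 = 0) → ∀ (P : PowerSeries ℂ) (m : ℕ),
    DDL l (PowerSeries.coeff m (mC P * Hser)) =
      PowerSeries.coeff m (mC ((l.map fun κ => -(PowerSeries.mk κ)).prod * P) * Hser) := by
  induction l with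
  | nil =>
    intro _ P m
    rw [List.map_nil, List.prod_nil, one_mul]
    rfl
  | cons κ l ih =>
    intro h P m
    show DDL l (DD κ (PowerSeries.coeff m (mC P * Hser))) = _
    rw [DD_coeff κ (h κ List.mem_cons_self), ih fun κ' hκ' => h κ' (List.mem_cons_of_mem _ hκ'), List.map_cons, List.prod_cons]
    congr 3
    ring

lemma const_cf (k : ℕ) : MvPolynomial.constantCoeff (cf (-1) (fun j => (MvPolynomial.X j : QC)) k) = if k = 0 then 1 else 0 := by
  rcases k with _ | k
  · rw [cf_zero, map_one, if_pos rfl]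
  · rw [if_neg (Nat.succ_ne_zero k), cf_succ, MvPolynomial.constantCoeff_smul, map_sum, Finset.sum_eq_zero, smul_zero]
    intro j _
    rw [MvPolynomial.constantCoeff_smul, map_mul, MvPolynomial.constantCoeff_X, zero_mul, smul_zero]

/-- the functional on `cf (-1) X m` -/
lemma phiC_cf (l : List (ℕ → ℂ)) (h : ∀ κ ∈ l, κ 0 = 0) (m : ℕ) :
    phiC l (cf (-1) (fun j => (MvPolynomial.X j : QC)) m) = PowerSeries.coeff m (l.map fun κ => -(PowerSeries.mk κ)).prod := by
  show MvPolynomial.constantCoeff (DDL l (cf (-1) (fun j => (MvPolynomial.X j : QC)) m)) = _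
  have h1 : cf (-1) (fun j => (MvPolynomial.X j : QC)) m = PowerSeries.coeff m (mC 1 * Hser) := by
    rw [map_one, one_mul]
    unfold Hser
    rw [PowerSeries.coeff_mk]
  rw [h1, DDL_coeff l h, mul_one, PowerSeries.coeff_mul, map_sum, Finset.sum_eq_single (m, 0)]
  · rw [map_mul, coeff_mC, MvPolynomial.constantCoeff_C]
    unfold Hser
    rw [PowerSeries.coeff_mk, const_cf, if_pos rfl, mul_one]
  · intro p hp hne
    rw [map_mul]
    unfold Hser
    rw [PowerSeries.coeff_mk, const_cf, if_neg, mul_zero]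
    intro h0
    apply hne
    rw [Finset.HasAntidiagonal.mem_antidiagonal, h0, add_zero] at hp
    exact Prod.ext hp h0
  · intro hn
    exact absurd (Finset.HasAntidiagonal.mem_antidiagonal.2 (add_zero m)) hn

/-! ### `wick_hm` -/

lemma conj_cf (y : ℕ → ℂ) (m : ℕ) : conj (cf (-1) y m) = cf (-1) (fun j => conj (y j)) m := by
  have := cf_map (Complex.conjAe.toAlgHom) (-1) y m
  exact this

/-- `conj h_m(B)` is the value of `cf (-1) X m` -/
lemma evc_cf (B : ℕ → ℝ → ℂ) (W T t : ℝ) (m : ℕ) :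
    evc B W T t (cf (-1) (fun j => (MvPolynomial.X j : QC)) m) = conj (cf (-1) (fun j => BB (B j) W T t) m) := by
  have h1 := cf_map ((evc B W T t).restrictScalars ℝ) (-1) (fun j => (MvPolynomial.X j : QC)) m
  have h2 : ((evc B W T t).restrictScalars ℝ) (cf (-1) (fun j => (MvPolynomial.X j : QC)) m) =
    evc B W T t (cf (-1) (fun j => (MvPolynomial.X j : QC)) m) := rfl
  rw [← h2, h1, conj_cf]
  congr 1
  funext j
  show evc B W T t (MvPolynomial.X j) = _
  unfold evc
  rw [MvPolynomial.aeval_X]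

/-- `κ_A = ∑_j ipc A (B j) x^j` -/
noncomputable def kap (B : ℕ → ℝ → ℂ) (A : ℝ → ℂ) : PowerSeries ℂ := PowerSeries.mk fun j => ipc A (B j)

lemma ipc_zero_right {G : ℝ → ℂ} (hG : ∀ x, G x = 0) (A : ℝ → ℂ) : ipc A G = 0 := by
  unfold ipc
  simp only [hG, map_zero, mul_zero, zero_div, integral_zero]

lemma Sh.zero {G : ℝ → ℂ} (h : Sh 0 G) (x : ℝ) : G x = 0 := by
  obtain ⟨a, ha, h2⟩ := h.low
  rcases le_or_gt 0 x with hx | hx
  · exact h.high x hx
  · exact h2 x (hx.le.trans ha.le)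

/-- mean values of a product of prime sums with `conj h_m(B)` -/
theorem wick_hm_list {v : ℝ → ℝ} (hv : Wgt v) {W : ℝ} (hW : 1 ≤ W) {Hs : List (ℝ → ℂ)}
    (hH : ∀ H ∈ Hs, Continuous H ∧ ∃ B : ℝ, ∀ x, ‖H x‖ ≤ B) {B : ℕ → ℝ → ℂ} {ρ : ℝ} (hρ : 0 ≤ ρ)
    (hB : ∀ j : ℕ, Sh (ρ * j) (B j)) {m : ℕ} (hm : ρ * m < 1) :
    Tendsto (fun T => EC v T (fun t => (Hs.map fun H => BB H W T t).prod * conj (cf (-1) (fun j => BB (B j) W T t) m))) atTop
      (𝓝 (((∫ x, v x : ℝ) : ℂ) * PowerSeries.coeff m (Hs.map fun H => -(kap B H)).prod)) := by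
  have h1 := wickQ hv hW hH (B := B) (ℓ := fun j => ρ * j) (fun j => by positivity) hB hm (WDegC_cf m)
  rw [phiC_cf] at h1
  · rw [List.map_map] at h1
    simp only [evc_cf] at h1
    exact h1
  · intro κ hκ
    rw [List.mem_map] at hκ
    obtain ⟨H, -, rfl⟩ := hκ
    refine ipc_zero_right (fun x => ?_) H
    have := hB 0
    rw [Nat.cast_zero, mul_zero] at this
    exact this.zero x

lemma continuous_cfBB (B : ℕ → ℝ → ℂ) (W T : ℝ) (m : ℕ) : Continuous fun t => conj (cf (-1) (fun j => BB (B j) W T t) m) := by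
  simp only [← evc_cf]
  exact continuous_evc _ _ _ _

lemma monomial_list (μ : ℕ →₀ ℕ) : (MvPolynomial.monomial μ (1 : ℂ) : QC) =
    ((Finsupp.toMultiset μ).toList.map fun j => (MvPolynomial.X j : QC)).prod := by
  classical
  rw [← Multiset.prod_coe, ← Multiset.map_coe, Multiset.coe_toList, Finsupp.toMultiset_map, Finsupp.prod_toMultiset,
      Finsupp.prod_mapDomain_index (fun b => pow_zero b) (fun b m₁ m₂ => pow_add b m₁ m₂)]
  rw [MvPolynomial.monomial_eq, map_one, one_mul]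

/-- **mean values of a polynomial in prime sums with `conj h_m(B)`** -/
theorem wick_hm {v : ℝ → ℝ} (hv : Wgt v) {W : ℝ} (hW : 1 ≤ W) {A : ℕ → ℝ → ℂ}
    (hA : ∀ j, Continuous (A j) ∧ ∃ B : ℝ, ∀ x, ‖A j x‖ ≤ B) {B : ℕ → ℝ → ℂ} {ρ : ℝ} (hρ : 0 ≤ ρ)
    (hB : ∀ j : ℕ, Sh (ρ * j) (B j)) {m : ℕ} (hm : ρ * m < 1) (R : QC) :
    Tendsto (fun T => EC v T (fun t => MvPolynomial.aeval (fun j => BB (A j) W T t) R *
      conj (cf (-1) (fun j => BB (B j) W T t) m))) atTop
      (𝓝 (((∫ x, v x : ℝ) : ℂ) * PowerSeries.coeff m (MvPolynomial.aeval (fun j => -(kap B (A j))) R))) := by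
  classical
  have hmono : ∀ μ : ℕ →₀ ℕ, Tendsto (fun T => EC v T (fun t =>
      MvPolynomial.aeval (fun j => BB (A j) W T t) (MvPolynomial.monomial μ (1 : ℂ)) *
      conj (cf (-1) (fun j => BB (B j) W T t) m))) atTop
      (𝓝 (((∫ x, v x : ℝ) : ℂ) * PowerSeries.coeff m (MvPolynomial.aeval (fun j => -(kap B (A j))) (MvPolynomial.monomial μ (1 : ℂ))))) := by
    intro μ
    have h1 := wick_hm_list hv hW (Hs := (Finsupp.toMultiset μ).toList.map A) (fun H hH => by
      rw [List.mem_map] at hH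
      obtain ⟨j, -, rfl⟩ := hH
      exact hA j) hρ hB hm
    have e1 : ∀ T t : ℝ, MvPolynomial.aeval (fun j => BB (A j) W T t) (MvPolynomial.monomial μ (1 : ℂ)) =
        (((Finsupp.toMultiset μ).toList.map A).map fun H => BB H W T t).prod := by
      intro T t
      rw [monomial_list, map_list_prod, List.map_map, List.map_map]
      congr 1
      refine List.map_congr_left fun j _ => ?_
      rw [Function.comp_apply, Function.comp_apply, MvPolynomial.aeval_X]
    have e2 : MvPolynomial.aeval (fun j => -(kap B (A j))) (MvPolynomial.monomial μ (1 : ℂ)) =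
        (((Finsupp.toMultiset μ).toList.map A).map fun H => -(kap B H)).prod := by
      rw [monomial_list, map_list_prod, List.map_map, List.map_map]
      congr 1
      refine List.map_congr_left fun j _ => ?_
      rw [Function.comp_apply, Function.comp_apply, MvPolynomial.aeval_X]
    simp only [e1, e2]
    exact h1
  have e : R = ∑ μ ∈ R.support, R.coeff μ • MvPolynomial.monomial μ (1 : ℂ) := by
    conv_lhs => rw [R.as_sum]
    refine Finset.sum_congr rfl fun μ _ => ?_
    rw [MvPolynomial.smul_monomial, smul_eq_mul, mul_one]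
  have hc : ∀ (T : ℝ) (μ : ℕ →₀ ℕ), Continuous fun t => MvPolynomial.aeval (fun j => BB (A j) W T t) (MvPolynomial.monomial μ (1 : ℂ)) *
      conj (cf (-1) (fun j => BB (B j) W T t) m) := by
    intro T μ
    refine Continuous.mul ?_ (continuous_cfBB _ _ _ _)
    have : (fun t => MvPolynomial.aeval (fun j => BB (A j) W T t) (MvPolynomial.monomial μ (1 : ℂ))) =
        fun t => μ.prod fun j e => BB (A j) W T t ^ e := by
      funext t
      rw [MvPolynomial.aeval_monomial, map_one, one_mul]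
    rw [this]
    unfold Finsupp.prod
    exact continuous_finsetProd _ fun j _ => (continuous_BB _ _ _).pow _
  have hlim : Tendsto (fun T => ∑ μ ∈ R.support, R.coeff μ * EC v T (fun t =>
      MvPolynomial.aeval (fun j => BB (A j) W T t) (MvPolynomial.monomial μ (1 : ℂ)) *
      conj (cf (-1) (fun j => BB (B j) W T t) m))) atTop
      (𝓝 (∑ μ ∈ R.support, R.coeff μ * (((∫ x, v x : ℝ) : ℂ) *
        PowerSeries.coeff m (MvPolynomial.aeval (fun j => -(kap B (A j))) (MvPolynomial.monomial μ (1 : ℂ)))))) :=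
    tendsto_finsetSum _ fun μ _ => (hmono μ).const_mul _
  have e2 : (∑ μ ∈ R.support, R.coeff μ * (((∫ x, v x : ℝ) : ℂ) *
        PowerSeries.coeff m (MvPolynomial.aeval (fun j => -(kap B (A j))) (MvPolynomial.monomial μ (1 : ℂ))))) =
      ((∫ x, v x : ℝ) : ℂ) * PowerSeries.coeff m (MvPolynomial.aeval (fun j => -(kap B (A j))) R) := by
    conv_rhs => rw [e, map_sum, map_sum, Finset.mul_sum]
    refine Finset.sum_congr rfl fun μ _ => ?_
    rw [map_smul, map_smul, smul_eq_mul]
    ring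
  rw [e2] at hlim
  refine hlim.congr' ?_
  filter_upwards [eventually_gt_atTop 0] with T hT
  rw [← Vb_EC_sum hv hT R.support (fun μ => R.coeff μ) (fun μ t =>
      MvPolynomial.aeval (fun j => BB (A j) W T t) (MvPolynomial.monomial μ (1 : ℂ)) *
      conj (cf (-1) (fun j => BB (B j) W T t) m)) (fun μ _ => hc T μ)]
  congr 1
  funext t
  conv_rhs => rw [e]
  rw [map_sum, Finset.sum_mul]
  refine Finset.sum_congr rfl fun μ _ => ?_
  rw [map_smul, smul_eq_mul, mul_assoc]

end Pool.Agent.H24.AH
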