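import Mathlib
import Pool.Agent.H24.HF.Defs
import Pool.Agent.H67.HF.Defs2
import Pool.Agent.H14.GP.Gb
import Pool.Agent.H24.AH.Wg

/-!
# MP_103a5c_AH, block W (general Wick theorem), part h: explicit form of `BB`, time shifts, `wick_cf`
-/

open MeasureTheory Set Filter Topology
open scoped Real ContDiff ComplexConjugate

namespace Pool.Agent.H24.AH

open Pool.Agent Pool.Agent.H6 Pool.Agent.H14.GP Pool.Agent.H24.HF

/-! ### explicit form -/

lemma ev_bbW (H : ℝ → ℝ) {W T : ℝ} (hW : 0 < W) (hT : 1 < T) (t : ℝ) : ev t (bbW H W T) =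
    ∑ p ∈ (Finset.range (⌊T ^ W⌋₊ + 1)).filter Nat.Prime, (H (Real.log p / Real.log T) : ℂ) *
      (((p : ℝ) ^ (-(1 / 2) : ℝ) : ℝ) : ℂ) * Complex.exp (-((t * Real.log p : ℝ) : ℂ) * Complex.I) := by
  rw [bbW_eq, map_sum]
  refine Finset.sum_congr rfl fun p hp => ?_
  have hp' : p ≠ 0 := (Finset.mem_filter.1 hp).2.ne_zero
  have e : W * (Real.log p / Real.log (T ^ W)) = Real.log p / Real.log T := by
    rw [Real.log_rpow (by linarith)]
    have := Real.log_pos hT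
    field_simp
  unfold ev
  rw [MonoidAlgebra.lift_single, e]
  have hchi : chi t p = Complex.exp (-((t * Real.log p : ℝ) : ℂ) * Complex.I) := by
    show (if p = 0 then (0 : ℂ) else _) = _
    rw [if_neg hp']
  rw [hchi, Complex.real_smul, Complex.ofReal_mul]

/-- explicit form of `BB` -/
lemma BB_eq (H : ℝ → ℂ) {W T : ℝ} (hW : 0 < W) (hT : 1 < T) (t : ℝ) : BB H W T t =
    ∑ p ∈ (Finset.range (⌊T ^ W⌋₊ + 1)).filter Nat.Prime, H (Real.log p / Real.log T) *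
      (((p : ℝ) ^ (-(1 / 2) : ℝ) : ℝ) : ℂ) * Complex.exp (-((t * Real.log p : ℝ) : ℂ) * Complex.I) := by
  unfold BB
  rw [ev_bbW _ hW hT, ev_bbW _ hW hT, Finset.mul_sum, ← Finset.sum_add_distrib]
  refine Finset.sum_congr rfl fun p _ => ?_
  conv_rhs => rw [← Complex.re_add_im (H (Real.log p / Real.log T))]
  ring

/-- true time shifts: `BB H (t + s / log T) = BB (H e^{-isx}) t` -/
lemma BB_shift (H : ℝ → ℂ) {W T : ℝ} (hW : 0 < W) (hT : 1 < T) (s t : ℝ) : BB H W T (t + s / Real.log T) =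
    BB (fun x => H x * Complex.exp (-((s * x : ℝ) : ℂ) * Complex.I)) W T t := by
  rw [BB_eq _ hW hT, BB_eq _ hW hT]
  refine Finset.sum_congr rfl fun p _ => ?_
  have e : Complex.exp (-(((t + s / Real.log T) * Real.log p : ℝ) : ℂ) * Complex.I) =
      Complex.exp (-((s * (Real.log p / Real.log T) : ℝ) : ℂ) * Complex.I) * Complex.exp (-((t * Real.log p : ℝ) : ℂ) * Complex.I) := by
    rw [← Complex.exp_add]
    congr 1
    push_cast
    ring
  rw [e]
  ring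

/-- the length `W` does not matter for test functions supported in `x < 1` -/
lemma BB_cut {H : ℝ → ℂ} (hH : ∀ x, 1 ≤ x → H x = 0) {W T : ℝ} (hW : 1 ≤ W) (hT : 1 < T) (t : ℝ) : BB H W T t = BB H 1 T t := by
  rw [BB_eq _ (by linarith) hT, BB_eq _ one_pos hT]
  symm
  apply Finset.sum_subset
  · intro p hp
    rw [Finset.mem_filter, Finset.mem_range] at hp ⊢
    refine ⟨lt_of_lt_of_le hp.1 ?_, hp.2⟩
    have := Nat.floor_le_floor (Real.rpow_le_rpow_of_exponent_le hT.le hW)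
    omega
  · intro p hp hp'
    rw [Finset.mem_filter, Finset.mem_range] at hp hp'
    have h1 : ⌊T ^ (1 : ℝ)⌋₊ + 1 ≤ p := by
      by_contra h
      exact hp' ⟨by omega, hp.2⟩
    rw [Real.rpow_one] at h1
    have h2 : T ≤ p := by
      have := Nat.lt_floor_add_one T
      have h3 : ((⌊T⌋₊ + 1 : ℕ) : ℝ) ≤ (p : ℝ) := by exact_mod_cast h1
      push_cast at h3
      linarith
    rw [hH _, zero_mul, zero_mul]
    rw [le_div_iff₀ (Real.log_pos hT), one_mul]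
    exact Real.log_le_log (by linarith) h2

lemma bbW_one (G : ℝ → ℝ) (T : ℝ) : bbW G 1 T = H14.GP.bb G T := by
  unfold bbW
  rw [Real.rpow_one]
  congr 1
  funext x
  rw [one_mul]

lemma BB_bb (G : ℝ → ℝ) (T t : ℝ) : BB (fun x => (G x : ℂ)) 1 T t = ev t (H14.GP.bb G T) := by
  rw [BB_ofReal, bbW_one]

lemma hh_BB (G : ℕ → ℝ → ℝ) (T t : ℝ) (k : ℕ) :
    Pool.Agent.H67.HF.hh G T t k = cf (-1) (fun j => BB (fun x => (G j x : ℂ)) 1 T t) k := by
  unfold Pool.Agent.H67.HF.hh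
  simp only [BB_bb]

/-! ### algebra of `cf` -/

lemma cf_congr {𝒜 : Type*} [CommRing 𝒜] [Algebra ℝ 𝒜] (c : ℝ) {y y' : ℕ → 𝒜} (h : ∀ j, 1 ≤ j → y j = y' j) (n : ℕ) :
    cf c y n = cf c y' n := by
  induction n using Nat.strong_induction_on with
  | _ n ih =>
    rcases n with _ | n
    · rw [cf_zero, cf_zero]
    · rw [cf_succ, cf_succ]
      congr 1
      refine Finset.sum_congr rfl fun j _ => ?_
      rw [h (j + 1) (by omega), ih (n - j) (by omega)]

lemma cf_neg_neg {𝒜 : Type*} [CommRing 𝒜] [Algebra ℝ 𝒜] (c : ℝ) (y : ℕ → 𝒜) (n : ℕ) :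
    cf (-c) (fun j => -(y j)) n = cf c y n := by
  induction n using Nat.strong_induction_on with
  | _ n ih =>
    rcases n with _ | n
    · rw [cf_zero, cf_zero]
    · rw [cf_succ, cf_succ, neg_div, neg_smul, ← smul_neg, ← Finset.sum_neg_distrib]
      congr 1
      refine Finset.sum_congr rfl fun j _ => ?_
      rw [ih (n - j) (by omega), neg_mul, smul_neg, neg_neg]

lemma cf_scale {𝒜 : Type*} [CommRing 𝒜] [Algebra ℝ 𝒜] (c : ℝ) (x : 𝒜) (y : ℕ → 𝒜) (n : ℕ) :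
    cf c (fun j => x ^ j * y j) n = x ^ n * cf c y n := by
  induction n using Nat.strong_induction_on with
  | _ n ih =>
    rcases n with _ | n
    · rw [cf_zero, cf_zero, pow_zero, one_mul]
    · rw [cf_succ, cf_succ, mul_smul_comm, Finset.mul_sum]
      congr 1
      refine Finset.sum_congr rfl fun j hj => ?_
      rw [Finset.mem_range] at hj
      rw [ih (n - j) (by omega), mul_smul_comm]
      congr 1
      have : x ^ (n + 1) = x ^ (j + 1) * x ^ (n - j) := by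
        rw [← pow_add]
        congr 1
        omega
      rw [this]
      ring

/-! ### `wick_cf` -/

lemma kap_single {A : ℝ → ℂ} {B : ℕ → ℝ → ℂ} {j : ℕ} (h : ∀ i, i ≠ j → ipc A (B i) = 0) :
    kap B A = PowerSeries.X ^ j * PowerSeries.C (ipc A (B j)) := by
  ext n
  unfold kap
  rw [PowerSeries.coeff_mk, PowerSeries.coeff_X_pow_mul']
  by_cases hn : n = j
  · subst hn
    rw [if_pos le_rfl, Nat.sub_self, PowerSeries.coeff_C, if_pos rfl]
  · rw [h n hn]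
    by_cases hj : j ≤ n
    · rw [if_pos hj, PowerSeries.coeff_C, if_neg (by omega)]
    · rw [if_neg hj]

lemma cf_kap {A B : ℕ → ℝ → ℂ} (horth : ∀ i j, i ≠ j → ipc (A i) (B j) = 0) (k : ℕ) :
    cf (-1) (fun j => -(kap B (A j))) k = PowerSeries.X ^ k * PowerSeries.C (cf 1 (fun j => ipc (A j) (B j)) k) := by
  rw [cf_neg_neg]
  have h1 : (fun j => kap B (A j)) = fun j => PowerSeries.X ^ j * PowerSeries.C (ipc (A j) (B j)) := by
    funext j
    exact kap_single fun i hi => horth j i (Ne.symm hi)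
  rw [h1, cf_scale]
  congr 1
  have := cf_map ((Algebra.ofId ℂ (PowerSeries ℂ)).restrictScalars ℝ) 1 (fun j => ipc (A j) (B j)) k
  exact this.symm

/-- mean values of `P_H^i h_k(A) conj h_m(B)` -/
theorem wick_cf {v : ℝ → ℝ} (hv : Wgt v) {W : ℝ} (hW : 1 ≤ W) {A B : ℕ → ℝ → ℂ}
    (hA : ∀ j, Continuous (A j) ∧ ∃ K : ℝ, ∀ x, ‖A j x‖ ≤ K) {ρ : ℝ} (hρ : 0 ≤ ρ)
    (hB : ∀ j : ℕ, Sh (ρ * j) (B j)) (horth : ∀ i j, i ≠ j → ipc (A i) (B j) = 0)
    {H : ℝ → ℂ} (hH : Continuous H ∧ ∃ K : ℝ, ∀ x, ‖H x‖ ≤ K) (i k : ℕ) {m : ℕ} (hm : ρ * m < 1) :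
    Tendsto (fun T => EC v T (fun t => BB H W T t ^ i * (cf (-1) (fun j => BB (A j) W T t) k *
      conj (cf (-1) (fun j => BB (B j) W T t) m)))) atTop
      (𝓝 (((∫ x, v x : ℝ) : ℂ) * if k ≤ m then cf 1 (fun j => ipc (A j) (B j)) k *
        PowerSeries.coeff (m - k) ((-(kap B H)) ^ i) else 0)) := by
  obtain ⟨𝒜, h𝒜0, h𝒜1⟩ : ∃ 𝒜 : ℕ → ℝ → ℂ, 𝒜 0 = H ∧ ∀ j, 1 ≤ j → 𝒜 j = A j :=
    ⟨fun j => if j = 0 then H else A j, if_pos rfl, fun j hj => if_neg (by omega)⟩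
  have h𝒜 : ∀ j, Continuous (𝒜 j) ∧ ∃ K : ℝ, ∀ x, ‖𝒜 j x‖ ≤ K := by
    intro j
    rcases Nat.eq_zero_or_pos j with h | h
    · rw [h, h𝒜0]
      exact hH
    · rw [h𝒜1 j h]
      exact hA j
  have h1 := wick_hm hv hW h𝒜 hρ hB hm (MvPolynomial.X 0 ^ i * cf (-1) (fun j => (MvPolynomial.X j : QC)) k)
  have e1 : ∀ (𝒞 : Type) [CommRing 𝒞] [Algebra ℂ 𝒞] [Algebra ℝ 𝒞] [IsScalarTower ℝ ℂ 𝒞] (y : ℕ → 𝒞),
      MvPolynomial.aeval y (MvPolynomial.X 0 ^ i * cf (-1) (fun j => (MvPolynomial.X j : QC)) k) =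
      y 0 ^ i * cf (-1) y k := by
    intro 𝒞 _ _ _ _ y
    rw [map_mul, map_pow, MvPolynomial.aeval_X]
    congr 1
    have := cf_map ((MvPolynomial.aeval y : QC →ₐ[ℂ] 𝒞).restrictScalars ℝ) (-1) (fun j => (MvPolynomial.X j : QC)) k
    have h2 : ((MvPolynomial.aeval y : QC →ₐ[ℂ] 𝒞).restrictScalars ℝ) (cf (-1) (fun j => (MvPolynomial.X j : QC)) k) =
      MvPolynomial.aeval y (cf (-1) (fun j => (MvPolynomial.X j : QC)) k) := rfl
    rw [← h2, this]
    congr 1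
    funext j
    exact MvPolynomial.aeval_X _ _
  have e2 : ∀ T t : ℝ, cf (-1) (fun j => BB (𝒜 j) W T t) k = cf (-1) (fun j => BB (A j) W T t) k := fun T t =>
    cf_congr _ (fun j hj => by rw [h𝒜1 j hj]) k
  have e3 : cf (-1) (fun j => -(kap B (𝒜 j))) k = cf (-1) (fun j => -(kap B (A j))) k :=
    cf_congr _ (fun j hj => by rw [h𝒜1 j hj]) k
  simp only [e1, h𝒜0, e2, e3] at h1
  have e4 : PowerSeries.coeff m ((-(kap B H)) ^ i * cf (-1) (fun j => -(kap B (A j))) k) =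
      if k ≤ m then cf 1 (fun j => ipc (A j) (B j)) k * PowerSeries.coeff (m - k) ((-(kap B H)) ^ i) else 0 := by
    rw [cf_kap horth, ← mul_assoc, PowerSeries.coeff_mul_C, PowerSeries.coeff_mul_X_pow']
    by_cases h : k ≤ m
    · rw [if_pos h, if_pos h, mul_comm]
    · rw [if_neg h, if_neg h, zero_mul]
  rw [e4] at h1
  refine h1.congr fun T => ?_
  congr 1
  funext t
  ring

end Pool.Agent.H24.AH
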