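import Mathlib
import Pool.Agent.H14.GP.Gb
import Pool.Agent.H24.AH.Wh

/-!
# MP_103a5c_AH, block P1, part a: `cf 1` as an exponential
-/

open MeasureTheory Set Filter Topology
open scoped Real ContDiff ComplexConjugate

namespace Pool.Agent.H24.AH

open Pool.Agent Pool.Agent.H6 Pool.Agent.H14.GP Pool.Agent.H24.HF

/-- `cf 1 y` are the coefficients of `exp Y`, `Y = ∑ y_j x^j` -/
theorem cf_exp (y : ℕ → ℝ) (h0 : y 0 = 0) : ∀ n K : ℕ, n < K → cf 1 y n =
    ∑ i ∈ Finset.range K, (1 / (i.factorial : ℝ)) * PowerSeries.coeff n ((PowerSeries.mk y) ^ i) := by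
  intro n
  induction n using Nat.strong_induction_on with
  | _ n ih =>
    intro K hK
    obtain ⟨K', rfl⟩ : ∃ K', K = K' + 1 := ⟨K - 1, by omega⟩
    rw [Finset.sum_range_succ']
    simp only [pow_zero, Nat.factorial_zero, Nat.cast_one, div_one, one_mul]
    rcases n with _ | m
    · rw [cf_zero, Finset.sum_eq_zero, zero_add, PowerSeries.coeff_one, if_pos rfl]
      intro i _
      have : PowerSeries.coeff 0 ((PowerSeries.mk y) ^ (i + 1)) = 0 := by
        rw [PowerSeries.coeff_zero_eq_constantCoeff_apply, map_pow, ← PowerSeries.coeff_zero_eq_constantCoeff_apply,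
          PowerSeries.coeff_mk, h0, zero_pow (Nat.succ_ne_zero i)]
      rw [this, mul_zero]
    · have hm : ((m : ℝ) + 1) ≠ 0 := by positivity
      have key : ((m : ℝ) + 1) * cf 1 y (m + 1) = ((m : ℝ) + 1) * (∑ i ∈ Finset.range K', (1 / ((i + 1).factorial : ℝ)) *
          PowerSeries.coeff (m + 1) ((PowerSeries.mk y) ^ (i + 1)) + PowerSeries.coeff (m + 1) (1 : PowerSeries ℝ)) := by
        rw [PowerSeries.coeff_one, if_neg (Nat.succ_ne_zero m), add_zero]
        have h1 := newton 1 y m
        rw [one_smul, smul_eq_mul] at h1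
        rw [h1, Finset.mul_sum]
        have h2 : ∀ i : ℕ, ((m : ℝ) + 1) * ((1 / ((i + 1).factorial : ℝ)) *
            PowerSeries.coeff (m + 1) ((PowerSeries.mk y) ^ (i + 1))) =
            ∑ j ∈ Finset.range (m + 1), ((j : ℝ) + 1) * (y (j + 1) * ((1 / (i.factorial : ℝ)) *
              PowerSeries.coeff (m - j) ((PowerSeries.mk y) ^ i))) := by
          intro i
          have h3 := PowerSeries.coeff_derivative ((PowerSeries.mk y) ^ (i + 1)) m
          rw [Derivation.leibniz_pow, Nat.add_sub_cancel] at h3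
          have h4 : PowerSeries.coeff m ((i + 1) • (PowerSeries.mk y) ^ i • PowerSeries.derivative ℝ (PowerSeries.mk y)) =
              ((i : ℝ) + 1) * ∑ j ∈ Finset.range (m + 1), ((j : ℝ) + 1) * (y (j + 1) *
                PowerSeries.coeff (m - j) ((PowerSeries.mk y) ^ i)) := by
            rw [map_nsmul, smul_eq_mul, mul_comm ((PowerSeries.mk y) ^ i), PowerSeries.coeff_mul,
              Finset.Nat.sum_antidiagonal_eq_sum_range_succ_mk, nsmul_eq_mul]
            push_cast
            congr 1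
            refine Finset.sum_congr rfl fun j _ => ?_
            rw [PowerSeries.coeff_derivative, PowerSeries.coeff_mk]
            ring
          rw [h4] at h3
          have h5 : (((i + 1).factorial : ℕ) : ℝ) = ((i : ℝ) + 1) * (i.factorial : ℝ) := by
            rw [Nat.factorial_succ]
            push_cast
            ring
          have h6 : (i.factorial : ℝ) ≠ 0 := by positivity
          have h7 : ((i : ℝ) + 1) ≠ 0 := by positivity
          have h8 : ∑ j ∈ Finset.range (m + 1), ((j : ℝ) + 1) * (y (j + 1) * ((1 / (i.factorial : ℝ)) *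
              PowerSeries.coeff (m - j) ((PowerSeries.mk y) ^ i))) =
              (1 / (i.factorial : ℝ)) * ∑ j ∈ Finset.range (m + 1), ((j : ℝ) + 1) * (y (j + 1) *
                PowerSeries.coeff (m - j) ((PowerSeries.mk y) ^ i)) := by
            rw [Finset.mul_sum]
            exact Finset.sum_congr rfl fun j _ => by ring
          rw [h8, h5]
          obtain ⟨A, hA⟩ : ∃ A, A = ∑ j ∈ Finset.range (m + 1), ((j : ℝ) + 1) * (y (j + 1) *
                PowerSeries.coeff (m - j) ((PowerSeries.mk y) ^ i)) := ⟨_, rfl⟩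
          rw [← hA] at h3 ⊢
          have h9 : ((m : ℝ) + 1) * (1 / (((i : ℝ) + 1) * (i.factorial : ℝ)) *
              PowerSeries.coeff (m + 1) ((PowerSeries.mk y) ^ (i + 1))) = 1 / (((i : ℝ) + 1) * (i.factorial : ℝ)) *
              (PowerSeries.coeff (m + 1) ((PowerSeries.mk y) ^ (i + 1)) * ((m : ℝ) + 1)) := by ring
          rw [h9, ← h3, ← mul_assoc]
          congr 1
          field_simp
        rw [Finset.sum_congr rfl fun i _ => h2 i, Finset.sum_comm]
        refine Finset.sum_congr rfl fun j hj => ?_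
        rw [Finset.mem_range] at hj
        rw [ih (m - j) (by omega) K' (by omega), smul_eq_mul, ← Finset.mul_sum, ← Finset.mul_sum]
      exact mul_left_cancel₀ hm key

lemma coeff_mul_le {P Q : PowerSeries ℝ} (hP : ∀ n, 0 ≤ PowerSeries.coeff n P) (hQ : ∀ n, 0 ≤ PowerSeries.coeff n Q) (N : ℕ) :
    ∑ n ∈ Finset.range N, PowerSeries.coeff n (P * Q) ≤
      (∑ n ∈ Finset.range N, PowerSeries.coeff n P) * ∑ n ∈ Finset.range N, PowerSeries.coeff n Q := by
  classical
  simp only [PowerSeries.coeff_mul]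
  rw [Finset.sum_mul_sum, ← Finset.sum_product', Finset.sum_sigma']
  have : ∑ x ∈ (Finset.range N).sigma fun i => Finset.HasAntidiagonal.antidiagonal i, PowerSeries.coeff x.2.1 P * PowerSeries.coeff x.2.2 Q =
      ∑ p ∈ ((Finset.range N).sigma fun i => Finset.HasAntidiagonal.antidiagonal i).image (fun x => x.2),
        PowerSeries.coeff p.1 P * PowerSeries.coeff p.2 Q := by
    rw [Finset.sum_image]
    rintro ⟨i, p⟩ h1 ⟨j, q⟩ h2 h
    simp only [Finset.coe_sigma, Set.mem_sigma_iff, Finset.mem_coe, Finset.HasAntidiagonal.mem_antidiagonal] at h1 h2 h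
    subst h
    have : i = j := by rw [← h1.2, ← h2.2]
    subst this
    rfl
  rw [this]
  refine Finset.sum_le_sum_of_subset_of_nonneg ?_ fun p _ _ => mul_nonneg (hP _) (hQ _)
  intro p hp
  rw [Finset.mem_image] at hp
  obtain ⟨⟨i, q⟩, hq, rfl⟩ := hp
  rw [Finset.mem_sigma, Finset.mem_range, Finset.HasAntidiagonal.mem_antidiagonal] at hq
  rw [Finset.mem_product, Finset.mem_range, Finset.mem_range]
  simp only at hq ⊢
  omega

lemma coeff_mul_nonneg {P Q : PowerSeries ℝ} (hP : ∀ n, 0 ≤ PowerSeries.coeff n P) (hQ : ∀ n, 0 ≤ PowerSeries.coeff n Q) (n : ℕ) :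
    0 ≤ PowerSeries.coeff n (P * Q) := by
  rw [PowerSeries.coeff_mul]
  exact Finset.sum_nonneg fun p _ => mul_nonneg (hP _) (hQ _)

lemma coeff_pow_nonneg {P : PowerSeries ℝ} (hP : ∀ n, 0 ≤ PowerSeries.coeff n P) (i n : ℕ) :
    0 ≤ PowerSeries.coeff n (P ^ i) := by
  induction i generalizing n with
  | zero =>
    rw [pow_zero, PowerSeries.coeff_one]
    split_ifs
    · exact zero_le_one
    · exact le_rfl
  | succ i ih =>
    rw [pow_succ]
    exact coeff_mul_nonneg ih hP n

lemma coeff_pow_le {P : PowerSeries ℝ} (hP : ∀ n, 0 ≤ PowerSeries.coeff n P) (N i : ℕ) :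
    ∑ n ∈ Finset.range N, PowerSeries.coeff n (P ^ i) ≤ (∑ n ∈ Finset.range N, PowerSeries.coeff n P) ^ i := by
  induction i with
  | zero =>
    simp only [pow_zero]
    rcases N with _ | N
    · rw [Finset.sum_range_zero]; exact zero_le_one
    · rw [Finset.sum_eq_single 0 (fun n _ hn => by rw [PowerSeries.coeff_one, if_neg hn])
        (fun h => absurd (Finset.mem_range.2 (Nat.succ_pos N)) h), PowerSeries.coeff_one, if_pos rfl]
  | succ i ih =>
    rw [pow_succ, pow_succ]
    refine (coeff_mul_le (coeff_pow_nonneg hP i) hP N).trans ?_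
    exact mul_le_mul_of_nonneg_right ih (Finset.sum_nonneg fun n _ => hP n)

/-- the sum of the coefficients of `exp Y` is at most `exp (∑ y_j)` -/
theorem sum_cf_le {y : ℕ → ℝ} (h0 : y 0 = 0) (hy : ∀ j, 0 ≤ y j) (N : ℕ) :
    ∑ n ∈ Finset.range N, cf 1 y n ≤ Real.exp (∑ j ∈ Finset.range N, y j) := by
  have hP : ∀ n, 0 ≤ PowerSeries.coeff n (PowerSeries.mk y) := fun n => by rw [PowerSeries.coeff_mk]; exact hy n
  have h1 : ∀ n ∈ Finset.range N, cf 1 y n =
      ∑ i ∈ Finset.range N, (1 / (i.factorial : ℝ)) * PowerSeries.coeff n ((PowerSeries.mk y) ^ i) := fun n hn =>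
    cf_exp y h0 n N (Finset.mem_range.1 hn)
  rw [Finset.sum_congr rfl h1, Finset.sum_comm]
  calc _ ≤ ∑ i ∈ Finset.range N, (∑ j ∈ Finset.range N, y j) ^ i / (i.factorial : ℝ) := by
        refine Finset.sum_le_sum fun i _ => ?_
        rw [← Finset.mul_sum, one_div, div_eq_inv_mul]
        refine mul_le_mul_of_nonneg_left ?_ (by positivity)
        have := coeff_pow_le hP N i
        simp only [PowerSeries.coeff_mk] at this
        exact this
    _ ≤ _ := Real.sum_le_exp_of_nonneg (Finset.sum_nonneg fun j _ => hy j) N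

lemma cf_nonneg {y : ℕ → ℝ} (h0 : y 0 = 0) (hy : ∀ j, 0 ≤ y j) (n : ℕ) : 0 ≤ cf 1 y n := by
  rw [cf_exp y h0 n (n + 1) (Nat.lt_succ_self n)]
  refine Finset.sum_nonneg fun i _ => mul_nonneg (by positivity) (coeff_pow_nonneg (fun n => ?_) i n)
  rw [PowerSeries.coeff_mk]
  exact hy n

end Pool.Agent.H24.AH
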