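import Mathlib
import Pool.Agent.H24.HF.Defs
import Pool.Agent.H14.GP.Va
import Pool.Agent.H14.GP.Vb
import Pool.Agent.H24.AH.Wh

/-!
# MP_103a5c_AH, block W (general Wick theorem), part i: real Gaussian moments

`X_i = Re BB(G i)`, short test functions `G i`, total length `< 1`. Expansion `Re z = (z + conj z)/2` and `wick`.
`mom_re`: mean values of `(Re A)^a (Re B)^b` for two real prime sums are the moments `gm` of two real Gaussian variables
with covariances `⟨g,g'⟩/2`.
-/

open MeasureTheory Set Filter Topology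
open scoped Real ContDiff ComplexConjugate

namespace Pool.Agent.H24.AH

open Pool.Agent Pool.Agent.H6 Pool.Agent.H14.GP Pool.Agent.H24.HF

/-- `∏_{i ∈ S} Re BB(G i)` -/
noncomputable def PR (G : ℕ → ℝ → ℂ) (S : Finset ℕ) (W T t : ℝ) : ℝ := ∏ i ∈ S, (BB (G i) W T t).re

/-- the product over `S \ J` times the conjugate of the product over `J` -/
noncomputable def PJ (G : ℕ → ℝ → ℂ) (S J : Finset ℕ) (W T t : ℝ) : ℂ :=
  (((S \ J).toList.map G).map fun H => BB H W T t).prod * conj (∏ i ∈ J, BB (G i) W T t)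

lemma PR_expand (G : ℕ → ℝ → ℂ) (S : Finset ℕ) (W T t : ℝ) :
    (PR G S W T t : ℂ) = ∑ J ∈ S.powerset, (1 / 2 : ℂ) ^ S.card * PJ G S J W T t := by
  classical
  unfold PR PJ
  rw [Complex.ofReal_prod]
  have h1 : ∀ i ∈ S, (((BB (G i) W T t).re : ℝ) : ℂ) = (1 / 2 : ℂ) * (conj (BB (G i) W T t) + BB (G i) W T t) := by
    intro i _
    rw [Complex.re_eq_add_conj]
    ring
  rw [Finset.prod_congr rfl h1, Finset.prod_mul_distrib, Finset.prod_const, Finset.prod_add, Finset.mul_sum]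
  refine Finset.sum_congr rfl fun J _ => ?_
  congr 1
  rw [map_prod, mul_comm, List.map_map]
  congr 1
  rw [← Finset.prod_map_toList]
  rfl

lemma continuous_PJ (G : ℕ → ℝ → ℂ) (S J : Finset ℕ) (W T : ℝ) : Continuous fun t => PJ G S J W T t := Wk_cont _ _ _ _ _

lemma continuous_PR (G : ℕ → ℝ → ℂ) (S : Finset ℕ) (W T : ℝ) : Continuous fun t => PR G S W T t := by
  unfold PR
  exact continuous_finsetProd _ fun i _ => Complex.continuous_re.comp (continuous_BB _ _ _)

/-- real moments -/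
noncomputable def RM (G : ℕ → ℝ → ℂ) (S : Finset ℕ) : ℂ :=
  (1 / 2 : ℂ) ^ S.card * ∑ J ∈ S.powerset, permC G ((S \ J).toList.map G) J

lemma Sh.bdd {ℓ : ℝ} {G : ℝ → ℂ} (hG : Sh ℓ G) : ∃ B : ℝ, ∀ x, ‖G x‖ ≤ B := by
  obtain ⟨a, ha, hlow⟩ := hG.low
  obtain ⟨B, hB⟩ := (isCompact_Icc (a := a) (b := ℓ)).exists_bound_of_continuousOn hG.cont.continuousOn
  refine ⟨max B 0, fun x => ?_⟩
  by_cases hx : x ∈ Icc a ℓ
  · exact (hB x hx).trans (le_max_left _ _)
  · rw [Set.mem_Icc, not_and_or, not_le, not_le] at hx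
    rcases hx with hx | hx
    · rw [hlow x hx.le, norm_zero]; exact le_max_right _ _
    · rw [hG.high x hx.le, norm_zero]; exact le_max_right _ _

lemma lim_PJ {v : ℝ → ℝ} (hv : Wgt v) {W : ℝ} (hW : 1 ≤ W) {S : Finset ℕ} {ℓ : ℕ → ℝ} (hℓ0 : ∀ i ∈ S, 0 ≤ ℓ i)
    (hℓ : ∑ i ∈ S, ℓ i < 1) {G : ℕ → ℝ → ℂ} (hG : ∀ i ∈ S, Sh (ℓ i) (G i)) (Hs : List (ℝ → ℂ))
    (hH : ∀ H ∈ Hs, Continuous H ∧ ∃ B : ℝ, ∀ x, ‖H x‖ ≤ B) {J : Finset ℕ} (hJ : J ⊆ S) :
    Tendsto (fun T => EC v T (fun t => (Hs.map fun H => BB H W T t).prod * PJ G S J W T t)) atTop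
      (𝓝 (((∫ x, v x : ℝ) : ℂ) * permC G (Hs ++ (S \ J).toList.map G) J)) := by
  have h1 : Wk v W (Hs ++ (S \ J).toList.map G) G J := wick hv hW (fun H hH' => by
    rcases List.mem_append.1 hH' with h | h
    · exact hH H h
    · rw [List.mem_map] at h
      obtain ⟨j, hj, rfl⟩ := h
      have hj' : j ∈ S := (Finset.mem_sdiff.1 (Finset.mem_toList.1 hj)).1
      exact ⟨(hG j hj').cont, (hG j hj').bdd⟩) (fun i hi => hℓ0 i (hJ hi))
      (lt_of_le_of_lt (Finset.sum_le_sum_of_subset_of_nonneg hJ fun i hi _ => hℓ0 i hi) hℓ) (fun i hi => hG i (hJ hi))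
  unfold Wk at h1
  refine h1.congr fun T => ?_
  congr 1
  funext t
  unfold PJ
  rw [List.map_append, List.prod_append]
  ring

lemma lim_PR_gen {v : ℝ → ℝ} (hv : Wgt v) {W : ℝ} (hW : 1 ≤ W) {S : Finset ℕ} {ℓ : ℕ → ℝ} (hℓ0 : ∀ i ∈ S, 0 ≤ ℓ i)
    (hℓ : ∑ i ∈ S, ℓ i < 1) {G : ℕ → ℝ → ℂ} (hG : ∀ i ∈ S, Sh (ℓ i) (G i)) (Hs : List (ℝ → ℂ))
    (hH : ∀ H ∈ Hs, Continuous H ∧ ∃ B : ℝ, ∀ x, ‖H x‖ ≤ B) :
    Tendsto (fun T => EC v T (fun t => (Hs.map fun H => BB H W T t).prod * (PR G S W T t : ℂ))) atTop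
      (𝓝 (((∫ x, v x : ℝ) : ℂ) * ((1 / 2 : ℂ) ^ S.card * ∑ J ∈ S.powerset, permC G (Hs ++ (S \ J).toList.map G) J))) := by
  classical
  have h1 : Tendsto (fun T => ∑ J ∈ S.powerset, (1 / 2 : ℂ) ^ S.card *
      EC v T (fun t => (Hs.map fun H => BB H W T t).prod * PJ G S J W T t)) atTop
      (𝓝 (∑ J ∈ S.powerset, (1 / 2 : ℂ) ^ S.card * (((∫ x, v x : ℝ) : ℂ) * permC G (Hs ++ (S \ J).toList.map G) J))) :=
    tendsto_finsetSum _ fun J hJ => (lim_PJ hv hW hℓ0 hℓ hG Hs hH (Finset.mem_powerset.1 hJ)).const_mul _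
  have e : (∑ J ∈ S.powerset, (1 / 2 : ℂ) ^ S.card * (((∫ x, v x : ℝ) : ℂ) * permC G (Hs ++ (S \ J).toList.map G) J)) =
      ((∫ x, v x : ℝ) : ℂ) * ((1 / 2 : ℂ) ^ S.card * ∑ J ∈ S.powerset, permC G (Hs ++ (S \ J).toList.map G) J) := by
    rw [Finset.mul_sum, Finset.mul_sum]
    exact Finset.sum_congr rfl fun J _ => by ring
  rw [e] at h1
  refine h1.congr' ?_
  filter_upwards [eventually_gt_atTop 0] with T hT
  rw [← Vb_EC_sum hv hT S.powerset (fun _ => (1 / 2 : ℂ) ^ S.card)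
    (fun J t => (Hs.map fun H => BB H W T t).prod * PJ G S J W T t)
    (fun J _ => (continuous_prod_BB Hs W T).mul (continuous_PJ G S J W T))]
  congr 1
  funext t
  rw [PR_expand, Finset.mul_sum]
  exact Finset.sum_congr rfl fun J _ => by ring

/-- `E[∏ Re BB(G i)] → (∫v) RM` -/
theorem lim_PR {v : ℝ → ℝ} (hv : Wgt v) {W : ℝ} (hW : 1 ≤ W) {S : Finset ℕ} {ℓ : ℕ → ℝ} (hℓ0 : ∀ i ∈ S, 0 ≤ ℓ i)
    (hℓ : ∑ i ∈ S, ℓ i < 1) {G : ℕ → ℝ → ℂ} (hG : ∀ i ∈ S, Sh (ℓ i) (G i)) :
    Tendsto (fun T => ((EE v T (fun t => PR G S W T t) : ℝ) : ℂ)) atTop (𝓝 (((∫ x, v x : ℝ) : ℂ) * RM G S)) := by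
  have h1 := lim_PR_gen hv hW hℓ0 hℓ hG [] (by simp)
  refine h1.congr fun T => ?_
  rw [← EC_ofReal]
  congr 1
  funext t
  rw [List.map_nil, List.prod_nil, one_mul]

/-- expansion along one function -/
lemma RM_step (G : ℕ → ℝ → ℂ) (H : ℝ → ℂ) (S : Finset ℕ) :
    (1 / 2 : ℂ) ^ S.card * ∑ J ∈ S.powerset, permC G (H :: (S \ J).toList.map G) J =
      ∑ i ∈ S, (1 / 2 : ℂ) * ipc H (G i) * RM G (S.erase i) := by
  classical
  have h1 : ∀ J ∈ S.powerset, permC G (H :: (S \ J).toList.map G) J =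
      ∑ i ∈ S, if i ∈ J then ipc H (G i) * permC G (((S.erase i) \ (J.erase i)).toList.map G) (J.erase i) else 0 := by
    intro J hJ
    rw [Finset.mem_powerset] at hJ
    rw [← Finset.sum_filter]
    have e : S.filter (fun i => i ∈ J) = J := by
      ext i
      rw [Finset.mem_filter]
      exact ⟨fun h => h.2, fun h => ⟨hJ h, h⟩⟩
    rw [e]
    show (∑ i ∈ J, ipc H (G i) * permC G ((S \ J).toList.map G) (J.erase i)) = _
    refine Finset.sum_congr rfl fun i hi => ?_
    have e2 : (S.erase i) \ (J.erase i) = S \ J := by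
      ext k
      rw [Finset.mem_sdiff, Finset.mem_sdiff, Finset.mem_erase, Finset.mem_erase]
      constructor
      · rintro ⟨⟨hk, hkS⟩, h⟩
        exact ⟨hkS, fun h' => h ⟨hk, h'⟩⟩
      · rintro ⟨hkS, h⟩
        exact ⟨⟨fun h' => h (by rw [h']; exact hi), hkS⟩, fun h' => h h'.2⟩
    rw [e2]
  rw [Finset.sum_congr rfl h1, Finset.sum_comm, Finset.mul_sum]
  refine Finset.sum_congr rfl fun i hi => ?_
  rw [← Finset.sum_filter]
  have h2 : (∑ J ∈ S.powerset.filter (fun J => i ∈ J), ipc H (G i) * permC G (((S.erase i) \ (J.erase i)).toList.map G) (J.erase i)) =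
      ∑ J ∈ (S.erase i).powerset, ipc H (G i) * permC G (((S.erase i) \ J).toList.map G) J := by
    refine Finset.sum_bij' (fun J _ => J.erase i) (fun J _ => insert i J) ?_ ?_ ?_ ?_ ?_
    · intro J hJ
      rw [Finset.mem_filter, Finset.mem_powerset] at hJ
      rw [Finset.mem_powerset]
      exact Finset.erase_subset_erase i hJ.1
    · intro J hJ
      rw [Finset.mem_powerset] at hJ
      rw [Finset.mem_filter, Finset.mem_powerset]
      refine ⟨?_, Finset.mem_insert_self _ _⟩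
      rw [Finset.insert_subset_iff]
      exact ⟨hi, hJ.trans (Finset.erase_subset _ _)⟩
    · intro J hJ
      rw [Finset.mem_filter] at hJ
      exact Finset.insert_erase hJ.2
    · intro J hJ
      rw [Finset.mem_powerset] at hJ
      exact Finset.erase_insert fun h => absurd (hJ h) (Finset.notMem_erase _ _)
    · intro J _
      rfl
  rw [h2, ← Finset.mul_sum]
  unfold RM
  have h3 : S.card = (S.erase i).card + 1 := by
    rw [Finset.card_erase_add_one hi]
  rw [h3, pow_succ]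
  ring

/-- the mean value of `BB H ∏ Re BB(G i)` in terms of those of `∏_{j ≠ i} Re BB(G j)` -/
theorem wickRe_step {v : ℝ → ℝ} (hv : Wgt v) {W : ℝ} (hW : 1 ≤ W) {S : Finset ℕ} {ℓ : ℕ → ℝ} (hℓ0 : ∀ i ∈ S, 0 ≤ ℓ i)
    (hℓ : ∑ i ∈ S, ℓ i < 1) {G : ℕ → ℝ → ℂ} (hG : ∀ i ∈ S, Sh (ℓ i) (G i)) {H : ℝ → ℂ}
    (hH : Continuous H ∧ ∃ B : ℝ, ∀ x, ‖H x‖ ≤ B) {h : ℕ → ℝ}
    (hh : ∀ i ∈ S, Tendsto (fun T => EE v T (fun t => PR G (S.erase i) W T t)) atTop (𝓝 ((∫ x, v x) * h i))) :
    Tendsto (fun T => EC v T (fun t => BB H W T t * (PR G S W T t : ℂ))) atTop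
      (𝓝 (((∫ x, v x : ℝ) : ℂ) * ∑ i ∈ S, (1 / 2 : ℂ) * ipc H (G i) * (h i : ℂ))) := by
  classical
  have h1 := lim_PR_gen hv hW hℓ0 hℓ hG [H] (by
    intro K hK
    rw [List.mem_singleton] at hK
    rw [hK]
    exact hH)
  simp only [List.singleton_append, List.map_cons, List.map_nil, List.prod_cons, List.prod_nil, mul_one] at h1
  rw [RM_step] at h1
  have h2 : ∀ i ∈ S, ((∫ x, v x : ℝ) : ℂ) * RM G (S.erase i) = ((∫ x, v x : ℝ) : ℂ) * (h i : ℂ) := by
    intro i hi
    have h3 := lim_PR hv hW (S := S.erase i) (fun j hj => hℓ0 j (Finset.mem_of_mem_erase hj))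
      (lt_of_le_of_lt (Finset.sum_le_sum_of_subset_of_nonneg (Finset.erase_subset _ _) fun j hj _ => hℓ0 j hj) hℓ)
      (fun j hj => hG j (Finset.mem_of_mem_erase hj))
    have h4 := (Complex.continuous_ofReal.tendsto _).comp (hh i hi)
    have h5 := tendsto_nhds_unique h3 h4
    rw [h5, Complex.ofReal_mul]
  have e : ((∫ x, v x : ℝ) : ℂ) * ∑ i ∈ S, (1 / 2 : ℂ) * ipc H (G i) * RM G (S.erase i) =
      ((∫ x, v x : ℝ) : ℂ) * ∑ i ∈ S, (1 / 2 : ℂ) * ipc H (G i) * (h i : ℂ) := by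
    rw [Finset.mul_sum, Finset.mul_sum]
    refine Finset.sum_congr rfl fun i hi => ?_
    linear_combination ((1 / 2 : ℂ) * ipc H (G i)) * h2 i hi
  rw [e] at h1
  exact h1

lemma EC_re {v : ℝ → ℝ} (hv : Wgt v) {T : ℝ} (hT : 0 < T) {f : ℝ → ℂ} (hf : Continuous f) :
    (EC v T f).re = EE v T (fun t => (f t).re) := by
  unfold EC EE
  rw [Complex.re_ofReal_mul]
  congr 1
  rw [← Complex.reCLM_apply, ← Complex.reCLM.integral_comp_comm (Vb_int hv hT hf)]
  refine integral_congr_ae (ae_of_all _ fun t => ?_)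
  show ((v (t / T) : ℂ) * f t).re = v (t / T) * (f t).re
  rw [Complex.re_ofReal_mul]

/-- the real mean value of `∏_{insert s S} Re BB(G i)` -/
theorem wickRe_insert {v : ℝ → ℝ} (hv : Wgt v) {W : ℝ} (hW : 1 ≤ W) {S : Finset ℕ} {ℓ : ℕ → ℝ} (hℓ0 : ∀ i ∈ S, 0 ≤ ℓ i)
    (hℓ : ∑ i ∈ S, ℓ i < 1) {G : ℕ → ℝ → ℂ} (hG : ∀ i ∈ S, Sh (ℓ i) (G i)) {s : ℕ} (hs : s ∉ S)
    (hH : Continuous (G s) ∧ ∃ B : ℝ, ∀ x, ‖G s x‖ ≤ B) {h : ℕ → ℝ}
    (hh : ∀ i ∈ S, Tendsto (fun T => EE v T (fun t => PR G (S.erase i) W T t)) atTop (𝓝 ((∫ x, v x) * h i))) :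
    Tendsto (fun T => EE v T (fun t => PR G (insert s S) W T t)) atTop
      (𝓝 ((∫ x, v x) * ∑ i ∈ S, (1 / 2) * (ipc (G s) (G i)).re * h i)) := by
  classical
  have h1 := wickRe_step hv hW hℓ0 hℓ hG hH hh
  have h2 := (Complex.continuous_re.tendsto _).comp h1
  have e : (((∫ x, v x : ℝ) : ℂ) * ∑ i ∈ S, (1 / 2 : ℂ) * ipc (G s) (G i) * (h i : ℂ)).re =
      (∫ x, v x) * ∑ i ∈ S, (1 / 2) * (ipc (G s) (G i)).re * h i := by
    rw [Complex.re_ofReal_mul, Complex.re_sum]
    congr 1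
    refine Finset.sum_congr rfl fun i _ => ?_
    have : (1 / 2 : ℂ) * ipc (G s) (G i) * (h i : ℂ) = ((1 / 2 * h i : ℝ) : ℂ) * ipc (G s) (G i) := by
      push_cast
      ring
    rw [this, Complex.re_ofReal_mul]
    ring
  rw [e] at h2
  refine h2.congr' ?_
  filter_upwards [eventually_gt_atTop 0] with T hT
  show (EC v T (fun t => BB (G s) W T t * (PR G S W T t : ℂ))).re = _
  have hcont : Continuous fun t => BB (G s) W T t * (PR G S W T t : ℂ) :=
    (continuous_BB _ _ _).mul (Complex.continuous_ofReal.comp (continuous_PR _ _ _ _))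
  rw [EC_re hv hT hcont]
  congr 1
  funext t
  rw [mul_comm, Complex.re_ofReal_mul]
  unfold PR
  rw [Finset.prod_insert hs, mul_comm]

/-! ### two Gaussian variables -/

/-- moments `E[x^a y^b]` of two centred Gaussian variables with `E x² = s`, `E xy = r`, `E y² = s'` -/
noncomputable def gm (s r s' : ℝ) : ℕ → ℕ → ℝ
  | 0, 0 => 1
  | 0, 1 => 0
  | 0, (b + 2) => ((b : ℝ) + 1) * s' * gm s r s' 0 b
  | 1, 0 => 0
  | 1, (b + 1) => ((b : ℝ) + 1) * r * gm s r s' 0 b
  | (a + 2), 0 => ((a : ℝ) + 1) * s * gm s r s' a 0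
  | (a + 2), (b + 1) => ((a : ℝ) + 1) * s * gm s r s' a (b + 1) + ((b : ℝ) + 1) * r * gm s r s' (a + 1) b

lemma gm_zero_succ (s r s' : ℝ) (b : ℕ) : gm s r s' 0 (b + 1) = b * s' * gm s r s' 0 (b - 1) := by
  rcases b with _ | b
  · simp [gm]
  · rw [gm, Nat.add_sub_cancel]; push_cast; ring

lemma gm_succ (s r s' : ℝ) (a b : ℕ) :
    gm s r s' (a + 1) b = a * s * gm s r s' (a - 1) b + b * r * gm s r s' a (b - 1) := by
  rcases a with _ | a
  · rcases b with _ | b
    · simp [gm]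
    · rw [gm, Nat.add_sub_cancel]; push_cast; ring
  · rcases b with _ | b
    · rw [gm, Nat.add_sub_cancel]; push_cast; ring
    · rw [gm, Nat.add_sub_cancel, Nat.add_sub_cancel]; push_cast; ring

/-- a family with two functions -/
noncomputable def two (g g' : ℝ → ℝ) (τ : ℕ → Prop) [DecidablePred τ] (i : ℕ) : ℝ → ℂ :=
  if τ i then fun x => (g x : ℂ) else fun x => (g' x : ℂ)

lemma two_moments {v : ℝ → ℝ} (hv : Wgt v) {W : ℝ} (hW : 1 ≤ W) {g g' : ℝ → ℝ} {l l' : ℝ} (hl : 0 ≤ l) (hl' : 0 ≤ l')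
    (hg : Sh l (fun x => (g x : ℂ))) (hg' : Sh l' (fun x => (g' x : ℂ))) (τ : ℕ → Prop) [DecidablePred τ] (n : ℕ) :
    ∀ S : Finset ℕ, S.card = n → (∑ i ∈ S, if τ i then l else l') < 1 →
    Tendsto (fun T => EE v T (fun t => PR (two g g' τ) S W T t)) atTop
      (𝓝 ((∫ x, v x) * gm (1 / 2 * ∫ x in Ioi (0 : ℝ), g x * g x / x) (1 / 2 * ∫ x in Ioi (0 : ℝ), g x * g' x / x)
        (1 / 2 * ∫ x in Ioi (0 : ℝ), g' x * g' x / x) (S.filter τ).card (S.filter fun i => ¬ τ i).card)) := by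
  classical
  obtain ⟨c1, hc1⟩ : ∃ c, c = 1 / 2 * ∫ x in Ioi (0 : ℝ), g x * g x / x := ⟨_, rfl⟩
  obtain ⟨c2, hc2⟩ : ∃ c, c = 1 / 2 * ∫ x in Ioi (0 : ℝ), g x * g' x / x := ⟨_, rfl⟩
  obtain ⟨c3, hc3⟩ : ∃ c, c = 1 / 2 * ∫ x in Ioi (0 : ℝ), g' x * g' x / x := ⟨_, rfl⟩
  rw [← hc1, ← hc2, ← hc3]
  have hc2' : c2 = 1 / 2 * ∫ x in Ioi (0 : ℝ), g' x * g x / x := by
    rw [hc2]
    congr 2
    funext x
    rw [mul_comm (g x)]
  have hsh : ∀ i, Sh (if τ i then l else l') (two g g' τ i) := by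
    intro i
    unfold two
    by_cases h : τ i
    · rw [if_pos h, if_pos h]; exact hg
    · rw [if_neg h, if_neg h]; exact hg'
  have hl0 : ∀ i, 0 ≤ (if τ i then l else l') := by
    intro i
    by_cases h : τ i
    · rw [if_pos h]; exact hl
    · rw [if_neg h]; exact hl'
  have hc : ∀ i j, 1 / 2 * (ipc (two g g' τ i) (two g g' τ j)).re =
      if τ i then (if τ j then c1 else c2) else (if τ j then c2 else c3) := by
    intro i j
    unfold two
    by_cases h : τ i
    · by_cases h' : τ j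
      · rw [if_pos h, if_pos h', if_pos h, if_pos h', ipc_real, Complex.ofReal_re, hc1]
      · rw [if_pos h, if_neg h', if_pos h, if_neg h', ipc_real, Complex.ofReal_re, hc2']
    · by_cases h' : τ j
      · rw [if_neg h, if_pos h', if_neg h, if_pos h', ipc_real, Complex.ofReal_re, hc2]
      · rw [if_neg h, if_neg h', if_neg h, if_neg h', ipc_real, Complex.ofReal_re, hc3]
  have hcardA : ∀ (S : Finset ℕ) (i : ℕ), i ∈ S → τ i → ((S.erase i).filter τ).card = (S.filter τ).card - 1 := by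
    intro S i hi h
    rw [Finset.filter_erase, Finset.card_erase_of_mem (Finset.mem_filter.2 ⟨hi, h⟩)]
  have hcardA' : ∀ (S : Finset ℕ) (i : ℕ), τ i → ((S.erase i).filter fun i => ¬ τ i).card = (S.filter fun i => ¬ τ i).card := by
    intro S i h
    rw [Finset.filter_erase, Finset.erase_eq_of_notMem]
    rw [Finset.mem_filter]
    exact fun h' => h'.2 h
  have hcardB : ∀ (S : Finset ℕ) (i : ℕ), i ∈ S → ¬ τ i → ((S.erase i).filter fun i => ¬ τ i).card =
      (S.filter fun i => ¬ τ i).card - 1 := by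
    intro S i hi h
    rw [Finset.filter_erase, Finset.card_erase_of_mem (Finset.mem_filter.2 ⟨hi, h⟩)]
  have hcardB' : ∀ (S : Finset ℕ) (i : ℕ), ¬ τ i → ((S.erase i).filter τ).card = (S.filter τ).card := by
    intro S i h
    rw [Finset.filter_erase, Finset.erase_eq_of_notMem]
    rw [Finset.mem_filter]
    exact fun h' => h h'.2
  induction n using Nat.strong_induction_on with
  | _ n ih =>
    intro S hS hlt
    rcases Finset.eq_empty_or_nonempty S with h0 | hne
    · subst h0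
      rw [Finset.filter_empty, Finset.filter_empty, Finset.card_empty, gm, mul_one]
      refine tendsto_const_nhds.congr' ?_
      filter_upwards [eventually_gt_atTop 0] with T hT
      have h1 := wone v hT
      have h2 := EC_ofReal v T (fun _ => (1 : ℝ))
      simp only [Complex.ofReal_one] at h2
      rw [h1] at h2
      have h3 := Complex.ofReal_injective h2
      rw [h3]
      congr 1
    · -- choose `s`, of type `A` if possible
      obtain ⟨s, hsS, hs⟩ : ∃ s ∈ S, τ s ∨ (∀ i ∈ S, ¬ τ i) := by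
        by_cases h : ∃ s ∈ S, τ s
        · obtain ⟨s, hs, hs'⟩ := h
          exact ⟨s, hs, Or.inl hs'⟩
        · push Not at h
          obtain ⟨s, hs⟩ := hne
          exact ⟨s, hs, Or.inr h⟩
      obtain ⟨S', hS'⟩ : ∃ S', S' = S.erase s := ⟨_, rfl⟩
      have hsS' : s ∉ S' := by rw [hS']; exact Finset.notMem_erase _ _
      have hins : insert s S' = S := by rw [hS']; exact Finset.insert_erase hsS
      have hcard : S'.card + 1 = n := by
        rw [← hS, ← hins, Finset.card_insert_of_notMem hsS']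
      have hlt' : (∑ i ∈ S', if τ i then l else l') < 1 := by
        refine lt_of_le_of_lt (Finset.sum_le_sum_of_subset_of_nonneg ?_ fun i _ _ => hl0 i) hlt
        rw [hS']
        exact Finset.erase_subset _ _
      have hstep := wickRe_insert hv hW (S := S') (ℓ := fun i => if τ i then l else l') (fun i _ => hl0 i) hlt'
        (G := two g g' τ) (fun i _ => hsh i) hsS' ⟨(hsh s).cont, (hsh s).bdd⟩
        (h := fun i => if τ i then gm c1 c2 c3 ((S'.filter τ).card - 1) (S'.filter fun i => ¬ τ i).card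
          else gm c1 c2 c3 (S'.filter τ).card ((S'.filter fun i => ¬ τ i).card - 1)) (by
          intro i hi
          have h1 := ih (S'.erase i).card (by
            rw [Finset.card_erase_of_mem hi]
            omega) (S'.erase i) rfl (lt_of_le_of_lt (Finset.sum_le_sum_of_subset_of_nonneg (Finset.erase_subset _ _)
              fun i _ _ => hl0 i) hlt')
          by_cases h : τ i
          · rw [hcardA _ _ hi h, hcardA' _ _ h] at h1
            simp only [if_pos h]
            exact h1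
          · rw [hcardB _ _ hi h, hcardB' _ _ h] at h1
            simp only [if_neg h]
            exact h1)
      rw [hins] at hstep
      simp only [hc] at hstep
      rcases hs with hs | hs
      · have e : (∑ i ∈ S', (if τ s then (if τ i then c1 else c2) else (if τ i then c2 else c3)) *
            (if τ i then gm c1 c2 c3 ((S'.filter τ).card - 1) (S'.filter fun i => ¬ τ i).card
              else gm c1 c2 c3 (S'.filter τ).card ((S'.filter fun i => ¬ τ i).card - 1))) =
            gm c1 c2 c3 (S.filter τ).card (S.filter fun i => ¬ τ i).card := by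
          have e1 : ∀ i ∈ S', (if τ s then (if τ i then c1 else c2) else (if τ i then c2 else c3)) *
            (if τ i then gm c1 c2 c3 ((S'.filter τ).card - 1) (S'.filter fun i => ¬ τ i).card
              else gm c1 c2 c3 (S'.filter τ).card ((S'.filter fun i => ¬ τ i).card - 1)) =
              if τ i then c1 * gm c1 c2 c3 ((S'.filter τ).card - 1) (S'.filter fun i => ¬ τ i).card
              else c2 * gm c1 c2 c3 (S'.filter τ).card ((S'.filter fun i => ¬ τ i).card - 1) := by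
            intro i _
            rw [if_pos hs]
            by_cases h : τ i
            · rw [if_pos h, if_pos h, if_pos h]
            · rw [if_neg h, if_neg h, if_neg h]
          rw [Finset.sum_congr rfl e1, Finset.sum_ite, Finset.sum_const, Finset.sum_const, nsmul_eq_mul, nsmul_eq_mul]
          have e2 : (S.filter τ).card = (S'.filter τ).card + 1 := by
            rw [hS', hcardA S s hsS hs]
            have : 0 < (S.filter τ).card := Finset.card_pos.2 ⟨s, Finset.mem_filter.2 ⟨hsS, hs⟩⟩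
            omega
          have e3 : (S.filter fun i => ¬ τ i).card = (S'.filter fun i => ¬ τ i).card := by
            rw [hS', hcardA' S s hs]
          rw [e2, e3, gm_succ]
          ring
        rw [e] at hstep
        exact hstep
      · have e : (∑ i ∈ S', (if τ s then (if τ i then c1 else c2) else (if τ i then c2 else c3)) *
            (if τ i then gm c1 c2 c3 ((S'.filter τ).card - 1) (S'.filter fun i => ¬ τ i).card
              else gm c1 c2 c3 (S'.filter τ).card ((S'.filter fun i => ¬ τ i).card - 1))) =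
            gm c1 c2 c3 (S.filter τ).card (S.filter fun i => ¬ τ i).card := by
          have hS'τ : ∀ i ∈ S', ¬ τ i := fun i hi => hs i (by rw [hS'] at hi; exact Finset.mem_of_mem_erase hi)
          have f0 : S'.filter τ = ∅ := Finset.filter_eq_empty_iff.2 fun i hi => hS'τ i hi
          have f0' : S.filter τ = ∅ := Finset.filter_eq_empty_iff.2 fun i hi => hs i hi
          have e1 : ∀ i ∈ S', (if τ s then (if τ i then c1 else c2) else (if τ i then c2 else c3)) *
            (if τ i then gm c1 c2 c3 ((S'.filter τ).card - 1) (S'.filter fun i => ¬ τ i).card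
              else gm c1 c2 c3 (S'.filter τ).card ((S'.filter fun i => ¬ τ i).card - 1)) =
              c3 * gm c1 c2 c3 0 ((S'.filter fun i => ¬ τ i).card - 1) := by
            intro i hi
            rw [if_neg (hs s hsS), if_neg (hS'τ i hi), if_neg (hS'τ i hi), f0, Finset.card_empty]
          rw [Finset.sum_congr rfl e1, Finset.sum_const, nsmul_eq_mul, f0', Finset.card_empty]
          have e3 : (S.filter fun i => ¬ τ i).card = (S'.filter fun i => ¬ τ i).card + 1 := by
            rw [hS', hcardB S s hsS (hs s hsS)]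
            have : 0 < (S.filter fun i => ¬ τ i).card := Finset.card_pos.2 ⟨s, Finset.mem_filter.2 ⟨hsS, hs s hsS⟩⟩
            omega
          have e4 : S'.card = (S'.filter fun i => ¬ τ i).card := by
            congr 1
            exact (Finset.filter_true_of_mem hS'τ).symm
          rw [e3, gm_zero_succ, ← e4]
          ring
        rw [e] at hstep
        exact hstep

/-- **mean values of `(Re A)^a (Re B)^b`** for two real prime sums, `a l + b l' < 1` -/
theorem mom_re {v : ℝ → ℝ} (hv : Wgt v) {W : ℝ} (hW : 1 ≤ W) {g g' : ℝ → ℝ} {l l' : ℝ} (hl : 0 ≤ l) (hl' : 0 ≤ l')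
    (hg : Sh l (fun x => (g x : ℂ))) (hg' : Sh l' (fun x => (g' x : ℂ))) (a b : ℕ) (hab : a * l + b * l' < 1) :
    Tendsto (fun T => EE v T (fun t => (ev t (bbW g W T)).re ^ a * (ev t (bbW g' W T)).re ^ b)) atTop
      (𝓝 ((∫ x, v x) * gm (1 / 2 * ∫ x in Ioi (0 : ℝ), g x * g x / x) (1 / 2 * ∫ x in Ioi (0 : ℝ), g x * g' x / x)
        (1 / 2 * ∫ x in Ioi (0 : ℝ), g' x * g' x / x) a b)) := by
  classical
  have hA : (Finset.range (a + b)).filter (fun i => i < a) = Finset.range a := by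
    ext i
    rw [Finset.mem_filter, Finset.mem_range, Finset.mem_range]
    omega
  have hB : ((Finset.range (a + b)).filter (fun i => ¬ i < a)).card = b := by
    have h1 := Finset.card_filter_add_card_filter_not (s := Finset.range (a + b)) (fun i => i < a)
    rw [hA, Finset.card_range, Finset.card_range] at h1
    omega
  have h := two_moments hv hW hl hl' hg hg' (fun i => i < a) (a + b) (Finset.range (a + b)) (Finset.card_range _) (by
    rw [Finset.sum_ite, Finset.sum_const, Finset.sum_const, hA, hB, Finset.card_range, nsmul_eq_mul, nsmul_eq_mul]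
    exact hab)
  rw [hA, hB, Finset.card_range] at h
  refine h.congr fun T => ?_
  congr 1
  funext t
  unfold PR two
  have e : ∀ i ∈ Finset.range (a + b), (BB (if i < a then fun x => (g x : ℂ) else fun x => (g' x : ℂ)) W T t).re =
      if i < a then (ev t (bbW g W T)).re else (ev t (bbW g' W T)).re := by
    intro i _
    by_cases h : i < a
    · rw [if_pos h, if_pos h, BB_ofReal]
    · rw [if_neg h, if_neg h, BB_ofReal]
  rw [Finset.prod_congr rfl e, Finset.prod_ite, Finset.prod_const, Finset.prod_const, hA, hB, Finset.card_range]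

end Pool.Agent.H24.AH
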