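import Mathlib
import Pool.Agent.H14.GP.Va
import Pool.Agent.H14.GP.Vb
import Pool.Agent.H24.AH.Wi
import Pool.Agent.H24.AH.Pa

/-!
# MP_103a5c_AH, block P1, part b: mean value of `|C(t) - T_d(-S(t))|²`

Real cells `B j` (disjoint supports, `B j` supported in `[a, ρ j]`, zero for `j ≥ M`, `ρ M ≤ 1`), `c_j = ∫ B_j² dx/x`,
`h_k = cf (-1) (ev t (bb (B j) T))_k`, `C = ∑_{k<M} h_k`, `S = ∑_{j ≤ J} ev t (bb (B j) T)`, `d J < M`.
`E|C - T_d(-S)|² → (∫v) (∑_{m<M} cf 1 c m - ∑_{i≤d} s^i/i!)`, `s = ∑_{j≤J} c_j`.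
-/

open MeasureTheory Set Filter Topology
open scoped Real ContDiff ComplexConjugate

namespace Pool.Agent.H24.AH

open Pool.Agent Pool.Agent.H6 Pool.Agent.H14.GP Pool.Agent.H24.HF

/-- real cells -/
structure CellR (M : ℕ) (ρ : ℝ) (B : ℕ → ℝ → ℝ) : Prop where
  rho : 0 < ρ
  len : ρ * M ≤ 1
  cont : ∀ j, Continuous (B j)
  low : ∃ a, 0 < a ∧ ∀ j x, x ≤ a → B j x = 0
  high : ∀ (j : ℕ) x, ρ * j ≤ x → B j x = 0
  disj : ∀ i j, i ≠ j → ∀ x, B i x * B j x = 0
  out : ∀ j, M ≤ j → ∀ x, B j x = 0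

/-- as complex functions -/
noncomputable def cB (B : ℕ → ℝ → ℝ) (j : ℕ) (x : ℝ) : ℂ := (B j x : ℂ)

/-- `c_j = ∫ B_j² dx/x` -/
noncomputable def cc (B : ℕ → ℝ → ℝ) (j : ℕ) : ℝ := ∫ x in Ioi (0 : ℝ), B j x * B j x / x

/-- the test function of `S` -/
noncomputable def gS (B : ℕ → ℝ → ℝ) (J : ℕ) (x : ℝ) : ℝ := ∑ j ∈ Finset.range (J + 1), B j x

/-- `S(t)` -/
noncomputable def SS (B : ℕ → ℝ → ℝ) (J : ℕ) (T t : ℝ) : ℂ := ∑ j ∈ Finset.range (J + 1), ev t (H14.GP.bb (B j) T)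

/-- `h_k(t)` -/
noncomputable def hB (B : ℕ → ℝ → ℝ) (T t : ℝ) (k : ℕ) : ℂ := cf (-1) (fun j => ev t (H14.GP.bb (B j) T)) k

/-- `C(t)` -/
noncomputable def CB (B : ℕ → ℝ → ℝ) (M : ℕ) (T t : ℝ) : ℂ := ∑ k ∈ Finset.range M, hB B T t k

/-- `T_d(-S)` -/
noncomputable def TdS (B : ℕ → ℝ → ℝ) (J d : ℕ) (T t : ℝ) : ℂ :=
  ∑ i ∈ Finset.range (d + 1), ((-1) ^ i / (i.factorial : ℂ)) * SS B J T t ^ i

variable {M : ℕ} {ρ : ℝ} {B : ℕ → ℝ → ℝ}

lemma CellR.sh (h : CellR M ρ B) (j : ℕ) : Sh (ρ * j) (cB B j) := by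
  obtain ⟨a, ha, hlow⟩ := h.low
  exact ⟨Complex.continuous_ofReal.comp (h.cont j), ⟨a, ha, fun x hx => by unfold cB; rw [hlow j x hx, Complex.ofReal_zero]⟩,
    fun x hx => by unfold cB; rw [h.high j x hx, Complex.ofReal_zero]⟩

lemma CellR.shS (h : CellR M ρ B) (J : ℕ) : Sh (ρ * J) (fun x => (gS B J x : ℂ)) := by
  obtain ⟨a, ha, hlow⟩ := h.low
  refine ⟨Complex.continuous_ofReal.comp (continuous_finsetSum _ fun j _ => h.cont j), ⟨a, ha, fun x hx => ?_⟩, fun x hx => ?_⟩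
  · unfold gS
    rw [Finset.sum_eq_zero fun j _ => hlow j x hx, Complex.ofReal_zero]
  · unfold gS
    rw [Finset.sum_eq_zero, Complex.ofReal_zero]
    intro j hj
    rw [Finset.mem_range] at hj
    refine h.high j x (le_trans ?_ hx)
    have : (j : ℝ) ≤ J := by exact_mod_cast (by omega : j ≤ J)
    exact mul_le_mul_of_nonneg_left this h.rho.le

lemma ipc_cB (B : ℕ → ℝ → ℝ) (i j : ℕ) : ipc (cB B i) (cB B j) = ((∫ x in Ioi (0 : ℝ), B j x * B i x / x : ℝ) : ℂ) := ipc_real _ _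

lemma CellR.orth (h : CellR M ρ B) (i j : ℕ) (hij : i ≠ j) : ipc (cB B i) (cB B j) = 0 := by
  rw [ipc_cB]
  simp only [h.disj j i (Ne.symm hij), zero_div, integral_zero, Complex.ofReal_zero]

lemma ipc_self (B : ℕ → ℝ → ℝ) (j : ℕ) : ipc (cB B j) (cB B j) = (cc B j : ℂ) := ipc_cB B j j

lemma cc_nonneg (B : ℕ → ℝ → ℝ) (j : ℕ) : 0 ≤ cc B j := by
  unfold cc
  refine setIntegral_nonneg measurableSet_Ioi fun x hx => ?_
  exact div_nonneg (mul_self_nonneg _) (le_of_lt hx)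

lemma CellR.zero (h : CellR M ρ B) (x : ℝ) : B 0 x = 0 := by
  obtain ⟨a, ha, hlow⟩ := h.low
  rcases le_or_gt 0 x with hx | hx
  · exact h.high 0 x (by rw [Nat.cast_zero, mul_zero]; exact hx)
  · exact hlow 0 x (hx.le.trans ha.le)

lemma CellR.cc_zero (h : CellR M ρ B) : cc B 0 = 0 := by
  unfold cc
  simp only [h.zero, mul_zero, zero_div, integral_zero]

lemma CellR.cc_out (h : CellR M ρ B) (j : ℕ) (hj : M ≤ j) : cc B j = 0 := by
  unfold cc
  simp only [h.out j hj, mul_zero, zero_div, integral_zero]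

lemma CellR.gS_mul (h : CellR M ρ B) (J j : ℕ) (x : ℝ) : gS B J x * B j x = if j ≤ J then B j x * B j x else 0 := by
  classical
  unfold gS
  rw [Finset.sum_mul]
  by_cases hj : j ≤ J
  · rw [if_pos hj, Finset.sum_eq_single j]
    · intro i _ hij
      exact h.disj i j hij x
    · intro hn
      exact absurd (Finset.mem_range.2 (by omega)) hn
  · rw [if_neg hj]
    refine Finset.sum_eq_zero fun i hi => h.disj i j ?_ x
    rw [Finset.mem_range] at hi
    omega

lemma CellR.ipc_gS (h : CellR M ρ B) (J j : ℕ) :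
    ipc (fun x => (gS B J x : ℂ)) (cB B j) = ((if j ≤ J then cc B j else 0 : ℝ) : ℂ) := by
  show ipc (fun x => (gS B J x : ℂ)) (fun x => (B j x : ℂ)) = _
  rw [ipc_real]
  congr 1
  by_cases hj : j ≤ J
  · rw [if_pos hj]
    unfold cc
    congr 1
    funext x
    rw [mul_comm (B j x) (gS B J x), h.gS_mul, if_pos hj]
  · rw [if_neg hj]
    have : ∀ x : ℝ, B j x * gS B J x / x = 0 := by
      intro x
      rw [mul_comm (B j x) (gS B J x), h.gS_mul, if_neg hj, zero_div]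
    simp only [this, integral_zero]

/-- `s = ⟨S, S⟩` -/
lemma CellR.ipc_gS_self (h : CellR M ρ B) (J : ℕ) :
    ipc (fun x => (gS B J x : ℂ)) (fun x => (gS B J x : ℂ)) = ((∑ j ∈ Finset.range (J + 1), cc B j : ℝ) : ℂ) := by
  have h1 : ∀ n ≤ J, ipc (fun x => (gS B J x : ℂ)) (fun x => (gS B n x : ℂ)) = ((∑ j ∈ Finset.range (n + 1), cc B j : ℝ) : ℂ) := by
    intro n
    induction n with
    | zero =>
      intro _
      have : (fun x => (gS B 0 x : ℂ)) = cB B 0 := by
        funext x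
        unfold gS cB
        rw [Finset.sum_range_one]
      rw [this, h.ipc_gS, if_pos (Nat.zero_le _), Finset.sum_range_one]
    | succ n ih =>
      intro hn
      have e : (fun x => (gS B (n + 1) x : ℂ)) = fun x => (1 : ℂ) * (gS B n x : ℂ) + (1 : ℂ) * cB B (n + 1) x := by
        funext x
        unfold gS cB
        rw [Finset.sum_range_succ, Complex.ofReal_add, one_mul, one_mul]
      have hshn := h.shS n
      have hshn' : Sh (ρ * ((n + 1 : ℕ) : ℝ)) (fun x => (gS B n x : ℂ)) :=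
        ⟨hshn.cont, hshn.low, fun x hx => hshn.high x (le_trans (mul_le_mul_of_nonneg_left (by push_cast; linarith) h.rho.le) hx)⟩
      rw [e, ipc_right (h.shS J).cont hshn' (h.sh (n + 1)), ih (by omega), h.ipc_gS, if_pos hn, Finset.sum_range_succ _ (n + 1)]
      simp only [map_one, one_mul]
      rw [Complex.ofReal_add]
  exact h1 J le_rfl

lemma SS_eq (B : ℕ → ℝ → ℝ) (J : ℕ) (T t : ℝ) : SS B J T t = BB (fun x => (gS B J x : ℂ)) 1 T t := by
  induction J with
  | zero =>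
    unfold SS gS
    simp only [zero_add, Finset.sum_range_one]
    rw [BB_bb]
  | succ n ih =>
    have e : (fun x => (gS B (n + 1) x : ℂ)) = fun x => (gS B n x : ℂ) + (B (n + 1) x : ℂ) := by
      funext x
      unfold gS
      rw [Finset.sum_range_succ, Complex.ofReal_add]
    rw [e, BB_add, ← ih, BB_bb]
    unfold SS
    rw [Finset.sum_range_succ _ (n + 1)]

lemma hB_eq (B : ℕ → ℝ → ℝ) (T t : ℝ) (k : ℕ) : hB B T t k = cf (-1) (fun j => BB (cB B j) 1 T t) k := by
  unfold hB cB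
  simp only [BB_bb]

lemma continuous_SS (B : ℕ → ℝ → ℝ) (J : ℕ) (T : ℝ) : Continuous (SS B J T) := by
  have : SS B J T = fun t => BB (fun x => (gS B J x : ℂ)) 1 T t := funext fun t => SS_eq B J T t
  rw [this]
  exact continuous_BB _ _ _

lemma continuous_hB (B : ℕ → ℝ → ℝ) (T : ℝ) (k : ℕ) : Continuous fun t => hB B T t k := by
  have h := Complex.continuous_conj.comp (continuous_cfBB (cB B) 1 T k)
  have e : (fun t => hB B T t k) = (fun z => conj z) ∘ fun t => conj (cf (-1) (fun j => BB (cB B j) 1 T t) k) := by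
    funext t
    rw [Function.comp_apply, Complex.conj_conj, hB_eq]
  rw [e]
  exact h

/-! ### a double sum -/

lemma lim_double {v : ℝ → ℝ} (hv : Wgt v) {ι κ : Type*} (I : Finset ι) (K : Finset κ) (w : ι → ℂ) (w' : κ → ℂ)
    (u : ι → ℝ → ℝ → ℂ) (u' : κ → ℝ → ℝ → ℂ) (hu : ∀ i T, Continuous (u i T)) (hu' : ∀ k T, Continuous (u' k T))
    (L : ι → κ → ℂ) (hL : ∀ i ∈ I, ∀ k ∈ K, Tendsto (fun T => EC v T (fun t => u i T t * conj (u' k T t))) atTop (𝓝 (L i k))) :
    Tendsto (fun T => EC v T (fun t => (∑ i ∈ I, w i * u i T t) * conj (∑ k ∈ K, w' k * u' k T t))) atTop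
      (𝓝 (∑ i ∈ I, ∑ k ∈ K, w i * conj (w' k) * L i k)) := by
  classical
  have h1 : Tendsto (fun T => ∑ p ∈ I ×ˢ K, (w p.1 * conj (w' p.2)) * EC v T (fun t => u p.1 T t * conj (u' p.2 T t))) atTop
      (𝓝 (∑ p ∈ I ×ˢ K, (w p.1 * conj (w' p.2)) * L p.1 p.2)) :=
    tendsto_finsetSum _ fun p hp => (hL p.1 (Finset.mem_product.1 hp).1 p.2 (Finset.mem_product.1 hp).2).const_mul _
  rw [Finset.sum_product] at h1
  refine h1.congr' ?_
  filter_upwards [eventually_gt_atTop 0] with T hT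
  rw [← Vb_EC_sum hv hT (I ×ˢ K) (fun p => w p.1 * conj (w' p.2)) (fun p t => u p.1 T t * conj (u' p.2 T t))
    (fun p _ => (hu p.1 T).mul (Complex.continuous_conj.comp (hu' p.2 T)))]
  congr 1
  funext t
  rw [map_sum, Finset.sum_mul_sum, Finset.sum_product]
  refine Finset.sum_congr rfl fun i _ => Finset.sum_congr rfl fun k _ => ?_
  rw [map_mul]
  ring

/-! ### the three mean values -/

lemma permC_const (H g : ℝ → ℂ) (i : ℕ) : ∀ S : Finset ℕ, permC (fun _ => g) (List.replicate i H) S =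
    if S.card = i then (i.factorial : ℂ) * ipc H g ^ i else 0 := by
  classical
  induction i with
  | zero =>
    intro S
    rw [List.replicate_zero]
    unfold permC
    by_cases h : S = ∅
    · rw [if_pos h, h, if_pos Finset.card_empty, Nat.factorial_zero, Nat.cast_one, pow_zero, mul_one]
    · rw [if_neg h, if_neg (fun h' => h (Finset.card_eq_zero.1 h'))]
  | succ i ih =>
    intro S
    rw [List.replicate_succ]
    unfold permC
    have h1 : ∀ k ∈ S, ipc H g * permC (fun _ => g) (List.replicate i H) (S.erase k) =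
        if S.card = i + 1 then ipc H g * ((i.factorial : ℂ) * ipc H g ^ i) else 0 := by
      intro k hk
      have hc := Finset.card_erase_add_one hk
      rw [ih]
      by_cases h : S.card = i + 1
      · rw [if_pos h, if_pos (by omega)]
      · rw [if_neg h, if_neg (by omega), mul_zero]
    rw [Finset.sum_congr rfl h1]
    by_cases h : S.card = i + 1
    · simp only [if_pos h]
      rw [Finset.sum_const, h, nsmul_eq_mul, Nat.factorial_succ, pow_succ]
      push_cast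
      ring
    · simp only [if_neg h]
      rw [Finset.sum_const_zero]

/-- moments of `S` -/
theorem lim_SS (h : CellR M ρ B) {v : ℝ → ℝ} (hv : Wgt v) (J i k : ℕ) (hk : k * (ρ * J) < 1) :
    Tendsto (fun T => EC v T (fun t => SS B J T t ^ i * conj (SS B J T t ^ k))) atTop
      (𝓝 (if i = k then ((∫ x, v x : ℝ) : ℂ) * ((i.factorial : ℂ) * ((∑ j ∈ Finset.range (J + 1), cc B j : ℝ) : ℂ) ^ i) else 0)) := by
  classical
  have h1 : Wk v 1 (List.replicate i (fun x => (gS B J x : ℂ))) (fun _ x => (gS B J x : ℂ)) (Finset.range k) :=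
    wick hv le_rfl (fun H hH => by
      rw [List.mem_replicate] at hH
      rw [hH.2]
      exact ⟨(h.shS J).cont, (h.shS J).bdd⟩) (ℓ := fun _ => ρ * J) (fun _ _ => mul_nonneg h.rho.le (Nat.cast_nonneg _))
      (by rw [Finset.sum_const, Finset.card_range, nsmul_eq_mul]; exact hk) (fun _ _ => h.shS J)
  unfold Wk at h1
  rw [permC_const, h.ipc_gS_self, Finset.card_range] at h1
  have e : ((∫ x, v x : ℝ) : ℂ) * (if k = i then (i.factorial : ℂ) * ((∑ j ∈ Finset.range (J + 1), cc B j : ℝ) : ℂ) ^ i else 0) =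
      if i = k then ((∫ x, v x : ℝ) : ℂ) * ((i.factorial : ℂ) * ((∑ j ∈ Finset.range (J + 1), cc B j : ℝ) : ℂ) ^ i) else 0 := by
    by_cases hik : i = k
    · rw [if_pos hik, if_pos hik.symm]
    · rw [if_neg hik, if_neg (Ne.symm hik), mul_zero]
  rw [e] at h1
  refine h1.congr fun T => ?_
  congr 1
  funext t
  rw [List.map_replicate, List.prod_replicate, Finset.prod_const, Finset.card_range, SS_eq]

/-- `E[S^i conj h_m]` -/
theorem lim_Sh (h : CellR M ρ B) {v : ℝ → ℝ} (hv : Wgt v) (J i m : ℕ) (hm : m < M) :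
    Tendsto (fun T => EC v T (fun t => SS B J T t ^ i * conj (hB B T t m))) atTop
      (𝓝 (((∫ x, v x : ℝ) : ℂ) * PowerSeries.coeff m ((-(kap (cB B) (fun x => (gS B J x : ℂ)))) ^ i))) := by
  have hm' : ρ * m < 1 := by
    have : (m : ℝ) < M := by exact_mod_cast hm
    exact lt_of_lt_of_le (mul_lt_mul_of_pos_left this h.rho) h.len
  have h1 := wick_hm_list hv le_rfl (Hs := List.replicate i (fun x => (gS B J x : ℂ))) (fun H hH => by
      rw [List.mem_replicate] at hH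
      rw [hH.2]
      exact ⟨(h.shS J).cont, (h.shS J).bdd⟩) h.rho.le h.sh hm'
  rw [List.map_replicate, List.prod_replicate] at h1
  refine h1.congr fun T => ?_
  congr 1
  funext t
  rw [List.map_replicate, List.prod_replicate, SS_eq, hB_eq]

lemma cf_ofReal (c : ℝ) (y : ℕ → ℝ) (n : ℕ) : cf c (fun j => ((y j : ℝ) : ℂ)) n = ((cf c y n : ℝ) : ℂ) :=
  (cf_map Complex.ofRealAm c y n).symm

/-- `E[h_k conj h_m]` -/
theorem lim_hh (h : CellR M ρ B) {v : ℝ → ℝ} (hv : Wgt v) (k m : ℕ) (hm : m < M) :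
    Tendsto (fun T => EC v T (fun t => hB B T t k * conj (hB B T t m))) atTop
      (𝓝 (if k = m then ((∫ x, v x : ℝ) : ℂ) * ((cf 1 (cc B) k : ℝ) : ℂ) else 0)) := by
  have hm' : ρ * m < 1 := by
    have : (m : ℝ) < M := by exact_mod_cast hm
    exact lt_of_lt_of_le (mul_lt_mul_of_pos_left this h.rho) h.len
  have h1 := wick_cf hv le_rfl (A := cB B) (B := cB B) (fun j => ⟨(h.sh j).cont, (h.sh j).bdd⟩) h.rho.le h.sh h.orth
    (H := cB B 0) ⟨(h.sh 0).cont, (h.sh 0).bdd⟩ 0 k hm'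
  simp only [pow_zero, one_mul] at h1
  have e1 : cf 1 (fun j => ipc (cB B j) (cB B j)) k = ((cf 1 (cc B) k : ℝ) : ℂ) := by
    rw [← cf_ofReal]
    congr 1
    funext j
    exact ipc_self B j
  have e : (((∫ x, v x : ℝ) : ℂ) * if k ≤ m then cf 1 (fun j => ipc (cB B j) (cB B j)) k *
        PowerSeries.coeff (m - k) (1 : PowerSeries ℂ) else 0) =
        if k = m then ((∫ x, v x : ℝ) : ℂ) * ((cf 1 (cc B) k : ℝ) : ℂ) else 0 := by
    by_cases hkm : k = m
    · rw [if_pos hkm, if_pos hkm.le, hkm, Nat.sub_self, PowerSeries.coeff_one, if_pos rfl, mul_one, ← hkm, e1]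
    · rw [if_neg hkm]
      by_cases hkm' : k ≤ m
      · rw [if_pos hkm', PowerSeries.coeff_one, if_neg (by omega), mul_zero, mul_zero]
      · rw [if_neg hkm', mul_zero]
  rw [e] at h1
  refine h1.congr fun T => ?_
  congr 1
  funext t
  rw [hB_eq, hB_eq]

/-! ### sums of coefficients -/

lemma sum_coeff_kap (h : CellR M ρ B) (J i : ℕ) (hJ : i * J < M) :
    ∑ m ∈ Finset.range M, PowerSeries.coeff m ((-(kap (cB B) (fun x => (gS B J x : ℂ)))) ^ i) =
      (-((∑ j ∈ Finset.range (J + 1), cc B j : ℝ) : ℂ)) ^ i := by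
  obtain ⟨q, hq⟩ : ∃ q : Polynomial ℂ, q = -∑ j ∈ Finset.range (J + 1), Polynomial.C ((cc B j : ℝ) : ℂ) * Polynomial.X ^ j := ⟨_, rfl⟩
  have hco : ∀ n, q.coeff n = -((if n ≤ J then cc B n else 0 : ℝ) : ℂ) := by
    intro n
    rw [hq, Polynomial.coeff_neg, Polynomial.finsetSum_coeff]
    congr 1
    simp only [Polynomial.coeff_C_mul, Polynomial.coeff_X_pow, mul_ite, mul_one, mul_zero]
    rw [Finset.sum_ite_eq]
    by_cases hn : n ≤ J
    · rw [if_pos (Finset.mem_range.2 (by omega)), if_pos hn]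
    · rw [if_neg (fun h' => hn (by rw [Finset.mem_range] at h'; omega)), if_neg hn, Complex.ofReal_zero]
  have hqk : -(kap (cB B) (fun x => (gS B J x : ℂ))) = (q : PowerSeries ℂ) := by
    ext n
    rw [map_neg, Polynomial.coeff_coe, hco]
    unfold kap
    rw [PowerSeries.coeff_mk, h.ipc_gS]
  have hdeg : q.natDegree ≤ J := by
    rw [Polynomial.natDegree_le_iff_coeff_eq_zero]
    intro n hn
    rw [hco, if_neg (by omega), Complex.ofReal_zero, neg_zero]
  have hdeg' : (q ^ i).natDegree < M := lt_of_le_of_lt (Polynomial.natDegree_pow_le.trans (Nat.mul_le_mul_left i hdeg)) hJ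
  rw [hqk]
  have h1 : ∀ m, PowerSeries.coeff m ((q : PowerSeries ℂ) ^ i) = (q ^ i).coeff m := by
    intro m
    rw [← Polynomial.coe_pow, Polynomial.coeff_coe]
  simp only [h1]
  have h2 := Polynomial.eval_eq_sum_range' hdeg' (1 : ℂ)
  simp only [one_pow, mul_one] at h2
  rw [← h2, Polynomial.eval_pow]
  congr 1
  rw [hq, Polynomial.eval_neg, Polynomial.eval_finsetSum]
  simp only [Polynomial.eval_mul, Polynomial.eval_C, Polynomial.eval_pow, Polynomial.eval_X, one_pow, mul_one]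
  rw [Complex.ofReal_sum]

/-! ### the mean square of `C - T_d(-S)` -/

lemma lim_CC (h : CellR M ρ B) {v : ℝ → ℝ} (hv : Wgt v) :
    Tendsto (fun T => EC v T (fun t => CB B M T t * conj (CB B M T t))) atTop
      (𝓝 (((∫ x, v x : ℝ) : ℂ) * ((∑ m ∈ Finset.range M, cf 1 (cc B) m : ℝ) : ℂ))) := by
  have h1 := lim_double hv (Finset.range M) (Finset.range M) (fun _ => (1 : ℂ)) (fun _ => (1 : ℂ))
    (fun k T t => hB B T t k) (fun k T t => hB B T t k) (fun k T => continuous_hB B T k) (fun k T => continuous_hB B T k)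
    (fun k m => if k = m then ((∫ x, v x : ℝ) : ℂ) * ((cf 1 (cc B) k : ℝ) : ℂ) else 0)
    (fun k _ m hm => lim_hh h hv k m (Finset.mem_range.1 hm))
  have e : (∑ k ∈ Finset.range M, ∑ m ∈ Finset.range M, (1 : ℂ) * conj (1 : ℂ) *
      (if k = m then ((∫ x, v x : ℝ) : ℂ) * ((cf 1 (cc B) k : ℝ) : ℂ) else 0)) =
      ((∫ x, v x : ℝ) : ℂ) * ((∑ m ∈ Finset.range M, cf 1 (cc B) m : ℝ) : ℂ) := by
    rw [Complex.ofReal_sum, Finset.mul_sum]
    refine Finset.sum_congr rfl fun k hk => ?_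
    simp only [map_one, one_mul]
    rw [Finset.sum_ite_eq, if_pos hk]
  rw [e] at h1
  refine h1.congr fun T => ?_
  congr 1
  funext t
  unfold CB
  simp only [one_mul]

lemma lim_TC (h : CellR M ρ B) {v : ℝ → ℝ} (hv : Wgt v) (J d : ℕ) (hd : d * J < M) :
    Tendsto (fun T => EC v T (fun t => TdS B J d T t * conj (CB B M T t))) atTop
      (𝓝 (((∫ x, v x : ℝ) : ℂ) * ((∑ i ∈ Finset.range (d + 1), (∑ j ∈ Finset.range (J + 1), cc B j) ^ i / (i.factorial : ℝ) : ℝ) : ℂ))) := by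
  have h1 := lim_double hv (Finset.range (d + 1)) (Finset.range M) (fun i => ((-1) ^ i / (i.factorial : ℂ))) (fun _ => (1 : ℂ))
    (fun i T t => SS B J T t ^ i) (fun k T t => hB B T t k) (fun i T => (continuous_SS B J T).pow i) (fun k T => continuous_hB B T k)
    (fun i m => ((∫ x, v x : ℝ) : ℂ) * PowerSeries.coeff m ((-(kap (cB B) (fun x => (gS B J x : ℂ)))) ^ i))
    (fun i _ m hm => lim_Sh h hv J i m (Finset.mem_range.1 hm))
  have e : (∑ i ∈ Finset.range (d + 1), ∑ m ∈ Finset.range M, ((-1) ^ i / (i.factorial : ℂ)) * conj (1 : ℂ) *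
      (((∫ x, v x : ℝ) : ℂ) * PowerSeries.coeff m ((-(kap (cB B) (fun x => (gS B J x : ℂ)))) ^ i))) =
      ((∫ x, v x : ℝ) : ℂ) * ((∑ i ∈ Finset.range (d + 1), (∑ j ∈ Finset.range (J + 1), cc B j) ^ i / (i.factorial : ℝ) : ℝ) : ℂ) := by
    rw [Complex.ofReal_sum, Finset.mul_sum]
    refine Finset.sum_congr rfl fun i hi => ?_
    rw [Finset.mem_range] at hi
    have hiJ : i * J < M := lt_of_le_of_lt (Nat.mul_le_mul_right J (by omega)) hd
    rw [← Finset.mul_sum, ← Finset.mul_sum, sum_coeff_kap h J i hiJ, neg_pow, map_one]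
    have h2 : ((-1 : ℂ) ^ i) * (-1) ^ i = 1 := by rw [← mul_pow, neg_one_mul, neg_neg, one_pow]
    push_cast
    linear_combination ((∑ j ∈ Finset.range (J + 1), (cc B j : ℂ)) ^ i / (i.factorial : ℂ) * ((∫ x, v x : ℝ) : ℂ)) * h2
  rw [e] at h1
  refine h1.congr fun T => ?_
  congr 1
  funext t
  unfold CB TdS
  simp only [one_mul]

lemma lim_TT (h : CellR M ρ B) {v : ℝ → ℝ} (hv : Wgt v) (J d : ℕ) (hd : d * J < M) :
    Tendsto (fun T => EC v T (fun t => TdS B J d T t * conj (TdS B J d T t))) atTop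
      (𝓝 (((∫ x, v x : ℝ) : ℂ) * ((∑ i ∈ Finset.range (d + 1), (∑ j ∈ Finset.range (J + 1), cc B j) ^ i / (i.factorial : ℝ) : ℝ) : ℂ))) := by
  have h1 := lim_double hv (Finset.range (d + 1)) (Finset.range (d + 1)) (fun i => ((-1) ^ i / (i.factorial : ℂ)))
    (fun i => ((-1) ^ i / (i.factorial : ℂ)))
    (fun i T t => SS B J T t ^ i) (fun i T t => SS B J T t ^ i) (fun i T => (continuous_SS B J T).pow i)
    (fun i T => (continuous_SS B J T).pow i)
    (fun i k => if i = k then ((∫ x, v x : ℝ) : ℂ) * ((i.factorial : ℂ) * ((∑ j ∈ Finset.range (J + 1), cc B j : ℝ) : ℂ) ^ i) else 0)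
    (fun i _ k hk => lim_SS h hv J i k (by
      rw [Finset.mem_range] at hk
      have h2 : k * J < M := lt_of_le_of_lt (Nat.mul_le_mul_right J (by omega)) hd
      have h3 : ((k * J : ℕ) : ℝ) < M := by exact_mod_cast h2
      push_cast at h3
      have h4 := mul_lt_mul_of_pos_left h3 h.rho
      calc (k : ℝ) * (ρ * J) = ρ * (k * J) := by ring
        _ < ρ * M := h4
        _ ≤ 1 := h.len))
  have e : (∑ i ∈ Finset.range (d + 1), ∑ k ∈ Finset.range (d + 1), ((-1) ^ i / (i.factorial : ℂ)) *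
      conj ((-1) ^ k / (k.factorial : ℂ)) *
      (if i = k then ((∫ x, v x : ℝ) : ℂ) * ((i.factorial : ℂ) * ((∑ j ∈ Finset.range (J + 1), cc B j : ℝ) : ℂ) ^ i) else 0)) =
      ((∫ x, v x : ℝ) : ℂ) * ((∑ i ∈ Finset.range (d + 1), (∑ j ∈ Finset.range (J + 1), cc B j) ^ i / (i.factorial : ℝ) : ℝ) : ℂ) := by
    have e0 : ((∑ i ∈ Finset.range (d + 1), (∑ j ∈ Finset.range (J + 1), cc B j) ^ i / (i.factorial : ℝ) : ℝ) : ℂ) =
      ∑ i ∈ Finset.range (d + 1), (((∑ j ∈ Finset.range (J + 1), cc B j) ^ i / (i.factorial : ℝ) : ℝ) : ℂ) := Complex.ofReal_sum _ _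
    rw [e0, Finset.mul_sum]
    refine Finset.sum_congr rfl fun i hi => ?_
    simp only [mul_ite, mul_zero]
    rw [Finset.sum_ite_eq, if_pos hi]
    have h2 : ((-1 : ℂ) ^ i) * (-1) ^ i = 1 := by rw [← mul_pow, neg_one_mul, neg_neg, one_pow]
    have h3 : (i.factorial : ℂ) ≠ 0 := by exact_mod_cast i.factorial_ne_zero
    have h4 : conj ((-1) ^ i / (i.factorial : ℂ)) = (-1) ^ i / (i.factorial : ℂ) := by
      rw [map_div₀, map_pow, map_neg, map_one, Complex.conj_natCast]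
    rw [h4]
    push_cast
    have h5 : ((-1 : ℂ) ^ i / (i.factorial : ℂ)) * ((-1) ^ i / (i.factorial : ℂ)) * (((∫ x, v x : ℝ) : ℂ) *
        ((i.factorial : ℂ) * (∑ j ∈ Finset.range (J + 1), (cc B j : ℂ)) ^ i)) =
        (((-1 : ℂ) ^ i) * (-1) ^ i) * (((∫ x, v x : ℝ) : ℂ) * ((∑ j ∈ Finset.range (J + 1), (cc B j : ℂ)) ^ i / (i.factorial : ℂ))) := by
      field_simp
    rw [h5, h2, one_mul]
  rw [e] at h1
  refine h1.congr fun T => ?_
  congr 1

lemma EC_conj (v : ℝ → ℝ) (T : ℝ) (f : ℝ → ℂ) : EC v T (fun t => conj (f t)) = conj (EC v T f) := by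
  unfold EC
  rw [map_mul, Complex.conj_ofReal, ← integral_conj]
  congr 1
  refine integral_congr_ae (ae_of_all _ fun t => ?_)
  show (v (t / T) : ℂ) * conj (f t) = conj ((v (t / T) : ℂ) * f t)
  rw [map_mul, Complex.conj_ofReal]

lemma continuous_CB (B : ℕ → ℝ → ℝ) (M : ℕ) (T : ℝ) : Continuous (CB B M T) := by
  unfold CB
  exact continuous_finsetSum _ fun k _ => continuous_hB B T k

lemma continuous_TdS (B : ℕ → ℝ → ℝ) (J d : ℕ) (T : ℝ) : Continuous (TdS B J d T) := by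
  unfold TdS
  exact continuous_finsetSum _ fun i _ => continuous_const.mul ((continuous_SS B J T).pow i)

/-- **the mean square of `C - T_d(-S)`** -/
theorem lim_P1 (h : CellR M ρ B) {v : ℝ → ℝ} (hv : Wgt v) (J d : ℕ) (hd : d * J < M) :
    Tendsto (fun T => EE v T (fun t => ‖CB B M T t - TdS B J d T t‖ ^ 2)) atTop
      (𝓝 ((∫ x, v x) * (∑ m ∈ Finset.range M, cf 1 (cc B) m -
        ∑ i ∈ Finset.range (d + 1), (∑ j ∈ Finset.range (J + 1), cc B j) ^ i / (i.factorial : ℝ)))) := by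
  obtain ⟨V, hV⟩ : ∃ V : ℝ, V = ∫ x, v x := ⟨_, rfl⟩
  obtain ⟨a, ha⟩ : ∃ a : ℝ, a = ∑ m ∈ Finset.range M, cf 1 (cc B) m := ⟨_, rfl⟩
  obtain ⟨b, hb⟩ : ∃ b : ℝ, b = ∑ i ∈ Finset.range (d + 1), (∑ j ∈ Finset.range (J + 1), cc B j) ^ i / (i.factorial : ℝ) := ⟨_, rfl⟩
  have h1 := lim_CC h hv
  have h2 := lim_TC h hv J d hd
  have h3 := lim_TT h hv J d hd
  rw [← hV, ← ha] at h1
  rw [← hV, ← hb] at h2 h3
  rw [← hV, ← ha, ← hb]
  have h2' : Tendsto (fun T => EC v T (fun t => CB B M T t * conj (TdS B J d T t))) atTop (𝓝 (conj ((V : ℂ) * (b : ℂ)))) := by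
    refine ((Complex.continuous_conj.tendsto _).comp h2).congr fun T => ?_
    show conj (EC v T (fun t => TdS B J d T t * conj (CB B M T t))) = _
    rw [← EC_conj]
    congr 1
    funext t
    rw [map_mul, Complex.conj_conj, mul_comm]
  have h4 := ((h1.sub h2').sub h2).add h3
  have h5 := (Complex.continuous_re.tendsto _).comp h4
  have e : ((V : ℂ) * (a : ℂ) - conj ((V : ℂ) * (b : ℂ)) - (V : ℂ) * (b : ℂ) + (V : ℂ) * (b : ℂ)).re = V * (a - b) := by
    rw [map_mul, Complex.conj_ofReal, Complex.conj_ofReal]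
    have : (V : ℂ) * (a : ℂ) - (V : ℂ) * (b : ℂ) - (V : ℂ) * (b : ℂ) + (V : ℂ) * (b : ℂ) = ((V * (a - b) : ℝ) : ℂ) := by
      push_cast
      ring
    rw [this, Complex.ofReal_re]
  rw [e] at h5
  refine h5.congr' ?_
  filter_upwards [eventually_gt_atTop 0] with T hT
  rw [Function.comp_apply]
  have hc1 := continuous_CB B M T
  have hc2 := continuous_TdS B J d T
  have hj1 := Complex.continuous_conj.comp hc1
  have hj2 := Complex.continuous_conj.comp hc2
  have h6 := Vb_EC_sum hv hT (Finset.univ : Finset (Fin 4)) ![1, -1, -1, 1]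
    ![fun t => CB B M T t * conj (CB B M T t), fun t => CB B M T t * conj (TdS B J d T t),
      fun t => TdS B J d T t * conj (CB B M T t), fun t => TdS B J d T t * conj (TdS B J d T t)] (by
    intro i _
    fin_cases i
    · exact hc1.mul hj1
    · exact hc1.mul hj2
    · exact hc2.mul hj1
    · exact hc2.mul hj2)
  have h7 : EC v T (fun t => ((‖CB B M T t - TdS B J d T t‖ ^ 2 : ℝ) : ℂ)) =
      EC v T (fun t => CB B M T t * conj (CB B M T t)) - EC v T (fun t => CB B M T t * conj (TdS B J d T t)) -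
      EC v T (fun t => TdS B J d T t * conj (CB B M T t)) + EC v T (fun t => TdS B J d T t * conj (TdS B J d T t)) := by
    have h8 : (fun t => ((‖CB B M T t - TdS B J d T t‖ ^ 2 : ℝ) : ℂ)) = fun t => ∑ i : Fin 4, ![1, -1, -1, 1] i *
        ![fun t => CB B M T t * conj (CB B M T t), fun t => CB B M T t * conj (TdS B J d T t),
      fun t => TdS B J d T t * conj (CB B M T t), fun t => TdS B J d T t * conj (TdS B J d T t)] i t := by
      funext t
      rw [← Complex.normSq_eq_norm_sq, ← Complex.mul_conj, Fin.sum_univ_four]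
      simp only [Matrix.cons_val_zero, Matrix.cons_val_one, Matrix.cons_val]
      rw [map_sub]
      ring
    rw [h8, h6, Fin.sum_univ_four]
    simp only [Matrix.cons_val_zero, Matrix.cons_val_one, Matrix.cons_val]
    ring
  rw [← h7, EC_ofReal, Complex.ofReal_re]

/-- second moment of `S` -/
theorem lim_S2 (h : CellR M ρ B) {v : ℝ → ℝ} (hv : Wgt v) (J : ℕ) (hJ : J < M) :
    Tendsto (fun T => EE v T (fun t => ‖SS B J T t‖ ^ 2)) atTop
      (𝓝 ((∫ x, v x) * ∑ j ∈ Finset.range (J + 1), cc B j)) := by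
  have h1 := lim_SS h hv J 1 1 (by
    have h3 : (J : ℝ) < M := by exact_mod_cast hJ
    rw [Nat.cast_one, one_mul]
    exact lt_of_lt_of_le (mul_lt_mul_of_pos_left h3 h.rho) h.len)
  rw [if_pos rfl, pow_one, Nat.factorial_one, Nat.cast_one, one_mul] at h1
  have h5 := (Complex.continuous_re.tendsto _).comp h1
  rw [← Complex.ofReal_mul, Complex.ofReal_re] at h5
  refine h5.congr fun T => ?_
  rw [Function.comp_apply]
  have h7 : (fun t => SS B J T t ^ 1 * conj (SS B J T t ^ 1)) = fun t => ((‖SS B J T t‖ ^ 2 : ℝ) : ℂ) := by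
    funext t
    rw [pow_one, Complex.mul_conj, Complex.normSq_eq_norm_sq]
  rw [h7, EC_ofReal, Complex.ofReal_re]

end Pool.Agent.H24.AH
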