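import Mathlib
import Pool.Agent.H68.AH.Defs
import Pool.Agent.H68.AH.St
import Pool.Agent.H67.AH.Rare
import Pool.Agent.H67.AH.Mean
import Pool.Agent.H24.AH.Pb

/-!
# MP_103a5c_AH, block P1, part c: `C(t - iy) = exp (-S) + small`
-/

open MeasureTheory Set Filter Topology
open scoped Real ContDiff ComplexConjugate

namespace Pool.Agent.H24.AH

open Pool.Agent Pool.Agent.H6 Pool.Agent.H14.GP Pool.Agent.H24.HF Pool.Agent.H68.AH Pool.Agent.H67.AH

/-! ### the cells -/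

lemma hG_CellR {M : ℕ} {G : ℕ → ℝ → ℝ} (hC : Cell0 M G) {θ : ℝ} (h0 : 0 < θ) (h1 : θ < 1) (y : ℝ) :
    CellR M (θ / M) (hG y (cG θ G)) := by
  have hM : (0 : ℝ) < M := by
    have := hC.M_pos
    exact_mod_cast (by omega : 0 < M)
  have hz : ∀ j x, G j (x / θ) = 0 → hG y (cG θ G) j x = 0 := by
    intro j x hx
    unfold hG cG
    rw [hx, zero_mul]
  have hcell : ∀ (j : ℕ) (x : ℝ), hG y (cG θ G) j x ≠ 0 → ((j : ℝ) - 1) / M < x / θ ∧ x / θ < j / M := fun j x hx =>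
    hC.cell j (x / θ) fun h => hx (hz j x h)
  refine ⟨by positivity, by field_simp; exact h1.le, fun j => ?_, ⟨θ / (20 * M), by positivity, fun j x hx => ?_⟩, fun j x hx => ?_,
    fun i j hij x => ?_, fun j hj x => ?_⟩
  · unfold hG cG
    have := (hC.smooth j).continuous
    fun_prop
  · apply hz
    apply hC.low
    rw [div_le_iff₀ h0]
    have : θ / (20 * (M : ℝ)) = 1 / (20 * M) * θ := by ring
    linarith
  · by_contra h
    have h2 := (hcell j x h).2
    rw [div_lt_div_iff₀ h0 hM] at h2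
    have h3 : θ / M * j ≤ x := hx
    rw [div_mul_eq_mul_div, div_le_iff₀ hM] at h3
    linarith
  · by_contra h
    have hi := hcell i x (left_ne_zero_of_mul h)
    have hj := hcell j x (right_ne_zero_of_mul h)
    have h2 := hi.1.trans hj.2
    have h3 := hj.1.trans hi.2
    rw [div_lt_div_iff_of_pos_right hM] at h2 h3
    have h4 : (i : ℝ) < j + 1 := by linarith
    have h5 : (j : ℝ) < i + 1 := by linarith
    have h6 : i < j + 1 := by exact_mod_cast h4
    have h7 : j < i + 1 := by exact_mod_cast h5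
    omega
  · exact hz j x (hC.out j (Or.inr hj) _)

lemma CellR.int {M : ℕ} {ρ : ℝ} {B : ℕ → ℝ → ℝ} (h : CellR M ρ B) (j : ℕ) :
    IntegrableOn (fun x => B j x * B j x / x) (Ioi (0 : ℝ)) := by
  have h1 := (ipc_int (h.sh j).cont (h.sh j)).re
  refine h1.congr (ae_of_all _ fun x => ?_)
  show (cB B j x * conj (cB B j x) / (x : ℂ)).re = B j x * B j x / x
  unfold cB
  rw [Complex.conj_ofReal, ← Complex.ofReal_mul, ← Complex.ofReal_div, Complex.ofReal_re]

lemma cc_zero_height {M : ℕ} {G : ℕ → ℝ → ℝ} (hC : Cell0 M G) {θ : ℝ} (h0 : 0 < θ) {j : ℕ} (hj : 1 ≤ j) (hjM : j < M) :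
    cc (hG 0 (cG θ G)) j = 1 / (j : ℝ) := by
  rw [← hC.norm j hj hjM]
  have h1 := integral_comp_mul_left_Ioi (fun u => G j u ^ 2 / u) 0 (inv_pos.2 h0)
  rw [mul_zero, inv_inv, smul_eq_mul] at h1
  have h2 : ∀ x : ℝ, G j (θ⁻¹ * x) ^ 2 / (θ⁻¹ * x) = θ * (hG 0 (cG θ G) j x * hG 0 (cG θ G) j x / x) := by
    intro x
    unfold hG cG
    rw [mul_zero, neg_zero, Real.exp_zero, mul_one, div_eq_inv_mul x θ]
    rcases eq_or_ne x 0 with hx | hx
    · rw [hx]; simp
    · field_simp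
  simp only [h2] at h1
  rw [integral_const_mul] at h1
  unfold cc
  exact mul_left_cancel₀ h0.ne' h1

lemma cc_height_le {M : ℕ} {G : ℕ → ℝ → ℝ} (hC : Cell0 M G) {θ : ℝ} (h0 : 0 < θ) (h1 : θ < 1) {y : ℝ} (hy : 0 ≤ y) {j : ℕ}
    (hj : 1 ≤ j) (hjM : j < M) :
    cc (hG y (cG θ G)) j ≤ Real.exp (-(4 * π * y * (θ * ((j : ℝ) - 1) / M))) * (1 / (j : ℝ)) := by
  have hM : (0 : ℝ) < M := by
    have := hC.M_pos
    exact_mod_cast (by omega : 0 < M)
  rw [← cc_zero_height hC h0 hj hjM]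
  unfold cc
  rw [← integral_const_mul]
  refine setIntegral_mono_on ((hG_CellR hC h0 h1 y).int j) (((hG_CellR hC h0 h1 0).int j).const_mul _) measurableSet_Ioi fun x hx => ?_
  have hx0 : (0 : ℝ) < x := hx
  show hG y (cG θ G) j x * hG y (cG θ G) j x / x ≤ Real.exp (-(4 * π * y * (θ * ((j : ℝ) - 1) / M))) *
    (hG 0 (cG θ G) j x * hG 0 (cG θ G) j x / x)
  by_cases hG0 : G j (x / θ) = 0
  · unfold hG cG
    rw [hG0]
    simp
  · have hcell := (hC.cell j (x / θ) hG0).1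
    rw [div_lt_div_iff₀ hM h0] at hcell
    have hx1 : θ * ((j : ℝ) - 1) / M ≤ x := by
      rw [div_le_iff₀ hM]
      linarith
    have he : hG y (cG θ G) j x * hG y (cG θ G) j x / x = Real.exp (-(4 * π * y * x)) * (hG 0 (cG θ G) j x * hG 0 (cG θ G) j x / x) := by
      unfold hG cG
      rw [mul_zero, neg_zero, Real.exp_zero, mul_one]
      have : Real.exp (-(4 * π * y * x)) = Real.exp (-(2 * π * x * y)) * Real.exp (-(2 * π * x * y)) := by
        rw [← Real.exp_add]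
        congr 1
        ring
      rw [this]
      ring
    rw [he]
    refine mul_le_mul_of_nonneg_right (Real.exp_le_exp.2 ?_) (div_nonneg (mul_self_nonneg _) hx0.le)
    have : 0 ≤ 4 * π * y := by positivity
    have := mul_le_mul_of_nonneg_left hx1 this
    linarith

/-! ### numerical estimates -/

lemma pow_div_fact_le {x : ℝ} (hx : 0 ≤ x) (n : ℕ) : x ^ n / n.factorial ≤ Real.exp (3 * x - n) := by
  have he : Real.exp 1 ≤ 3 := by
    have := Real.exp_one_lt_d9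
    linarith
  have h1 : (Real.exp 1 * x) ^ n / n.factorial ≤ Real.exp (Real.exp 1 * x) := Real.pow_div_factorial_le_exp _ (by positivity) n
  have h2 : x ^ n / n.factorial = Real.exp (-(n : ℝ)) * ((Real.exp 1 * x) ^ n / n.factorial) := by
    rw [mul_pow, ← Real.exp_nat_mul, mul_one]
    have : Real.exp (-(n : ℝ)) * Real.exp n = 1 := by rw [← Real.exp_add]; simp
    rw [← mul_div_assoc, ← mul_assoc, this, one_mul]
  rw [h2, sub_eq_add_neg, add_comm (3 * x), Real.exp_add]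
  refine mul_le_mul_of_nonneg_left (h1.trans (Real.exp_le_exp.2 ?_)) (Real.exp_pos _).le
  exact mul_le_mul_of_nonneg_right he hx

/-- `log M ≥ 20` and `M` large -/
lemma num_base : ∃ M₀ : ℕ, 2 ≤ M₀ ∧ ∀ M : ℕ, M₀ ≤ M → 20 ≤ Real.log M ∧ 40 * Real.log M ≤ M ∧ Real.log M ^ 2 ≤ M := by
  have hlog : Tendsto (fun M : ℕ => Real.log (M : ℝ)) atTop atTop := Real.tendsto_log_atTop.comp tendsto_natCast_atTop_atTop
  have e1 : ∀ᶠ M : ℕ in atTop, 20 ≤ Real.log M := hlog.eventually (eventually_ge_atTop 20)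
  have e2 : ∀ᶠ M : ℕ in atTop, 40 * Real.log M ≤ M := by
    have h1 : Tendsto (fun x : ℝ => Real.log x ^ 1 / x) atTop (𝓝 0) := by
      have := Real.tendsto_pow_log_div_mul_add_atTop 1 0 1 one_ne_zero
      simpa using this
    filter_upwards [(h1.comp tendsto_natCast_atTop_atTop).eventually (gt_mem_nhds (by norm_num : (0 : ℝ) < 1 / 40)),
      eventually_gt_atTop 0] with M h3 h4
    have h5 : Real.log (M : ℝ) ^ 1 / M < 1 / 40 := h3
    have h6 : (0 : ℝ) < M := by exact_mod_cast h4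
    rw [div_lt_div_iff₀ h6 (by norm_num), pow_one] at h5
    linarith
  have e3 : ∀ᶠ M : ℕ in atTop, Real.log M ^ 2 ≤ M := by
    have h1 : Tendsto (fun x : ℝ => Real.log x ^ 2 / x) atTop (𝓝 0) := by
      have := Real.tendsto_pow_log_div_mul_add_atTop 1 0 2 one_ne_zero
      simpa using this
    filter_upwards [(h1.comp tendsto_natCast_atTop_atTop).eventually (gt_mem_nhds (by norm_num : (0 : ℝ) < 1)),
      eventually_gt_atTop 0] with M h3 h4
    have h5 : Real.log (M : ℝ) ^ 2 / M < 1 := h3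
    have h6 : (0 : ℝ) < M := by exact_mod_cast h4
    rw [div_lt_one h6] at h5
    linarith
  obtain ⟨M₀, hM₀⟩ := Filter.eventually_atTop.1 (e1.and (e2.and e3))
  refine ⟨max M₀ 2, le_max_right _ _, fun M hM => ?_⟩
  have := hM₀ M ((le_max_left _ _).trans hM)
  exact ⟨this.1, this.2.1, this.2.2⟩

/-- the Taylor polynomial of the exponential function: `|z| ≤ 1 + L`, degree `d = ⌊10 L⌋` -/
lemma exp_taylor {L : ℝ} (hL : 20 ≤ L) {z : ℂ} (hz : ‖z‖ ≤ 1 + L) :
    ‖Complex.exp z - ∑ i ∈ Finset.range (⌊10 * L⌋₊ + 1), z ^ i / (i.factorial : ℂ)‖ ≤ Real.exp (-(5 * L)) := by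
  obtain ⟨n, hn⟩ : ∃ n, n = ⌊10 * L⌋₊ + 1 := ⟨_, rfl⟩
  rw [← hn]
  have hn1 : 10 * L < n := by
    rw [hn]
    push_cast
    exact Nat.lt_floor_add_one _
  have h1 := Complex.exp_bound' (x := z) (n := n) (by
    rw [div_le_iff₀ (by positivity), Nat.succ_eq_add_one]
    push_cast
    linarith)
  refine h1.trans ?_
  have h2 := pow_div_fact_le (norm_nonneg z) n
  have h3 : Real.exp (3 * ‖z‖ - n) * 2 ≤ Real.exp (-(5 * L)) := by
    have h4 : (2 : ℝ) ≤ Real.exp 1 := by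
      have := Real.exp_one_gt_d9
      linarith
    calc Real.exp (3 * ‖z‖ - n) * 2 ≤ Real.exp (3 * ‖z‖ - n) * Real.exp 1 := mul_le_mul_of_nonneg_left h4 (Real.exp_pos _).le
      _ = Real.exp (3 * ‖z‖ - n + 1) := (Real.exp_add _ _).symm
      _ ≤ Real.exp (-(5 * L)) := Real.exp_le_exp.2 (by linarith)
  refine le_trans ?_ h3
  exact mul_le_mul_of_nonneg_right h2 (by norm_num)

lemma exp_taylor_real {L : ℝ} (hL : 20 ≤ L) {s : ℝ} (hs0 : 0 ≤ s) (hs : s ≤ 1 + L) :
    Real.exp s - ∑ i ∈ Finset.range (⌊10 * L⌋₊ + 1), s ^ i / (i.factorial : ℝ) ≤ Real.exp (-(5 * L)) := by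
  have h := exp_taylor hL (z := (s : ℂ)) (by rw [Complex.norm_real, Real.norm_eq_abs, abs_of_nonneg hs0]; exact hs)
  have e : Complex.exp (s : ℂ) - ∑ i ∈ Finset.range (⌊10 * L⌋₊ + 1), (s : ℂ) ^ i / (i.factorial : ℂ) =
      ((Real.exp s - ∑ i ∈ Finset.range (⌊10 * L⌋₊ + 1), s ^ i / (i.factorial : ℝ) : ℝ) : ℂ) := by
    push_cast
    rfl
  rw [e, Complex.norm_real] at h
  exact (le_abs_self _).trans h

lemma num_main {L : ℝ} (h1 : 20 ≤ L) {s r : ℝ} (hs0 : 0 ≤ s) (hs : s ≤ 1 + L) (hr0 : 0 ≤ r)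
    (hr : r ≤ Real.exp (-(2 * L))) :
    Real.exp (s + r) - ∑ i ∈ Finset.range (⌊10 * L⌋₊ + 1), s ^ i / (i.factorial : ℝ) ≤ 7 / L := by
  have h2 := exp_taylor_real h1 hs0 hs
  have he : Real.exp 1 ≤ 3 := by
    have := Real.exp_one_lt_d9
    linarith
  have hE : ∀ c : ℝ, 1 ≤ c → Real.exp (-(c * L)) ≤ 1 / L := by
    intro c hc
    have h3 : L ≤ Real.exp L := by
      have := Real.add_one_le_exp L
      linarith
    have h4 : Real.exp (-(c * L)) ≤ Real.exp (-L) := Real.exp_le_exp.2 (by nlinarith)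
    refine h4.trans ?_
    rw [Real.exp_neg, ← one_div]
    exact one_div_le_one_div_of_le (by linarith) h3
  have hr1 : r ≤ 1 / 2 := by
    have h5 := hE 2 (by norm_num)
    have h6 : 1 / L ≤ 1 / 20 := one_div_le_one_div_of_le (by norm_num) h1
    linarith
  have h3 : Real.exp r ≤ 1 + 2 * r := by
    have h4 := Real.one_sub_le_exp_neg r
    have h5 : Real.exp r * (1 - r) ≤ 1 := by
      calc Real.exp r * (1 - r) ≤ Real.exp r * Real.exp (-r) := mul_le_mul_of_nonneg_left h4 (Real.exp_pos _).le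
        _ = 1 := by rw [← Real.exp_add]; simp
    have h6 : 0 < Real.exp r := Real.exp_pos _
    nlinarith
  have h4 : Real.exp (s + r) ≤ Real.exp s + 6 * Real.exp (-(1 * L)) := by
    rw [Real.exp_add]
    have h5 : Real.exp s ≤ 3 * Real.exp L := by
      calc Real.exp s ≤ Real.exp (1 + L) := Real.exp_le_exp.2 hs
        _ = Real.exp 1 * Real.exp L := Real.exp_add _ _
        _ ≤ 3 * Real.exp L := mul_le_mul_of_nonneg_right he (Real.exp_pos _).le
    have h6 : Real.exp s * (2 * r) ≤ 6 * Real.exp (-(1 * L)) := by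
      calc Real.exp s * (2 * r) ≤ 3 * Real.exp L * (2 * Real.exp (-(2 * L))) :=
            mul_le_mul h5 (by linarith) (by positivity) (by positivity)
        _ = 6 * (Real.exp L * Real.exp (-(2 * L))) := by ring
        _ = 6 * Real.exp (-(1 * L)) := by
            rw [← Real.exp_add]
            congr 2
            ring
    calc Real.exp s * Real.exp r ≤ Real.exp s * (1 + 2 * r) := mul_le_mul_of_nonneg_left h3 (Real.exp_pos _).le
      _ = Real.exp s + Real.exp s * (2 * r) := by ring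
      _ ≤ _ := by linarith
  have h5 := hE 1 le_rfl
  have h6 := hE 5 (by norm_num)
  have h7 : 7 / L = 6 * (1 / L) + 1 / L := by ring
  rw [h7]
  linarith

/-- the sums of the `c_j` -/
lemma num_cells {M : ℕ} {G : ℕ → ℝ → ℝ} (hC : Cell0 M G) {θ : ℝ} (h0 : 1 / 2 < θ) (h1 : θ < 1) (hL : 20 ≤ Real.log M)
    (hM1 : 40 * Real.log M ≤ M) :
    JJ M + 1 ≤ M ∧ ⌊10 * Real.log M⌋₊ * JJ M < M ∧
    ∑ j ∈ Finset.range (JJ M + 1), cc (hG (yy M) (cG θ G)) j ≤ 1 + Real.log M ∧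
    ∑ j ∈ Finset.Ico (JJ M + 1) M, cc (hG (yy M) (cG θ G)) j ≤ Real.exp (-(2 * Real.log M)) := by
  obtain ⟨L, hLd⟩ : ∃ L, L = Real.log M := ⟨_, rfl⟩
  have hM0 : (0 : ℝ) < M := by linarith
  have hθ : 0 < θ := by linarith
  have hcR := hG_CellR hC hθ h1 (yy M)
  have hJ1 : (JJ M : ℝ) ≤ M / (20 * Real.log M) := Nat.floor_le (by positivity)
  have hJ2 : (M : ℝ) / (20 * Real.log M) < JJ M + 1 := Nat.lt_floor_add_one _
  rw [← hLd] at hL hM1 hJ1 hJ2 ⊢
  have hL0 : 0 < L := by linarith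
  have hJ3 : (JJ M : ℝ) * (20 * L) ≤ M := by
    rw [le_div_iff₀ (by positivity)] at hJ1
    exact hJ1
  have hJM : (JJ M : ℝ) + 1 ≤ M := by
    have hJ0 : (0 : ℝ) ≤ JJ M := Nat.cast_nonneg _
    nlinarith
  have hJM' : JJ M + 1 ≤ M := by exact_mod_cast hJM
  have hy : 0 ≤ yy M := by
    unfold yy
    rw [← hLd]
    positivity
  refine ⟨hJM', ?_, ?_, ?_⟩
  · have h2 : ((⌊10 * L⌋₊ * JJ M : ℕ) : ℝ) < M := by
      push_cast
      have h3 : (⌊10 * L⌋₊ : ℝ) ≤ 10 * L := Nat.floor_le (by positivity)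
      have hJ0 : (0 : ℝ) ≤ JJ M := Nat.cast_nonneg _
      calc (⌊10 * L⌋₊ : ℝ) * JJ M ≤ 10 * L * JJ M := mul_le_mul_of_nonneg_right h3 hJ0
        _ ≤ M / 2 := by linarith
        _ < M := by linarith
    exact_mod_cast h2
  · rw [Finset.sum_range_succ', hcR.cc_zero, add_zero]
    have h2 : ∀ j ∈ Finset.range (JJ M), cc (hG (yy M) (cG θ G)) (j + 1) ≤ ((j : ℝ) + 1)⁻¹ := by
      intro j hj
      rw [Finset.mem_range] at hj
      have h3 := cc_height_le hC hθ h1 hy (j := j + 1) (by omega) (by omega)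
      refine h3.trans ?_
      push_cast
      rw [one_div]
      have h4 : Real.exp (-(4 * π * yy M * (θ * ((j : ℝ) + 1 - 1) / M))) ≤ 1 := by
        rw [Real.exp_le_one_iff]
        have : 0 ≤ 4 * π * yy M * (θ * ((j : ℝ) + 1 - 1) / M) := by
          rw [add_sub_cancel_right]
          positivity
        linarith
      calc _ ≤ 1 * ((j : ℝ) + 1)⁻¹ := mul_le_mul_of_nonneg_right h4 (by positivity)
        _ = _ := one_mul _
    refine (Finset.sum_le_sum h2).trans ?_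
    have h3 : (∑ j ∈ Finset.range (JJ M), ((j : ℝ) + 1)⁻¹) = ((harmonic (JJ M) : ℚ) : ℝ) := by
      rw [harmonic]
      push_cast
      rfl
    rw [h3]
    refine (harmonic_le_one_add_log _).trans ?_
    rcases Nat.eq_zero_or_pos (JJ M) with h4 | h4
    · rw [h4, Nat.cast_zero, Real.log_zero]
      linarith
    · rw [hLd]
      have h5 : Real.log (JJ M) ≤ Real.log M := Real.log_le_log (by exact_mod_cast h4) (by linarith)
      linarith
  · -- high cells
    have hJ4 : (M : ℝ) / (40 * L) ≤ JJ M := by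
      have h2 : (1 : ℝ) ≤ M / (40 * L) := by
        rw [le_div_iff₀ (by positivity)]
        linarith
      have h3 : (M : ℝ) / (20 * L) = M / (40 * L) + M / (40 * L) := by
        field_simp
        ring
      linarith
    have h2 : ∀ j ∈ Finset.Ico (JJ M + 1) M, cc (hG (yy M) (cG θ G)) j ≤ Real.exp (-(3 * L)) := by
      intro j hj
      rw [Finset.mem_Ico] at hj
      refine (cc_height_le hC hθ h1 hy (j := j) (by omega) hj.2).trans ?_
      have hj1 : (1 : ℝ) ≤ j := by exact_mod_cast (by omega : 1 ≤ j)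
      have h3 : (1 : ℝ) / j ≤ 1 := by
        rw [div_le_one (by linarith)]
        exact hj1
      have h4 : Real.exp (-(4 * π * yy M * (θ * ((j : ℝ) - 1) / M))) ≤ Real.exp (-(3 * L)) := by
        rw [Real.exp_le_exp, neg_le_neg_iff]
        have h5 : (JJ M : ℝ) ≤ (j : ℝ) - 1 := by
          have : ((JJ M + 1 : ℕ) : ℝ) ≤ j := by exact_mod_cast hj.1
          push_cast at this
          linarith
        have h6 : 1 / (80 * L) ≤ θ * ((j : ℝ) - 1) / M := by
          rw [le_div_iff₀ hM0]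
          have h7 : (1 / 2 : ℝ) * (M / (40 * L)) ≤ θ * ((j : ℝ) - 1) :=
            mul_le_mul h0.le (hJ4.trans h5) (by positivity) hθ.le
          calc 1 / (80 * L) * M = 1 / 2 * (M / (40 * L)) := by field_simp; ring
            _ ≤ _ := h7
        have h8 : yy M = L ^ 3 := by unfold yy; rw [hLd]
        rw [h8]
        have hpi := Real.pi_gt_three
        calc 3 * L ≤ 4 * 3 * L ^ 3 * (1 / (80 * L)) := by
              field_simp
              nlinarith
          _ ≤ 4 * π * L ^ 3 * (1 / (80 * L)) := by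
              refine mul_le_mul_of_nonneg_right ?_ (by positivity)
              refine mul_le_mul_of_nonneg_right ?_ (by positivity)
              linarith
          _ ≤ _ := mul_le_mul_of_nonneg_left h6 (by positivity)
      calc _ ≤ Real.exp (-(3 * L)) * 1 := mul_le_mul h4 h3 (by positivity) (Real.exp_pos _).le
        _ = _ := mul_one _
    refine (Finset.sum_le_sum h2).trans ?_
    rw [Finset.sum_const, Nat.card_Ico, nsmul_eq_mul]
    have h3 : ((M - (JJ M + 1) : ℕ) : ℝ) ≤ Real.exp L := by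
      rw [hLd, Real.exp_log hM0]
      exact_mod_cast Nat.sub_le _ _
    calc _ ≤ Real.exp L * Real.exp (-(3 * L)) := mul_le_mul_of_nonneg_right h3 (Real.exp_pos _).le
      _ = Real.exp (-(2 * L)) := by
          rw [← Real.exp_add]
          congr 1
          ring

/-! ### assembly -/

/-- if `C` is near `T_d(-S)` and `|S| ≤ log M` then `|C| ≥ e^{-X}/2` where `X = Re S ≤ 0` -/
lemma point {L : ℝ} (hL : 20 ≤ L) {C S : ℂ} (hX : 0 ≤ -S.re) (hS : ‖S‖ ≤ L)
    (hC : ‖C - ∑ i ∈ Finset.range (⌊10 * L⌋₊ + 1), ((-1) ^ i / (i.factorial : ℂ)) * S ^ i‖ ≤ 1 / 4) :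
    Real.exp (-S.re) / 2 ≤ ‖C‖ := by
  have h1 := exp_taylor hL (z := -S) (by rw [norm_neg]; linarith)
  have e : (∑ i ∈ Finset.range (⌊10 * L⌋₊ + 1), (-S) ^ i / (i.factorial : ℂ)) =
      ∑ i ∈ Finset.range (⌊10 * L⌋₊ + 1), ((-1) ^ i / (i.factorial : ℂ)) * S ^ i := by
    refine Finset.sum_congr rfl fun i _ => ?_
    rw [neg_pow]
    ring
  rw [e] at h1
  obtain ⟨P, hP⟩ : ∃ P, P = ∑ i ∈ Finset.range (⌊10 * L⌋₊ + 1), ((-1) ^ i / (i.factorial : ℂ)) * S ^ i := ⟨_, rfl⟩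
  rw [← hP] at h1 hC
  have h2 : Real.exp (-(5 * L)) ≤ 1 / 4 := by
    have h3 : 4 ≤ Real.exp (5 * L) := by
      have := Real.add_one_le_exp (5 * L)
      linarith
    rw [Real.exp_neg, ← one_div]
    exact one_div_le_one_div_of_le (by norm_num) h3
  have h3 : ‖Complex.exp (-S)‖ = Real.exp (-S.re) := by
    rw [Complex.norm_exp, Complex.neg_re]
  have h4 : ‖Complex.exp (-S)‖ ≤ ‖Complex.exp (-S) - P‖ + ‖C - P‖ + ‖C‖ := by
    calc ‖Complex.exp (-S)‖ = ‖(Complex.exp (-S) - P) - (C - P) + C‖ := by congr 1; ring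
      _ ≤ ‖(Complex.exp (-S) - P) - (C - P)‖ + ‖C‖ := norm_add_le _ _
      _ ≤ ‖Complex.exp (-S) - P‖ + ‖C - P‖ + ‖C‖ := by
          have := norm_sub_le (Complex.exp (-S) - P) (C - P)
          linarith
  have h5 : 1 ≤ Real.exp (-S.re) := Real.one_le_exp hX
  rw [h3] at h4
  linarith

/-- **(P1)** -/
theorem P1P_holds : P1P := by
  obtain ⟨M₀, hM₀2, hM₀⟩ := num_base
  refine ⟨200, M₀, by norm_num, ?_⟩
  intro M G hM hC θ hθ hθ1 α β hα hαβ hβ
  obtain ⟨hL, hM1, -⟩ := hM₀ M hM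
  obtain ⟨hJM, hdJ, hs, hr⟩ := num_cells hC hθ hθ1 hL hM1
  have hcR := hG_CellR hC (by linarith : 0 < θ) hθ1 (yy M)
  obtain ⟨B, hB⟩ : ∃ B, B = hG (yy M) (cG θ G) := ⟨_, rfl⟩
  obtain ⟨L, hLd⟩ : ∃ L, L = Real.log M := ⟨_, rfl⟩
  obtain ⟨J, hJ⟩ : ∃ J, J = JJ M := ⟨_, rfl⟩
  rw [← hB] at hcR
  rw [← hB, ← hJ, ← hLd] at hs hr
  rw [← hJ, ← hLd] at hdJ
  rw [← hJ] at hJM
  rw [← hLd] at hL
  obtain ⟨v, hv, hv1, hvle, hv0, hvI⟩ := Mean_wgt hα hαβ hβ
  have hvI0 : 0 ≤ ∫ x, v x := integral_nonneg fun x => hv.nonneg x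
  have hL0 : 0 < L := by linarith
  -- the two mean values
  have hm1 := lim_P1 hcR hv J ⌊10 * L⌋₊ hdJ
  have hm2 := lim_S2 hcR hv J (by omega)
  have hs0 : 0 ≤ ∑ j ∈ Finset.range (J + 1), cc B j := Finset.sum_nonneg fun j _ => cc_nonneg B j
  have hr0 : 0 ≤ ∑ j ∈ Finset.Ico (J + 1) M, cc B j := Finset.sum_nonneg fun j _ => cc_nonneg B j
  have hsum : ∑ j ∈ Finset.range M, cc B j = ∑ j ∈ Finset.range (J + 1), cc B j + ∑ j ∈ Finset.Ico (J + 1) M, cc B j :=
    (Finset.sum_range_add_sum_Ico _ hJM).symm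
  have hb1 : ∑ m ∈ Finset.range M, cf 1 (cc B) m -
        ∑ i ∈ Finset.range (⌊10 * L⌋₊ + 1), (∑ j ∈ Finset.range (J + 1), cc B j) ^ i / (i.factorial : ℝ) ≤ 7 / L := by
    have h1 := sum_cf_le hcR.cc_zero (cc_nonneg B) M
    rw [hsum] at h1
    have h2 := num_main hL hs0 hs hr0 hr
    linarith
  have h7L : 0 < 7 / L := by positivity
  have hb1' : (∫ x, v x) * (∑ m ∈ Finset.range M, cf 1 (cc B) m -
        ∑ i ∈ Finset.range (⌊10 * L⌋₊ + 1), (∑ j ∈ Finset.range (J + 1), cc B j) ^ i / (i.factorial : ℝ)) < 8 / L := by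
    have h1 : (∫ x, v x) * (∑ m ∈ Finset.range M, cf 1 (cc B) m -
        ∑ i ∈ Finset.range (⌊10 * L⌋₊ + 1), (∑ j ∈ Finset.range (J + 1), cc B j) ^ i / (i.factorial : ℝ)) ≤ 1 * (7 / L) :=
      (mul_le_mul_of_nonneg_left hb1 hvI0).trans (mul_le_mul_of_nonneg_right hvI h7L.le)
    have h2 : 7 / L < 8 / L := by
      rw [div_lt_div_iff_of_pos_right hL0]
      norm_num
    linarith
  have hb2' : (∫ x, v x) * (∑ j ∈ Finset.range (J + 1), cc B j) < 2 * L := by
    have h1 : (∫ x, v x) * (∑ j ∈ Finset.range (J + 1), cc B j) ≤ 1 * (1 + L) :=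
      mul_le_mul hvI hs hs0 zero_le_one
    linarith
  have he1 : ∀ᶠ T in atTop, EE v T (fun t => ‖CB B M T t - TdS B J ⌊10 * L⌋₊ T t‖ ^ 2) ≤ 8 / L :=
    (hm1.eventually (gt_mem_nhds hb1')).mono fun T hT => le_of_lt hT
  have he2 : ∀ᶠ T in atTop, EE v T (fun t => ‖SS B J T t‖ ^ 2) ≤ 2 * L :=
    (hm2.eventually (gt_mem_nhds hb2')).mono fun T hT => le_of_lt hT
  have hR1 := Mean_rare (FF := atTop) le_rfl hv (α := α) (β := β) (fun x hx => (hv1 x hx).ge) (c := 1 / 16) (I := 8 / L)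
    (by norm_num) (f := fun T t => ‖CB B M T t - TdS B J ⌊10 * L⌋₊ T t‖ ^ 2) (fun T t => by positivity)
    (fun T => (((continuous_CB B M T).sub (continuous_TdS B J _ T)).norm).pow 2) he1
  have hR2 := Mean_rare (FF := atTop) le_rfl hv (α := α) (β := β) (fun x hx => (hv1 x hx).ge) (c := L ^ 2) (I := 2 * L)
    (by positivity) (f := fun T t => ‖SS B J T t‖ ^ 2) (fun T t => by positivity)
    (fun T => ((continuous_SS B J T).norm).pow 2) he2
  refine Rare_mono (Rare_union hR1 hR2) le_rfl le_rfl le_rfl le_rfl ?_ (Eventually.of_forall fun T t _ ht => ?_)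
  · rw [← hLd]
    have h1 : 8 / L / (1 / 16) + 2 * L / L ^ 2 = 130 / L := by
      field_simp
      norm_num
    rw [h1]
    exact div_le_div_of_nonneg_right (by norm_num) hL0.le
  · by_contra hn
    rw [mem_union, not_or] at hn
    obtain ⟨hn1, hn2⟩ := hn
    simp only [mem_setOf_eq, not_le] at hn1 hn2 ht
    obtain ⟨ht1, ht2⟩ := ht
    have hXX : XX M (cG θ G) T t = (SS B J T t).re := by
      rw [hB, hJ]
      rfl
    have hCT : CT M (hG (yy M) (cG θ G)) T t = CB B M T t := by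
      rw [hB]
      rfl
    rw [hXX] at ht1 ht2
    rw [hCT] at ht2
    have h1 : ‖SS B J T t‖ ≤ L := by
      by_contra h
      rw [not_le] at h
      have : L ^ 2 < ‖SS B J T t‖ ^ 2 := by
        exact pow_lt_pow_left₀ h hL0.le (by norm_num)
      linarith
    have h2 : ‖CB B M T t - TdS B J ⌊10 * L⌋₊ T t‖ ≤ 1 / 4 := by
      by_contra h
      rw [not_le] at h
      have h3 : (1 / 4 : ℝ) ^ 2 < ‖CB B M T t - TdS B J ⌊10 * L⌋₊ T t‖ ^ 2 := pow_lt_pow_left₀ h (by norm_num) (by norm_num)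
      norm_num at h3
      linarith
    have h3 := point hL ht1 h1 h2
    linarith

end Pool.Agent.H24.AH
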